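import Pool.Agent.Helper60.Quas.Type3Thm

namespace Pool.Agent.Helper60.Quas

open Finset Equiv

variable {Q : Type*} [Fintype Q] [DecidableEq Q] [Group Q] {m : Q → Q → Q}

omit [Fintype Q] [DecidableEq Q] in
lemma not_T {x y : Q} (h : ¬ T m x y) : m x y = x * y := by
  unfold T at h
  push Not at h
  exact h

omit [Fintype Q] [DecidableEq Q] in
/-- a changed cell is not alone in its row -/
lemma row_other (h : IsQuasigroup m) {x y : Q} (hT : T m x y) :
    ∃ y', y' ≠ y ∧ T m x y' ∧ m x y' = x * y := by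
  obtain ⟨y', hy'⟩ := (h.1 x).2 (x * y)
  have hne : y' ≠ y := by
    rintro rfl; exact hT hy'
  refine ⟨y', hne, ?_, hy'⟩
  by_contra hc
  rw [not_T hc] at hy'
  exact hne (mul_left_cancel hy')

omit [Fintype Q] [DecidableEq Q] in
/-- a changed cell is not alone in its column -/
lemma col_other (h : IsQuasigroup m) {x y : Q} (hT : T m x y) :
    ∃ x', x' ≠ x ∧ T m x' y ∧ m x' y = x * y := by
  obtain ⟨x', hx'⟩ := (h.2 y).2 (x * y)
  simp only at hx'
  have hne : x' ≠ x := by
    rintro rfl; exact hT hx'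
  refine ⟨x', hne, ?_, hx'⟩
  by_contra hc
  rw [not_T hc] at hx'
  exact hne (mul_right_cancel hx')

/-- rows containing a changed cell -/
def B0 (m : Q → Q → Q) : Finset Q := univ.filter fun x => ∃ y, T m x y
/-- columns containing a changed cell -/
def C0 (m : Q → Q → Q) : Finset Q := univ.filter fun y => ∃ x, T m x y

lemma mem_B0 {x : Q} : x ∈ B0 m ↔ ∃ y, T m x y := by simp [B0]
lemma mem_C0 {y : Q} : y ∈ C0 m ↔ ∃ x, T m x y := by simp [C0]

lemma rho_eq_card (x : Q) : rho m x = (univ.filter fun y => T m x y).card := by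
  unfold rho
  rw [Finset.card_filter]

lemma gam_eq_card (y : Q) : gam m y = (univ.filter fun x => T m x y).card := by
  unfold gam
  rw [Finset.card_filter]

lemma rho_le (x : Q) : rho m x ≤ (C0 m).card := by
  rw [rho_eq_card]
  apply Finset.card_le_card
  intro y hy
  rw [mem_filter] at hy
  exact mem_C0.2 ⟨x, hy.2⟩

lemma gam_le (y : Q) : gam m y ≤ (B0 m).card := by
  rw [gam_eq_card]
  apply Finset.card_le_card
  intro x hx
  rw [mem_filter] at hx
  exact mem_B0.2 ⟨y, hx.2⟩

lemma two_le_rho (h : IsQuasigroup m) {x : Q} (hx : x ∈ B0 m) : 2 ≤ rho m x := by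
  obtain ⟨y, hy⟩ := mem_B0.1 hx
  obtain ⟨y', hne, hy', -⟩ := row_other h hy
  rw [rho_eq_card, ← Finset.card_pair hne]
  apply Finset.card_le_card
  intro z hz
  rw [mem_insert, mem_singleton] at hz
  rw [mem_filter]
  rcases hz with rfl | rfl
  · exact ⟨mem_univ _, hy'⟩
  · exact ⟨mem_univ _, hy⟩

lemma two_le_gam (h : IsQuasigroup m) {y : Q} (hy : y ∈ C0 m) : 2 ≤ gam m y := by
  obtain ⟨x, hx⟩ := mem_C0.1 hy
  obtain ⟨x', hne, hx', -⟩ := col_other h hx
  rw [gam_eq_card, ← Finset.card_pair hne]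
  apply Finset.card_le_card
  intro z hz
  rw [mem_insert, mem_singleton] at hz
  rw [mem_filter]
  rcases hz with rfl | rfl
  · exact ⟨mem_univ _, hx'⟩
  · exact ⟨mem_univ _, hx⟩

lemma rho_zero {x : Q} (hx : x ∉ B0 m) : rho m x = 0 := by
  rw [rho_eq_card, Finset.card_eq_zero, Finset.filter_eq_empty_iff]
  intro y _ hy
  exact hx (mem_B0.2 ⟨y, hy⟩)

lemma gam_zero {y : Q} (hy : y ∉ C0 m) : gam m y = 0 := by
  rw [gam_eq_card, Finset.card_eq_zero, Finset.filter_eq_empty_iff]
  intro x _ hx
  exact hy (mem_C0.2 ⟨x, hx⟩)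

lemma tt_rho : tt m = ∑ x ∈ B0 m, rho m x := by
  have : tt m = ∑ x, rho m x := rfl
  rw [this]
  symm
  apply Finset.sum_subset (subset_univ _)
  intro x _ hx
  exact rho_zero hx

lemma tt_gam : tt m = ∑ y ∈ C0 m, gam m y := by
  have : tt m = ∑ x, gam m x := by
    unfold tt gam
    rw [Finset.sum_comm]
  rw [this]
  symm
  apply Finset.sum_subset (subset_univ _)
  intro x _ hx
  exact gam_zero hx

lemma two_B0 (h : IsQuasigroup m) : 2 * (B0 m).card ≤ tt m := by
  rw [tt_rho, mul_comm, ← smul_eq_mul]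
  apply Finset.card_nsmul_le_sum
  intro x hx
  exact two_le_rho h hx

lemma two_C0 (h : IsQuasigroup m) : 2 * (C0 m).card ≤ tt m := by
  rw [tt_gam, mul_comm, ← smul_eq_mul]
  apply Finset.card_nsmul_le_sum
  intro x hx
  exact two_le_gam h hx

lemma B0_ge_two (h : IsQuasigroup m) {x y : Q} (hT : T m x y) : 2 ≤ (B0 m).card := by
  obtain ⟨x', hne, hx', -⟩ := col_other h hT
  rw [← Finset.card_pair hne]
  apply Finset.card_le_card
  intro z hz
  rw [mem_insert, mem_singleton] at hz
  rcases hz with rfl | rfl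
  · exact mem_B0.2 ⟨y, hx'⟩
  · exact mem_B0.2 ⟨y, hT⟩

lemma C0_ge_two (h : IsQuasigroup m) {x y : Q} (hT : T m x y) : 2 ≤ (C0 m).card := by
  obtain ⟨x', hne, hx', -⟩ := row_other h hT
  rw [← Finset.card_pair hne]
  apply Finset.card_le_card
  intro z hz
  rw [mem_insert, mem_singleton] at hz
  rcases hz with rfl | rfl
  · exact mem_C0.2 ⟨x, hx'⟩
  · exact mem_C0.2 ⟨x, hT⟩

/-- two changed rows: every changed column meets both rows -/
lemma two_rows_full (h : IsQuasigroup m) {a b : Q} (hB : B0 m = {a, b})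
    {y : Q} (hy : y ∈ C0 m) : T m a y ∧ T m b y := by
  obtain ⟨x, hx⟩ := mem_C0.1 hy
  obtain ⟨x', hne, hx', -⟩ := col_other h hx
  have h1 : x ∈ B0 m := mem_B0.2 ⟨y, hx⟩
  have h2 : x' ∈ B0 m := mem_B0.2 ⟨y, hx'⟩
  rw [hB, mem_insert, mem_singleton] at h1 h2
  rcases h1 with rfl | rfl <;> rcases h2 with rfl | rfl
  · exact absurd rfl hne
  · exact ⟨hx, hx'⟩
  · exact ⟨hx', hx⟩
  · exact absurd rfl hne

lemma two_rows_tt (h : IsQuasigroup m) {a b : Q} (hab : a ≠ b) (hB : B0 m = {a, b}) :
    tt m = 2 * (C0 m).card := by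
  rw [tt_gam, mul_comm, ← smul_eq_mul, ← Finset.sum_const]
  refine Finset.sum_congr rfl fun y hy => ?_
  apply le_antisymm
  · have := gam_le (m := m) y
    rwa [hB, Finset.card_pair hab] at this
  · exact two_le_gam h hy

/-- the two row case gives a `2 × 3` trade (in a group of odd order, at most three columns) -/
lemma two_rows_conf (h : IsQuasigroup m) (hodd : Odd (Fintype.card Q)) {a b : Q} (hab : a ≠ b)
    (hB : B0 m = {a, b}) (hC : (C0 m).card ≤ 3) : ∃ c v, Conf1 m a c v := by
  set g := a⁻¹ * b with hg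
  have hg1 : g ≠ 1 := by
    intro hh
    rw [hg, inv_mul_eq_one] at hh
    exact hab hh
  have hgg : g * g ≠ 1 := by
    intro hh
    obtain ⟨k, hk⟩ := hodd
    have h6 : g ^ (2 * k + 1) = 1 := by rw [← hk]; exact pow_card_eq_one
    rw [pow_succ, pow_mul, pow_two, hh, one_pow, one_mul] at h6
    exact hg1 h6
  have hbg : b = a * g := by rw [hg]; group
  have hfull := fun {y} (hy : y ∈ C0 m) => two_rows_full h hB hy
  have hTa : ∀ y, T m a y → y ∈ C0 m := fun y hy => mem_C0.2 ⟨a, hy⟩
  -- values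
  have hval : ∀ y, y ∈ C0 m → m a y = b * y ∧ m b y = a * y := by
    intro y hy
    obtain ⟨h1, h2⟩ := hfull hy
    constructor
    · obtain ⟨x', hne, hx', hv⟩ := col_other h h2
      have h3 : x' ∈ B0 m := mem_B0.2 ⟨y, hx'⟩
      rw [hB, mem_insert, mem_singleton] at h3
      rcases h3 with rfl | rfl
      · exact hv
      · exact absurd rfl hne
    · obtain ⟨x', hne, hx', hv⟩ := col_other h h1
      have h3 : x' ∈ B0 m := mem_B0.2 ⟨y, hx'⟩
      rw [hB, mem_insert, mem_singleton] at h3
      rcases h3 with rfl | rfl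
      · exact absurd rfl hne
      · exact hv
  have hclos : ∀ y, y ∈ C0 m → g * y ∈ C0 m := by
    intro y hy
    by_contra hc
    have h1 : ¬ T m a (g * y) := fun hh => hc (hTa _ hh)
    have h2 := not_T h1
    have h3 := (hval y hy).1
    rw [hbg, mul_assoc, ← h2] at h3
    have h4 := (h.1 a).1 h3
    have : g = 1 := by
      have : g * y = 1 * y := by rw [one_mul]; exact h4.symm
      exact mul_right_cancel this
    exact hg1 this
  have haB : a ∈ B0 m := by rw [hB]; exact mem_insert_self _ _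
  obtain ⟨c, hc⟩ := mem_B0.1 haB
  have hcC : c ∈ C0 m := hTa c hc
  have m1 := hclos c hcC
  have m2 := hclos _ m1
  have m3 := hclos _ m2
  have d1 : g * c ≠ c := by
    intro hh
    apply hg1
    have : g * c = 1 * c := by rw [one_mul]; exact hh
    exact mul_right_cancel this
  have d2 : g * (g * c) ≠ c := by
    intro hh
    apply hgg
    have : g * g * c = 1 * c := by rw [one_mul, mul_assoc]; exact hh
    exact mul_right_cancel this
  have d3 : g * (g * c) ≠ g * c := by
    intro hh
    exact d1 (mul_left_cancel hh)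
  have hsub : ({c, g * c, g * (g * c)} : Finset Q) ⊆ C0 m := by
    intro z hz
    simp only [mem_insert, mem_singleton] at hz
    rcases hz with rfl | rfl | rfl <;> assumption
  have hcard3 : ({c, g * c, g * (g * c)} : Finset Q).card = 3 :=
    Finset.card_eq_three.2 ⟨_, _, _, d1.symm, d2.symm, d3.symm, rfl⟩
  have hCeq : ({c, g * c, g * (g * c)} : Finset Q) = C0 m :=
    Finset.eq_of_subset_of_card_le hsub (by rw [hcard3]; exact hC)
  have hg3 : g * g * g = 1 := by
    rw [← hCeq] at m3
    simp only [mem_insert, mem_singleton] at m3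
    rcases m3 with hh | hh | hh
    · have : g * g * g * c = 1 * c := by rw [one_mul, mul_assoc, mul_assoc]; exact hh
      exact mul_right_cancel this
    · exact absurd (mul_left_cancel hh) d2
    · exact absurd (mul_left_cancel hh) d3
  have hz : ∀ y, y * c⁻¹ ∈ Subgroup.zpowers g ↔ y ∈ C0 m := by
    intro y
    rw [← hCeq]
    simp only [mem_insert, mem_singleton]
    have hfin : Fact (Nat.Prime 3) := ⟨Nat.prime_three⟩
    constructor
    · intro hh
      rw [Subgroup.mem_zpowers_iff] at hh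
      obtain ⟨i, hi⟩ := hh
      have hi3 : g ^ i = g ^ (i % 3) := by
        have h1 : g ^ (3 : ℤ) = 1 := by
          have : g ^ (3 : ℤ) = g * g * g := by
            rw [show (3 : ℤ) = ((3 : ℕ) : ℤ) from rfl, zpow_natCast, pow_succ, pow_two]
          rw [this, hg3]
        conv_lhs => rw [← Int.emod_add_mul_ediv i 3]
        rw [zpow_add, zpow_mul, h1, one_zpow, mul_one]
      rw [hi3] at hi
      have h2 : i % 3 = 0 ∨ i % 3 = 1 ∨ i % 3 = 2 := by omega
      rcases h2 with h2 | h2 | h2
      · left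
        rw [h2] at hi
        have : y * c⁻¹ = 1 := by rw [← hi]; group
        rwa [mul_inv_eq_one] at this
      · right; left
        rw [h2] at hi
        calc y = y * c⁻¹ * c := by group
          _ = g * c := by rw [← hi]; group
      · right; right
        rw [h2] at hi
        rw [show (2 : ℤ) = ((2 : ℕ) : ℤ) from rfl, zpow_natCast, pow_two] at hi
        calc y = y * c⁻¹ * c := by group
          _ = g * (g * c) := by rw [← hi]; group
    · rintro (rfl | rfl | rfl)
      · rw [mul_inv_cancel]; exact Subgroup.one_mem _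
      · have : g * c * c⁻¹ = g := by group
        rw [this]; exact Subgroup.mem_zpowers g
      · have : g * (g * c) * c⁻¹ = g * g := by group
        rw [this]; exact Subgroup.mul_mem _ (Subgroup.mem_zpowers g) (Subgroup.mem_zpowers g)
  refine ⟨c, g, hg3, hgg, ?_, ?_, ?_⟩
  · intro x y
    rw [hz, ← hbg]
    constructor
    · intro hh
      have h1 : x ∈ B0 m := mem_B0.2 ⟨y, hh⟩
      rw [hB, mem_insert, mem_singleton] at h1
      exact ⟨h1, mem_C0.2 ⟨x, hh⟩⟩
    · rintro ⟨rfl | rfl, h2⟩
      · exact (hfull h2).1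
      · exact (hfull h2).2
  · intro y hy
    rw [hz] at hy
    rw [← hbg]
    exact (hval y hy).1
  · intro y hy
    rw [hz] at hy
    rw [← hbg]
    exact (hval y hy).2

end Pool.Agent.Helper60.Quas
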