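import Pool.Agent.Helper60.Quas.Classify

namespace Pool.Agent.Helper60.Quas

open Finset Equiv

variable {Q : Type*} [Fintype Q] [DecidableEq Q] [Group Q] {m : Q → Q → Q}

omit [Fintype Q] [DecidableEq Q] in
lemma row_two (h : IsQuasigroup m) {x c d : Q} (hc : T m x c)
    (hcd : ∀ y, T m x y → y = c ∨ y = d) : m x d = x * c := by
  obtain ⟨y', hne, hT, hv⟩ := row_other h hc
  rcases hcd y' hT with rfl | rfl
  · exact absurd rfl hne
  · exact hv

omit [Fintype Q] [DecidableEq Q] in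
lemma col_two (h : IsQuasigroup m) {y a b : Q} (ha : T m a y)
    (hab : ∀ x, T m x y → x = a ∨ x = b) : m b y = a * y := by
  obtain ⟨y', hne, hT, hv⟩ := col_other h ha
  rcases hab y' hT with rfl | rfl
  · exact absurd rfl hne
  · exact hv

omit [Fintype Q] [DecidableEq Q] in
/-- the `3 × 3` configuration -/
lemma conf3_of (h : IsQuasigroup m) {x1 x2 x3 y1 y2 y3 : Q}
    (hx12 : x1 ≠ x2) (hx13 : x1 ≠ x3) (hx23 : x2 ≠ x3)
    (hy12 : y1 ≠ y2) (hy13 : y1 ≠ y3) (hy23 : y2 ≠ y3)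
    (hT : ∀ x y, T m x y ↔ (x = x1 ∧ (y = y2 ∨ y = y3)) ∨ (x = x2 ∧ (y = y1 ∨ y = y3)) ∨
      (x = x3 ∧ (y = y1 ∨ y = y2))) : ∃ a p v, Conf3 m a p v := by
  have T12 : T m x1 y2 := (hT _ _).2 (by simp)
  have T13 : T m x1 y3 := (hT _ _).2 (by simp)
  have T21 : T m x2 y1 := (hT _ _).2 (by simp)
  have T23 : T m x2 y3 := (hT _ _).2 (by simp)
  have T31 : T m x3 y1 := (hT _ _).2 (by simp)
  have T32 : T m x3 y2 := (hT _ _).2 (by simp)
  -- row values
  have r13 : m x1 y3 = x1 * y2 := row_two h T12 (by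
    intro y hy; rw [hT] at hy
    rcases hy with ⟨-, h2⟩ | ⟨h1, -⟩ | ⟨h1, -⟩
    · exact h2
    · exact absurd h1 hx12
    · exact absurd h1 hx13)
  have r12 : m x1 y2 = x1 * y3 := row_two h T13 (by
    intro y hy; rw [hT] at hy
    rcases hy with ⟨-, h2⟩ | ⟨h1, -⟩ | ⟨h1, -⟩
    · exact h2.symm
    · exact absurd h1 hx12
    · exact absurd h1 hx13)
  have r23 : m x2 y3 = x2 * y1 := row_two h T21 (by
    intro y hy; rw [hT] at hy
    rcases hy with ⟨h1, -⟩ | ⟨-, h2⟩ | ⟨h1, -⟩
    · exact absurd h1.symm hx12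
    · exact h2
    · exact absurd h1 hx23)
  have r21 : m x2 y1 = x2 * y3 := row_two h T23 (by
    intro y hy; rw [hT] at hy
    rcases hy with ⟨h1, -⟩ | ⟨-, h2⟩ | ⟨h1, -⟩
    · exact absurd h1.symm hx12
    · exact h2.symm
    · exact absurd h1 hx23)
  have r32 : m x3 y2 = x3 * y1 := row_two h T31 (by
    intro y hy; rw [hT] at hy
    rcases hy with ⟨h1, -⟩ | ⟨h1, -⟩ | ⟨-, h2⟩
    · exact absurd h1.symm hx13
    · exact absurd h1.symm hx23
    · exact h2)
  have r31 : m x3 y1 = x3 * y2 := row_two h T32 (by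
    intro y hy; rw [hT] at hy
    rcases hy with ⟨h1, -⟩ | ⟨h1, -⟩ | ⟨-, h2⟩
    · exact absurd h1.symm hx13
    · exact absurd h1.symm hx23
    · exact h2.symm)
  -- column values
  have c1 : m x3 y1 = x2 * y1 := col_two h T21 (by
    intro x hx; rw [hT] at hx
    rcases hx with ⟨-, h2 | h2⟩ | ⟨h1, -⟩ | ⟨h1, -⟩
    · exact absurd h2 hy12
    · exact absurd h2 hy13
    · exact Or.inl h1
    · exact Or.inr h1)
  have c1' : m x2 y1 = x3 * y1 := col_two h T31 (by
    intro x hx; rw [hT] at hx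
    rcases hx with ⟨-, h2 | h2⟩ | ⟨h1, -⟩ | ⟨h1, -⟩
    · exact absurd h2 hy12
    · exact absurd h2 hy13
    · exact Or.inr h1
    · exact Or.inl h1)
  have c2 : m x3 y2 = x1 * y2 := col_two h T12 (by
    intro x hx; rw [hT] at hx
    rcases hx with ⟨h1, -⟩ | ⟨-, h2 | h2⟩ | ⟨h1, -⟩
    · exact Or.inl h1
    · exact absurd h2.symm hy12
    · exact absurd h2 hy23
    · exact Or.inr h1)
  have c2' : m x1 y2 = x3 * y2 := col_two h T32 (by
    intro x hx; rw [hT] at hx
    rcases hx with ⟨h1, -⟩ | ⟨-, h2 | h2⟩ | ⟨h1, -⟩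
    · exact Or.inr h1
    · exact absurd h2.symm hy12
    · exact absurd h2 hy23
    · exact Or.inl h1)
  have c3 : m x2 y3 = x1 * y3 := col_two h T13 (by
    intro x hx; rw [hT] at hx
    rcases hx with ⟨h1, -⟩ | ⟨h1, -⟩ | ⟨-, h2 | h2⟩
    · exact Or.inl h1
    · exact Or.inr h1
    · exact absurd h2.symm hy13
    · exact absurd h2.symm hy23)
  have c3' : m x1 y3 = x2 * y3 := col_two h T23 (by
    intro x hx; rw [hT] at hx
    rcases hx with ⟨h1, -⟩ | ⟨h1, -⟩ | ⟨-, h2 | h2⟩
    · exact Or.inr h1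
    · exact Or.inl h1
    · exact absurd h2.symm hy13
    · exact absurd h2.symm hy23)
  -- the two symbols
  have p23 : x2 * y3 = x1 * y2 := by rw [← c3', r13]
  have p31 : x3 * y1 = x1 * y2 := by rw [← r32, c2]
  have q21 : x2 * y1 = x1 * y3 := by rw [← r23, c3]
  have q32 : x3 * y2 = x1 * y3 := by rw [← c2', r12]
  set p := x1 * y2 with hp
  set q := x1 * y3 with hq
  set v := q * p⁻¹ with hv
  have hvp : v * p = q := by rw [hv]; group
  have v12 : v = x1 * x2⁻¹ := by
    rw [hv, ← p23, hq]; group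
  have v23 : v = x2 * x3⁻¹ := by
    rw [hv, ← q21, ← p31]; group
  have v31 : v = x3 * x1⁻¹ := by
    rw [hv, ← q32, hp]; group
  have v3 : v * v * v = 1 := by
    calc v * v * v = (x1 * x2⁻¹) * (x2 * x3⁻¹) * (x3 * x1⁻¹) := by
          rw [← v12, ← v23, ← v31]
      _ = 1 := by group
  have vne1 : v ≠ 1 := by
    intro hh
    rw [v12, mul_inv_eq_one] at hh
    exact hx12 hh
  have vne : v * v ≠ 1 := by
    intro hh
    rw [hh, one_mul] at v3
    exact vne1 v3
  have hmem : ∀ x, x * x1⁻¹ ∈ Subgroup.zpowers v ↔ (x = x1 ∨ x = x2 ∨ x = x3) := by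
    intro x
    constructor
    · intro hh
      rw [Subgroup.mem_zpowers_iff] at hh
      obtain ⟨i, hi⟩ := hh
      have h1 : v ^ (3 : ℤ) = 1 := by
        rw [show (3 : ℤ) = ((3 : ℕ) : ℤ) from rfl, zpow_natCast, pow_succ, pow_two, v3]
      have hi3 : v ^ i = v ^ (i % 3) := by
        conv_lhs => rw [← Int.emod_add_mul_ediv i 3]
        rw [zpow_add, zpow_mul, h1, one_zpow, mul_one]
      rw [hi3] at hi
      have h2 : i % 3 = 0 ∨ i % 3 = 1 ∨ i % 3 = 2 := by omega
      rcases h2 with h2 | h2 | h2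
      · left
        rw [h2, zpow_zero] at hi
        exact (mul_inv_eq_one.1 hi.symm)
      · right; right
        rw [h2, zpow_one] at hi
        calc x = x * x1⁻¹ * x1 := by group
          _ = v * x1 := by rw [← hi]
          _ = x3 := by rw [v31]; group
      · right; left
        rw [h2, show (2 : ℤ) = ((2 : ℕ) : ℤ) from rfl, zpow_natCast, pow_two] at hi
        calc x = x * x1⁻¹ * x1 := by group
          _ = v * v * x1 := by rw [← hi]
          _ = (x2 * x3⁻¹) * (x3 * x1⁻¹) * x1 := by rw [← v23, ← v31]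
          _ = x2 := by group
    · rintro (rfl | rfl | rfl)
      · rw [mul_inv_cancel]; exact Subgroup.one_mem _
      · have : x * x1⁻¹ = v⁻¹ := by rw [v12]; group
        rw [this]; exact Subgroup.inv_mem _ (Subgroup.mem_zpowers v)
      · rw [← v31]; exact Subgroup.mem_zpowers v
  have hpq : p ≠ q := by
    rw [hp, hq]; intro hh; exact hy23 (mul_left_cancel hh)
  refine ⟨x1, p, v, v3, vne, ?_, ?_, ?_⟩
  · intro x y
    rw [hT, hmem, hvp]
    constructor
    · rintro (⟨rfl, rfl | rfl⟩ | ⟨rfl, rfl | rfl⟩ | ⟨rfl, rfl | rfl⟩)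
      · exact ⟨by simp, Or.inl rfl⟩
      · exact ⟨by simp, Or.inr rfl⟩
      · exact ⟨by simp, Or.inr q21⟩
      · exact ⟨by simp, Or.inl p23⟩
      · exact ⟨by simp, Or.inl p31⟩
      · exact ⟨by simp, Or.inr q32⟩
    · rintro ⟨rfl | rfl | rfl, hh | hh⟩
      · left; exact ⟨rfl, Or.inl (mul_left_cancel hh)⟩
      · left; exact ⟨rfl, Or.inr (mul_left_cancel hh)⟩
      · right; left
        rw [← p23] at hh
        exact ⟨rfl, Or.inr (mul_left_cancel hh)⟩
      · right; left
        rw [← q21] at hh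
        exact ⟨rfl, Or.inl (mul_left_cancel hh)⟩
      · right; right
        rw [← p31] at hh
        exact ⟨rfl, Or.inl (mul_left_cancel hh)⟩
      · right; right
        rw [← q32] at hh
        exact ⟨rfl, Or.inr (mul_left_cancel hh)⟩
  · intro x y hx hh
    rw [hmem] at hx
    rw [hvp]
    rcases hx with rfl | rfl | rfl
    · have : y = y2 := mul_left_cancel hh
      rw [this, r12]
    · rw [← p23] at hh
      have : y = y3 := mul_left_cancel hh
      rw [this, c3]
    · rw [← p31] at hh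
      have : y = y1 := mul_left_cancel hh
      rw [this, c1, q21]
  · intro x y hx hh
    rw [hmem] at hx
    rw [hvp] at hh
    rcases hx with rfl | rfl | rfl
    · have : y = y3 := mul_left_cancel hh
      rw [this, r13]
    · rw [← q21] at hh
      have : y = y1 := mul_left_cancel hh
      rw [this, c1', p31]
    · rw [← q32] at hh
      have : y = y2 := mul_left_cancel hh
      rw [this, c2]

/-- unique non-changed column of a changed row -/
lemma row_missing {x : Q} (hC : (C0 m).card = 3) (hr : rho m x = 2) :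
    ∃ y0 ∈ C0 m, ∀ y, T m x y ↔ y ∈ C0 m ∧ y ≠ y0 := by
  have hsub : (univ.filter fun y => T m x y) ⊆ C0 m := by
    intro y hy
    rw [mem_filter] at hy
    exact mem_C0.2 ⟨x, hy.2⟩
  have hc : (C0 m \ (univ.filter fun y => T m x y)).card = 1 := by
    rw [Finset.card_sdiff_of_subset hsub, hC, ← rho_eq_card, hr]
  obtain ⟨y0, hy0⟩ := Finset.card_eq_one.1 hc
  have h0 : y0 ∈ C0 m \ (univ.filter fun y => T m x y) := by rw [hy0]; exact mem_singleton_self _
  rw [mem_sdiff, mem_filter] at h0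
  refine ⟨y0, h0.1, ?_⟩
  intro y
  constructor
  · intro hy
    refine ⟨mem_C0.2 ⟨x, hy⟩, ?_⟩
    rintro rfl
    exact h0.2 ⟨mem_univ _, hy⟩
  · rintro ⟨h1, h2⟩
    by_contra hn
    apply h2
    have : y ∈ C0 m \ (univ.filter fun y => T m x y) := by
      rw [mem_sdiff, mem_filter]
      exact ⟨h1, fun hh => hn hh.2⟩
    rw [hy0, mem_singleton] at this
    exact this

lemma three_three (h : IsQuasigroup m) (hB : (B0 m).card = 3) (hC : (C0 m).card = 3)
    (ht : tt m = 6) : ∃ a p v, Conf3 m a p v := by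
  have hrho : ∀ x ∈ B0 m, rho m x = 2 := by
    intro x hx
    have h1 := tt_rho (m := m)
    rw [ht] at h1
    have h2 : ∑ x ∈ B0 m, rho m x = ∑ x ∈ B0 m, 2 := by
      rw [← h1, Finset.sum_const, hB, smul_eq_mul]
    have h3 := (Finset.sum_eq_sum_iff_of_le (f := fun _ => 2) (g := fun x => rho m x)
      (s := B0 m) (fun i hi => two_le_rho h hi)).1 h2.symm
    exact (h3 x hx).symm
  obtain ⟨x1, x2, x3, h12, h13, h23, hBe⟩ := Finset.card_eq_three.1 hB
  have hx1 : x1 ∈ B0 m := by rw [hBe]; simp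
  have hx2 : x2 ∈ B0 m := by rw [hBe]; simp
  have hx3 : x3 ∈ B0 m := by rw [hBe]; simp
  obtain ⟨y1, hy1, t1⟩ := row_missing hC (hrho x1 hx1)
  obtain ⟨y2, hy2, t2⟩ := row_missing hC (hrho x2 hx2)
  obtain ⟨y3, hy3, t3⟩ := row_missing hC (hrho x3 hx3)
  have hB3 : ∀ x y, T m x y → x = x1 ∨ x = x2 ∨ x = x3 := by
    intro x y hxy
    have : x ∈ B0 m := mem_B0.2 ⟨y, hxy⟩
    rw [hBe] at this
    simpa using this
  -- distinctness
  have dis : ∀ {a b c : Q}, (∀ x y, T m x y → x = a ∨ x = b ∨ x = c) → ∀ y ∈ C0 m,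
      ¬ T m a y → ¬ T m b y → False := by
    intro a b c habc y hy na nb
    obtain ⟨x, hx⟩ := mem_C0.1 hy
    obtain ⟨x', hne, hx', -⟩ := col_other h hx
    rcases habc x y hx with rfl | rfl | rfl
    · exact na hx
    · exact nb hx
    · rcases habc x' y hx' with rfl | rfl | rfl
      · exact na hx'
      · exact nb hx'
      · exact hne rfl
  have n1 : ¬ T m x1 y1 := fun hh => ((t1 y1).1 hh).2 rfl
  have n2 : ¬ T m x2 y2 := fun hh => ((t2 y2).1 hh).2 rfl
  have n3 : ¬ T m x3 y3 := fun hh => ((t3 y3).1 hh).2 rfl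
  have e12 : y1 ≠ y2 := by
    rintro rfl; exact dis hB3 y1 hy1 n1 n2
  have e13 : y1 ≠ y3 := by
    rintro rfl
    exact dis (a := x1) (b := x3) (c := x2) (fun x y hh => by
      rcases hB3 x y hh with h1 | h1 | h1
      · exact Or.inl h1
      · exact Or.inr (Or.inr h1)
      · exact Or.inr (Or.inl h1)) y1 hy1 n1 n3
  have e23 : y2 ≠ y3 := by
    rintro rfl
    exact dis (a := x2) (b := x3) (c := x1) (fun x y hh => by
      rcases hB3 x y hh with h1 | h1 | h1
      · exact Or.inr (Or.inr h1)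
      · exact Or.inl h1
      · exact Or.inr (Or.inl h1)) y2 hy2 n2 n3
  have hsub : ({y1, y2, y3} : Finset Q) ⊆ C0 m := by
    intro z hz
    simp only [mem_insert, mem_singleton] at hz
    rcases hz with rfl | rfl | rfl <;> assumption
  have hCe : ({y1, y2, y3} : Finset Q) = C0 m :=
    Finset.eq_of_subset_of_card_le hsub (by
      rw [hC, Finset.card_eq_three.2 ⟨_, _, _, e12, e13, e23, rfl⟩])
  have hmemC : ∀ y, y ∈ C0 m ↔ (y = y1 ∨ y = y2 ∨ y = y3) := by
    intro y; rw [← hCe]; simp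
  apply conf3_of h h12 h13 h23 e12 e13 e23
  intro x y
  constructor
  · intro hh
    rcases hB3 x y hh with rfl | rfl | rfl
    · left
      have := (t1 y).1 hh
      rw [hmemC] at this
      refine ⟨rfl, ?_⟩
      rcases this with ⟨h1 | h1 | h1, h2⟩
      · exact absurd h1 h2
      · exact Or.inl h1
      · exact Or.inr h1
    · right; left
      have := (t2 y).1 hh
      rw [hmemC] at this
      refine ⟨rfl, ?_⟩
      rcases this with ⟨h1 | h1 | h1, h2⟩
      · exact Or.inl h1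
      · exact absurd h1 h2
      · exact Or.inr h1
    · right; right
      have := (t3 y).1 hh
      rw [hmemC] at this
      refine ⟨rfl, ?_⟩
      rcases this with ⟨h1 | h1 | h1, h2⟩
      · exact Or.inl h1
      · exact Or.inr h1
      · exact absurd h1 h2
  · rintro (⟨rfl, rfl | rfl⟩ | ⟨rfl, rfl | rfl⟩ | ⟨rfl, rfl | rfl⟩)
    · exact (t1 _).2 ⟨hy2, e12.symm⟩
    · exact (t1 _).2 ⟨hy3, e13.symm⟩
    · exact (t2 _).2 ⟨hy1, e12⟩
    · exact (t2 _).2 ⟨hy3, e23.symm⟩
    · exact (t3 _).2 ⟨hy1, e13⟩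
    · exact (t3 _).2 ⟨hy2, e23⟩

end Pool.Agent.Helper60.Quas
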