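import Pool.Agent.Helper60.Quas.Defs

namespace Pool.Agent.Helper60.Quas

open Finset Equiv

variable {Q : Type*} [Fintype Q] [DecidableEq Q]

/-- left translation as a permutation -/
noncomputable def Lp {m : Q → Q → Q} (h : IsQuasigroup m) (x : Q) : Perm Q :=
  Equiv.ofBijective (m x) (h.1 x)

/-- right translation as a permutation -/
noncomputable def Rp {m : Q → Q → Q} (h : IsQuasigroup m) (z : Q) : Perm Q :=
  Equiv.ofBijective (fun x => m x z) (h.2 z)

omit [Fintype Q] [DecidableEq Q] in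
@[simp] lemma Lp_apply {m : Q → Q → Q} (h : IsQuasigroup m) (x y : Q) : Lp h x y = m x y := rfl

omit [Fintype Q] [DecidableEq Q] in
@[simp] lemma Rp_apply {m : Q → Q → Q} (h : IsQuasigroup m) (z x : Q) : Rp h z x = m x z := rfl

lemma nonAssoc_eq (m : Q → Q → Q) :
    nonAssocTriples m = ∑ x, ∑ y, ∑ z, if m x (m y z) ≠ m (m x y) z then 1 else 0 := by
  unfold nonAssocTriples
  rw [Finset.card_filter, Fintype.sum_prod_type]
  refine Finset.sum_congr rfl fun x _ => ?_
  rw [Fintype.sum_prod_type]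

/-- opposite operation -/
def opp (m : Q → Q → Q) : Q → Q → Q := fun x y => m y x

omit [Fintype Q] [DecidableEq Q] in
lemma IsQuasigroup.opp {m : Q → Q → Q} (h : IsQuasigroup m) : IsQuasigroup (opp m) :=
  ⟨fun a => h.2 a, fun b => h.1 b⟩

lemma nonAssoc_opp (m : Q → Q → Q) : nonAssocTriples (opp m) = nonAssocTriples m := by
  rw [nonAssoc_eq, nonAssoc_eq]
  calc ∑ x, ∑ y, ∑ z, (if opp m x (opp m y z) ≠ opp m (opp m x y) z then 1 else 0)
      = ∑ x, ∑ z, ∑ y, (if opp m x (opp m y z) ≠ opp m (opp m x y) z then 1 else 0) := by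
        refine Finset.sum_congr rfl fun x _ => Finset.sum_comm
    _ = ∑ z, ∑ x, ∑ y, (if opp m x (opp m y z) ≠ opp m (opp m x y) z then 1 else 0) :=
        Finset.sum_comm
    _ = ∑ z, ∑ y, ∑ x, (if opp m x (opp m y z) ≠ opp m (opp m x y) z then 1 else 0) := by
        refine Finset.sum_congr rfl fun x _ => Finset.sum_comm
    _ = _ := by
        refine Finset.sum_congr rfl fun x _ => Finset.sum_congr rfl fun y _ =>
          Finset.sum_congr rfl fun z _ => ?_
        simp only [opp]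
        congr 1
        simp only [ne_eq, eq_iff_iff]
        exact not_congr eq_comm

lemma two_le_diff {p q : Perm Q} (h : p ≠ q) :
    2 ≤ ∑ x, (if p x ≠ q x then 1 else 0) := by
  have h1 : q⁻¹ * p ≠ 1 := by
    intro h2; apply h; rw [inv_mul_eq_one] at h2; exact h2.symm
  have h2 := Equiv.Perm.one_lt_card_support_of_ne_one h1
  have h3 : (q⁻¹ * p).support = univ.filter (fun x => p x ≠ q x) := by
    ext x
    simp only [Perm.mem_support, Perm.coe_mul, Function.comp_apply, ne_eq, mem_filter, mem_univ,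
      true_and]
    rw [Perm.inv_eq_iff_eq]
  rw [h3, Finset.card_filter] at h2
  exact h2

lemma three_le_diff {p q : Perm Q} (h : p ≠ q) (hs : Perm.sign p = Perm.sign q) :
    3 ≤ ∑ x, (if p x ≠ q x then 1 else 0) := by
  have h1 : q⁻¹ * p ≠ 1 := by
    intro h2; apply h; rw [inv_mul_eq_one] at h2; exact h2.symm
  have h2 := Equiv.Perm.one_lt_card_support_of_ne_one h1
  have h3 : (q⁻¹ * p).support = univ.filter (fun x => p x ≠ q x) := by
    ext x
    simp only [Perm.mem_support, Perm.coe_mul, Function.comp_apply, ne_eq, mem_filter, mem_univ,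
      true_and]
    rw [Perm.inv_eq_iff_eq]
  have h4 : (q⁻¹ * p).support.card ≠ 2 := by
    intro h5
    have h6 := Perm.card_support_eq_two.1 h5
    have h7 := h6.sign_eq
    simp [hs] at h7
  rw [← Finset.card_filter, ← h3]
  omega

/-- The columns whose right translation commutes with `g`. -/
noncomputable def comm {m : Q → Q → Q} (h : IsQuasigroup m) (g : Perm Q) : Finset Q :=
  univ.filter fun z => g * Rp h z = Rp h z * g

/-- number of columns not commuting with `g` -/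
noncomputable def dd {m : Q → Q → Q} (h : IsQuasigroup m) (g : Perm Q) : ℕ := ((comm h g)ᶜ).card

/-- pairs where exactly one of x, y, xy is outside G -/
def exact1 (m : Q → Q → Q) (G : Finset Q) : Finset (Q × Q) :=
  univ.filter fun p => (p.1 ∉ G ∧ p.2 ∈ G ∧ m p.1 p.2 ∈ G) ∨ (p.1 ∈ G ∧ p.2 ∉ G ∧ m p.1 p.2 ∈ G) ∨
    (p.1 ∈ G ∧ p.2 ∈ G ∧ m p.1 p.2 ∉ G)

lemma inj_count {G : Finset Q} (f : Q → Q) (hf : Function.Injective f) :
    Fintype.card Q - 2 * Gᶜ.card ≤ ∑ x, (if x ∈ G ∧ f x ∈ G then 1 else 0) := by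
  rw [← Finset.card_filter]
  have h1 : (univ : Finset Q) ⊆ (univ.filter fun x => x ∈ G ∧ f x ∈ G) ∪ Gᶜ ∪
      (univ.filter fun x => f x ∈ Gᶜ) := by
    intro x _
    simp only [mem_union, mem_filter, mem_univ, true_and, mem_compl]
    tauto
  have h2 := Finset.card_le_card h1
  have h3 : (univ.filter fun x => f x ∈ Gᶜ).card ≤ Gᶜ.card := by
    apply Finset.card_le_card_of_injOn f
    · intro x hx
      simpa using hx
    · exact hf.injOn
  have h4 := Finset.card_union_le ((univ.filter fun x => x ∈ G ∧ f x ∈ G) ∪ Gᶜ)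
    (univ.filter fun x => f x ∈ Gᶜ)
  have h5 := Finset.card_union_le (univ.filter fun x => x ∈ G ∧ f x ∈ G) Gᶜ
  rw [Finset.card_univ] at h2
  omega

lemma fam1 {m : Q → Q → Q} (h : IsQuasigroup m) (G : Finset Q) :
    Gᶜ.card * (Fintype.card Q - 2 * Gᶜ.card) ≤
      ∑ x, ∑ y, (if x ∉ G ∧ y ∈ G ∧ m x y ∈ G then 1 else 0) := by
  calc Gᶜ.card * (Fintype.card Q - 2 * Gᶜ.card)
      = ∑ x ∈ Gᶜ, (Fintype.card Q - 2 * Gᶜ.card) := by rw [Finset.sum_const, smul_eq_mul]
    _ ≤ ∑ x ∈ Gᶜ, ∑ y, (if x ∉ G ∧ y ∈ G ∧ m x y ∈ G then 1 else 0) := by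
        apply Finset.sum_le_sum
        intro x hx
        rw [mem_compl] at hx
        simp only [hx, not_false_eq_true, true_and]
        exact inj_count (m x) (h.1 x).1
    _ ≤ _ := Finset.sum_le_sum_of_subset (subset_univ _)

lemma fam2 {m : Q → Q → Q} (h : IsQuasigroup m) (G : Finset Q) :
    Gᶜ.card * (Fintype.card Q - 2 * Gᶜ.card) ≤
      ∑ x, ∑ y, (if x ∈ G ∧ y ∉ G ∧ m x y ∈ G then 1 else 0) := by
  rw [Finset.sum_comm]
  calc Gᶜ.card * (Fintype.card Q - 2 * Gᶜ.card)
      = ∑ x ∈ Gᶜ, (Fintype.card Q - 2 * Gᶜ.card) := by rw [Finset.sum_const, smul_eq_mul]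
    _ ≤ ∑ y ∈ Gᶜ, ∑ x, (if x ∈ G ∧ y ∉ G ∧ m x y ∈ G then 1 else 0) := by
        apply Finset.sum_le_sum
        intro y hy
        rw [mem_compl] at hy
        simp only [hy, not_false_eq_true, true_and]
        exact inj_count (fun x => m x y) (h.2 y).1
    _ ≤ _ := Finset.sum_le_sum_of_subset (subset_univ _)

lemma fam3 {m : Q → Q → Q} (h : IsQuasigroup m) (G : Finset Q) :
    Gᶜ.card * (Fintype.card Q - 2 * Gᶜ.card) ≤
      ∑ x, ∑ y, (if x ∈ G ∧ y ∈ G ∧ m x y ∉ G then 1 else 0) := by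
  have key : ∑ x, ∑ y, (if x ∈ G ∧ y ∈ G ∧ m x y ∉ G then 1 else 0)
      = ∑ x, ∑ w, (if x ∈ G ∧ (Lp h x).symm w ∈ G ∧ w ∉ G then 1 else 0) := by
    refine Finset.sum_congr rfl fun x _ => ?_
    rw [← Equiv.sum_comp (Lp h x)
      (fun w => if x ∈ G ∧ (Lp h x).symm w ∈ G ∧ w ∉ G then 1 else 0)]
    refine Finset.sum_congr rfl fun y _ => ?_
    rw [Equiv.symm_apply_apply, Lp_apply]
  rw [key, Finset.sum_comm]
  calc Gᶜ.card * (Fintype.card Q - 2 * Gᶜ.card)
      = ∑ x ∈ Gᶜ, (Fintype.card Q - 2 * Gᶜ.card) := by rw [Finset.sum_const, smul_eq_mul]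
    _ ≤ ∑ w ∈ Gᶜ, ∑ x, (if x ∈ G ∧ (Lp h x).symm w ∈ G ∧ w ∉ G then 1 else 0) := by
        apply Finset.sum_le_sum
        intro w hw
        rw [mem_compl] at hw
        simp only [hw, not_false_eq_true, and_true]
        apply inj_count (fun x => (Lp h x).symm w)
        intro x x' hxx
        simp only at hxx
        have h1 : m x ((Lp h x).symm w) = w := (Lp h x).apply_symm_apply w
        have h2 : m x' ((Lp h x').symm w) = w := (Lp h x').apply_symm_apply w
        rw [← hxx] at h2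
        exact (h.2 _).1 (h1.trans h2.symm)
    _ ≤ _ := Finset.sum_le_sum_of_subset (subset_univ _)

end Pool.Agent.Helper60.Quas
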