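import Pool.Agent.Helper60.Quas.Core

namespace Pool.Agent.Helper60.Quas

open Finset Equiv

variable {Q : Type*} [Fintype Q] [DecidableEq Q]

lemma mem_comm {m : Q → Q → Q} (h : IsQuasigroup m) (g : Perm Q) (z : Q) :
    z ∈ comm h g ↔ Commute g (Rp h z) := by
  unfold comm
  rw [mem_filter]
  exact ⟨fun h1 => h1.2, fun h1 => ⟨mem_univ _, h1⟩⟩

lemma nonAssoc_eq_R {m : Q → Q → Q} (h : IsQuasigroup m) :
    nonAssocTriples m = ∑ y, ∑ z, ∑ x, if Rp h (m y z) x ≠ (Rp h z * Rp h y) x then 1 else 0 := by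
  rw [nonAssoc_eq, Finset.sum_comm]
  refine Finset.sum_congr rfl fun y _ => ?_
  rw [Finset.sum_comm]
  rfl

lemma nonAssoc_eq_L {m : Q → Q → Q} (h : IsQuasigroup m) :
    nonAssocTriples m = ∑ x, ∑ y, ∑ z, if (Lp h x * Lp h y) z ≠ Lp h (m x y) z then 1 else 0 := by
  rw [nonAssoc_eq]
  rfl

lemma nonAssoc_eq_M {m : Q → Q → Q} (h : IsQuasigroup m) :
    nonAssocTriples m = ∑ x, ∑ z, ∑ y, if (Lp h x * Rp h z) y ≠ (Rp h z * Lp h x) y then 1 else 0 := by
  rw [nonAssoc_eq]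
  refine Finset.sum_congr rfl fun y _ => ?_
  rw [Finset.sum_comm]
  rfl

/-- The gap inequality. -/
lemma gap {m : Q → Q → Q} (h : IsQuasigroup m) (g : Perm Q) :
    6 * (dd h g * (Fintype.card Q - 2 * dd h g)) ≤ nonAssocTriples m := by
  set C := comm h g with hC
  have e1 := fam1 h C
  have e2 := fam2 h C
  have e3 := fam3 h C
  have hd : dd h g = Cᶜ.card := rfl
  rw [hd]
  have key : 2 * (∑ y, ∑ z, (if y ∉ C ∧ z ∈ C ∧ m y z ∈ C then 1 else 0)
      + ∑ y, ∑ z, (if y ∈ C ∧ z ∉ C ∧ m y z ∈ C then 1 else 0)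
      + ∑ y, ∑ z, (if y ∈ C ∧ z ∈ C ∧ m y z ∉ C then 1 else 0)) ≤ nonAssocTriples m := by
    rw [nonAssoc_eq_R h, ← Finset.sum_add_distrib, ← Finset.sum_add_distrib, Finset.mul_sum]
    apply Finset.sum_le_sum
    intro y _
    rw [← Finset.sum_add_distrib, ← Finset.sum_add_distrib, Finset.mul_sum]
    apply Finset.sum_le_sum
    intro z _
    by_cases hne : Rp h (m y z) = Rp h z * Rp h y
    · have n1 : ¬ (y ∉ C ∧ z ∈ C ∧ m y z ∈ C) := by
        rintro ⟨h1, h2, h3⟩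
        rw [hC, mem_comm] at h1 h2 h3
        apply h1
        have : Rp h y = (Rp h z)⁻¹ * Rp h (m y z) := by rw [hne]; group
        rw [this]
        exact (Commute.inv_right h2).mul_right h3
      have n2 : ¬ (y ∈ C ∧ z ∉ C ∧ m y z ∈ C) := by
        rintro ⟨h1, h2, h3⟩
        rw [hC, mem_comm] at h1 h2 h3
        apply h2
        have : Rp h z = Rp h (m y z) * (Rp h y)⁻¹ := by rw [hne]; group
        rw [this]
        exact h3.mul_right (Commute.inv_right h1)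
      have n3 : ¬ (y ∈ C ∧ z ∈ C ∧ m y z ∉ C) := by
        rintro ⟨h1, h2, h3⟩
        rw [hC, mem_comm] at h1 h2 h3
        apply h3
        rw [hne]
        exact h2.mul_right h1
      simp [n1, n2, n3]
    · have := two_le_diff hne
      refine le_trans ?_ this
      by_cases a1 : y ∈ C <;> by_cases a2 : z ∈ C <;> by_cases a3 : m y z ∈ C <;>
        simp [a1, a2, a3]
  nlinarith

/-- exactly one of `x, y, xy` lies outside `G` -/
def Ex (m : Q → Q → Q) (G : Finset Q) (x y : Q) : Prop :=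
  (x ∉ G ∧ y ∈ G ∧ m x y ∈ G) ∨ (x ∈ G ∧ y ∉ G ∧ m x y ∈ G) ∨ (x ∈ G ∧ y ∈ G ∧ m x y ∉ G)

lemma rows_lower {m : Q → Q → Q} (h : IsQuasigroup m) (G : Finset Q)
    (hG : ∀ x y, Ex m G x y → Lp h x * Lp h y ≠ Lp h (m x y)) :
    6 * (Gᶜ.card * (Fintype.card Q - 2 * Gᶜ.card)) ≤ nonAssocTriples m := by
  have e1 := fam1 h G
  have e2 := fam2 h G
  have e3 := fam3 h G
  have key : 2 * (∑ y, ∑ z, (if y ∉ G ∧ z ∈ G ∧ m y z ∈ G then 1 else 0)
      + ∑ y, ∑ z, (if y ∈ G ∧ z ∉ G ∧ m y z ∈ G then 1 else 0)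
      + ∑ y, ∑ z, (if y ∈ G ∧ z ∈ G ∧ m y z ∉ G then 1 else 0)) ≤ nonAssocTriples m := by
    rw [nonAssoc_eq_L h, ← Finset.sum_add_distrib, ← Finset.sum_add_distrib, Finset.mul_sum]
    apply Finset.sum_le_sum
    intro y _
    rw [← Finset.sum_add_distrib, ← Finset.sum_add_distrib, Finset.mul_sum]
    apply Finset.sum_le_sum
    intro z _
    by_cases hne : Lp h y * Lp h z = Lp h (m y z)
    · have n0 : ¬ Ex m G y z := fun hh => hG y z hh hne
      unfold Ex at n0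
      push Not at n0
      have n1 : ¬ (y ∉ G ∧ z ∈ G ∧ m y z ∈ G) := by tauto
      have n2 : ¬ (y ∈ G ∧ z ∉ G ∧ m y z ∈ G) := by tauto
      have n3 : ¬ (y ∈ G ∧ z ∈ G ∧ m y z ∉ G) := by tauto
      simp [n1, n2, n3]
    · have := two_le_diff hne
      refine le_trans ?_ this
      by_cases a1 : y ∈ G <;> by_cases a2 : z ∈ G <;> by_cases a3 : m y z ∈ G <;>
        simp [a1, a2, a3]
  nlinarith

lemma middle_lower {m : Q → Q → Q} (h : IsQuasigroup m) (x : Q) :
    3 * dd h (Lp h x) ≤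
      ∑ y, ∑ z, if (Lp h x * Lp h y) z ≠ Lp h (m x y) z then 1 else 0 := by
  have e : (∑ y, ∑ z, if (Lp h x * Lp h y) z ≠ Lp h (m x y) z then 1 else 0)
      = ∑ z, ∑ y, if (Lp h x * Rp h z) y ≠ (Rp h z * Lp h x) y then 1 else 0 := by
    rw [Finset.sum_comm]; rfl
  rw [e]
  unfold dd
  calc 3 * ((comm h (Lp h x))ᶜ).card = ∑ z ∈ (comm h (Lp h x))ᶜ, 3 := by
        rw [Finset.sum_const, smul_eq_mul, mul_comm]
    _ ≤ ∑ z ∈ (comm h (Lp h x))ᶜ, ∑ y, if (Lp h x * Rp h z) y ≠ (Rp h z * Lp h x) y then 1 else 0 := by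
        apply Finset.sum_le_sum
        intro z hz
        rw [mem_compl, mem_comm] at hz
        apply three_le_diff hz
        rw [map_mul, map_mul, mul_comm]
    _ ≤ _ := Finset.sum_le_sum_of_subset (subset_univ _)

lemma mix_lower {m : Q → Q → Q} (h : IsQuasigroup m) (G : Finset Q) (K : ℕ)
    (hK : ∀ x, x ∉ G → K ≤ dd h (Lp h x))
    (hG : ∀ x y, Ex m G x y → Lp h x * Lp h y ≠ Lp h (m x y)) :
    3 * (K * Gᶜ.card) + 4 * (Gᶜ.card * (Fintype.card Q - 2 * Gᶜ.card)) ≤ nonAssocTriples m := by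
  have e2 := fam2 h G
  have e3 := fam3 h G
  have key : 3 * (K * Gᶜ.card) + 2 * (∑ y, ∑ z, (if y ∈ G ∧ z ∉ G ∧ m y z ∈ G then 1 else 0)
      + ∑ y, ∑ z, (if y ∈ G ∧ z ∈ G ∧ m y z ∉ G then 1 else 0)) ≤ nonAssocTriples m := by
    have hc : 3 * (K * Gᶜ.card) = ∑ y, (if y ∉ G then 3 * K else 0) := by
      rw [← Finset.sum_filter, Finset.sum_const, smul_eq_mul]
      have : (univ.filter fun y => y ∉ G) = Gᶜ := by ext; simp
      rw [this]; ring
    rw [hc, nonAssoc_eq_L h, ← Finset.sum_add_distrib, Finset.mul_sum, ← Finset.sum_add_distrib]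
    apply Finset.sum_le_sum
    intro y _
    by_cases hy : y ∈ G
    · simp only [hy, not_true_eq_false, ite_false, zero_add, true_and]
      rw [← Finset.sum_add_distrib, Finset.mul_sum]
      apply Finset.sum_le_sum
      intro z _
      by_cases hne : Lp h y * Lp h z = Lp h (m y z)
      · have n0 : ¬ Ex m G y z := fun hh => hG y z hh hne
        unfold Ex at n0
        push Not at n0
        have n2 : ¬ (z ∉ G ∧ m y z ∈ G) := by tauto
        have n3 : ¬ (z ∈ G ∧ m y z ∉ G) := by tauto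
        simp [n2, n3]
      · have := two_le_diff hne
        refine le_trans ?_ this
        by_cases a2 : z ∈ G <;> by_cases a3 : m y z ∈ G <;>
          simp [a2, a3]
    · have h1 := middle_lower h y
      have h2 := hK y hy
      simp only [hy, not_false_eq_true, ite_true, false_and, ite_false, Finset.sum_const_zero,
        add_zero, mul_zero]
      omega
  nlinarith

end Pool.Agent.Helper60.Quas
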