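import Mathlib

/-!
# Quasigroups and the number of non-associative triples (definitions)
-/

namespace Pool.Agent.Helper60.Quas

/-- `m` is a quasigroup operation: all left and all right translations are bijections
(the multiplication table is a latin square). -/
def IsQuasigroup {Q : Type*} (m : Q → Q → Q) : Prop :=
  (∀ a, Function.Bijective (m a)) ∧ (∀ b, Function.Bijective (fun x => m x b))

/-- The number of ordered triples `(x, y, z)` with `x (y z) ≠ (x y) z`. -/
def nonAssocTriples {Q : Type*} [Fintype Q] [DecidableEq Q] (m : Q → Q → Q) : ℕ :=
  (Finset.univ.filter fun t : Q × Q × Q =>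
    m t.1 (m t.2.1 t.2.2) ≠ m (m t.1 t.2.1) t.2.2).card

/-- The set of all positive values of the number of non-associative triples, over all
quasigroups of order `n`.  Its least element is `σ(n)`. -/
def positiveCounts (n : ℕ) : Set ℕ :=
  {s | 0 < s ∧ ∃ m : Fin n → Fin n → Fin n, IsQuasigroup m ∧ nonAssocTriples m = s}

end Pool.Agent.Helper60.Quas
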