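import Pool.Agent.Helper60.Quas.InterCount

namespace Pool.Agent.Helper60.Quas

open Finset Equiv

/-- the cells where `m` differs from the group multiplication -/
def T {Q : Type*} [Group Q] (m : Q → Q → Q) (x y : Q) : Prop := m x y ≠ x * y

section
variable {Q : Type*} [Group Q] {m : Q → Q → Q} {x y z : Q}

lemma sA (hA : T m x y) (nB : ¬ T m y z) (nC : ¬ T m (m x y) z) (nD : ¬ T m x (m y z)) :
    m x (m y z) ≠ m (m x y) z := by
  unfold T at *
  push Not at nB nC nD
  intro hh
  rw [nC, nD, nB, ← mul_assoc] at hh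
  exact hA (mul_right_cancel hh).symm

lemma sB (nA : ¬ T m x y) (hB : T m y z) (nC : ¬ T m (m x y) z) (nD : ¬ T m x (m y z)) :
    m x (m y z) ≠ m (m x y) z := by
  unfold T at *
  push Not at nA nC nD
  intro hh
  rw [nC, nD, nA, mul_assoc] at hh
  exact hB (mul_left_cancel hh)

lemma sC (nA : ¬ T m x y) (nB : ¬ T m y z) (hC : T m (m x y) z) (nD : ¬ T m x (m y z)) :
    m x (m y z) ≠ m (m x y) z := by
  unfold T at *
  push Not at nA nB nD
  intro hh
  rw [nD, nB, ← mul_assoc, ← nA] at hh
  exact hC hh.symm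

lemma sD (nA : ¬ T m x y) (nB : ¬ T m y z) (nC : ¬ T m (m x y) z) (hD : T m x (m y z)) :
    m x (m y z) ≠ m (m x y) z := by
  unfold T at *
  push Not at nA nB nC
  intro hh
  rw [nC, nA, mul_assoc, ← nB] at hh
  exact hD hh

end

section
variable {Q : Type*} [Fintype Q] [DecidableEq Q]

instance instDecT [Group Q] (m : Q → Q → Q) (x y : Q) : Decidable (T m x y) := by
  unfold T; infer_instance

/-- number of changed cells -/
def tt [Group Q] (m : Q → Q → Q) : ℕ := ∑ x, ∑ y, (if T m x y then 1 else 0)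

lemma sum_A [Group Q] (m : Q → Q → Q) :
    ∑ x : Q, ∑ y : Q, ∑ _z : Q, (if T m x y then 1 else 0) = tt m * Fintype.card Q := by
  unfold tt
  simp only [Finset.sum_const, Finset.card_univ, smul_eq_mul]
  simp only [← Finset.mul_sum]
  ring

lemma sum_B [Group Q] (m : Q → Q → Q) :
    ∑ _x : Q, ∑ y : Q, ∑ z : Q, (if T m y z then 1 else 0) = tt m * Fintype.card Q := by
  unfold tt
  rw [Finset.sum_const, Finset.card_univ, smul_eq_mul, mul_comm]

lemma sum_C [Group Q] {m : Q → Q → Q} (h : IsQuasigroup m) :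
    ∑ x : Q, ∑ y : Q, ∑ z : Q, (if T m (m x y) z then 1 else 0) = tt m * Fintype.card Q := by
  have : ∀ x : Q, ∑ y : Q, ∑ z : Q, (if T m (m x y) z then 1 else 0) = tt m := by
    intro x
    exact Equiv.sum_comp (Lp h x) (fun u => ∑ z : Q, (if T m u z then 1 else 0))
  simp only [this]
  rw [Finset.sum_const, Finset.card_univ, smul_eq_mul, mul_comm]

lemma sum_D [Group Q] {m : Q → Q → Q} (h : IsQuasigroup m) :
    ∑ x : Q, ∑ y : Q, ∑ z : Q, (if T m x (m y z) then 1 else 0) = tt m * Fintype.card Q := by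
  rw [Finset.sum_comm]
  have : ∀ y : Q, ∑ x : Q, ∑ z : Q, (if T m x (m y z) then 1 else 0) = tt m := by
    intro y
    refine Finset.sum_congr rfl fun x _ => ?_
    exact Equiv.sum_comp (Lp h y) (fun u => (if T m x u then 1 else 0))
  simp only [this]
  rw [Finset.sum_const, Finset.card_univ, smul_eq_mul, mul_comm]

/-- Master inequality: a pointwise weight bound gives a lower bound for the number of
non-associative triples. -/
lemma master [Group Q] {m : Q → Q → Q} (h : IsQuasigroup m) (w : Q → Q → Q → ℕ)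
    (hw : ∀ x y z : Q, (if T m x y then 1 else 0) + (if T m y z then 1 else 0) +
      (if T m (m x y) z then 1 else 0) + (if T m x (m y z) then 1 else 0) ≤
      (if m x (m y z) ≠ m (m x y) z then 1 else 0) + w x y z) :
    4 * (tt m * Fintype.card Q) ≤ nonAssocTriples m + ∑ x, ∑ y, ∑ z, w x y z := by
  have hsum := Finset.sum_le_sum (fun x (_ : x ∈ (univ : Finset Q)) =>
    Finset.sum_le_sum (fun y (_ : y ∈ (univ : Finset Q)) =>
      Finset.sum_le_sum (fun z (_ : z ∈ (univ : Finset Q)) => hw x y z)))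
  simp only [Finset.sum_add_distrib] at hsum
  rw [sum_A, sum_B, sum_C h, sum_D h, ← nonAssoc_eq] at hsum
  linarith

/-- row size -/
def rho [Group Q] (m : Q → Q → Q) (x : Q) : ℕ := ∑ y, (if T m x y then 1 else 0)
/-- column size -/
def gam [Group Q] (m : Q → Q → Q) (y : Q) : ℕ := ∑ x, (if T m x y then 1 else 0)

lemma ptG (A B C D N : Prop) [Decidable A] [Decidable B] [Decidable C] [Decidable D]
    [Decidable N] (hA : A → ¬ B → ¬ C → ¬ D → N) (hB : ¬ A → B → ¬ C → ¬ D → N)
    (hC : ¬ A → ¬ B → C → ¬ D → N) (hD : ¬ A → ¬ B → ¬ C → D → N) :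
    (if A then 1 else 0) + (if B then 1 else 0) + (if C then 1 else 0) + (if D then 1 else 0) ≤
      (if N then 1 else 0) + 2 * ((if A ∧ B then 1 else 0) + (if A ∧ C then 1 else 0) +
        (if A ∧ D then 1 else 0) + (if B ∧ C then 1 else 0) + (if B ∧ D then 1 else 0) +
        (if C ∧ D then 1 else 0)) := by
  by_cases h1 : A <;> by_cases h2 : B <;> by_cases h3 : C <;> by_cases h4 : D <;>
    by_cases h5 : N <;>
    simp only [h1, h2, h3, h4, h5, true_and, false_and, and_true, and_false, if_true,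
      if_false, true_implies, false_implies, not_true_eq_false, not_false_eq_true, imp_false,
      and_self] at * <;> norm_num

lemma sum_AB [Group Q] (m : Q → Q → Q) {M : ℕ} (hM : ∀ x, rho m x ≤ M) :
    ∑ x : Q, ∑ y : Q, ∑ z : Q, (if T m x y ∧ T m y z then 1 else 0) ≤ tt m * M := by
  unfold tt
  rw [Finset.sum_mul]
  apply Finset.sum_le_sum
  intro x _
  rw [Finset.sum_mul]
  apply Finset.sum_le_sum
  intro y _
  by_cases hxy : T m x y
  · simp only [hxy, true_and, if_true, one_mul]
    exact hM y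
  · simp [hxy]

lemma sum_AC [Group Q] (m : Q → Q → Q) {M : ℕ} (hM : ∀ x, rho m x ≤ M) :
    ∑ x : Q, ∑ y : Q, ∑ z : Q, (if T m x y ∧ T m (m x y) z then 1 else 0) ≤ tt m * M := by
  unfold tt
  rw [Finset.sum_mul]
  apply Finset.sum_le_sum
  intro x _
  rw [Finset.sum_mul]
  apply Finset.sum_le_sum
  intro y _
  by_cases hxy : T m x y
  · simp only [hxy, true_and, if_true, one_mul]
    exact hM (m x y)
  · simp [hxy]

lemma sum_AD [Group Q] {m : Q → Q → Q} (h : IsQuasigroup m) :
    ∑ x : Q, ∑ y : Q, ∑ z : Q, (if T m x y ∧ T m x (m y z) then 1 else 0)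
      = ∑ x, rho m x * rho m x := by
  refine Finset.sum_congr rfl fun x _ => ?_
  have : ∀ y : Q, ∑ z : Q, (if T m x y ∧ T m x (m y z) then 1 else 0)
      = (if T m x y then 1 else 0) * rho m x := by
    intro y
    by_cases hxy : T m x y
    · simp only [hxy, true_and, if_true, one_mul]
      exact Equiv.sum_comp (Lp h y) (fun u => (if T m x u then 1 else 0))
    · simp [hxy]
  simp only [this]
  rw [← Finset.sum_mul]
  rfl

lemma sum_BC [Group Q] {m : Q → Q → Q} (h : IsQuasigroup m) :
    ∑ x : Q, ∑ y : Q, ∑ z : Q, (if T m y z ∧ T m (m x y) z then 1 else 0)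
      = ∑ z, gam m z * gam m z := by
  calc ∑ x : Q, ∑ y : Q, ∑ z : Q, (if T m y z ∧ T m (m x y) z then 1 else 0)
      = ∑ x : Q, ∑ z : Q, ∑ y : Q, (if T m y z ∧ T m (m x y) z then 1 else 0) := by
        refine Finset.sum_congr rfl fun x _ => Finset.sum_comm
    _ = ∑ z : Q, ∑ x : Q, ∑ y : Q, (if T m y z ∧ T m (m x y) z then 1 else 0) :=
        Finset.sum_comm
    _ = ∑ z : Q, ∑ y : Q, ∑ x : Q, (if T m y z ∧ T m (m x y) z then 1 else 0) := by
        refine Finset.sum_congr rfl fun x _ => Finset.sum_comm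
    _ = _ := by
        refine Finset.sum_congr rfl fun z _ => ?_
        have : ∀ y : Q, ∑ x : Q, (if T m y z ∧ T m (m x y) z then 1 else 0)
            = (if T m y z then 1 else 0) * gam m z := by
          intro y
          by_cases hxy : T m y z
          · simp only [hxy, true_and, if_true, one_mul]
            exact Equiv.sum_comp (Rp h y) (fun u => (if T m u z then 1 else 0))
          · simp [hxy]
        simp only [this]
        rw [← Finset.sum_mul]
        rfl

lemma sum_BD [Group Q] {m : Q → Q → Q} {M : ℕ} (hM : ∀ x, gam m x ≤ M) :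
    ∑ x : Q, ∑ y : Q, ∑ z : Q, (if T m y z ∧ T m x (m y z) then 1 else 0) ≤ tt m * M := by
  calc ∑ x : Q, ∑ y : Q, ∑ z : Q, (if T m y z ∧ T m x (m y z) then 1 else 0)
      = ∑ y : Q, ∑ x : Q, ∑ z : Q, (if T m y z ∧ T m x (m y z) then 1 else 0) :=
        Finset.sum_comm
    _ = ∑ y : Q, ∑ z : Q, ∑ x : Q, (if T m y z ∧ T m x (m y z) then 1 else 0) := by
        refine Finset.sum_congr rfl fun x _ => Finset.sum_comm
    _ ≤ _ := by
        unfold tt
        rw [Finset.sum_mul]
        apply Finset.sum_le_sum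
        intro y _
        rw [Finset.sum_mul]
        apply Finset.sum_le_sum
        intro z _
        by_cases hxy : T m y z
        · simp only [hxy, true_and, if_true, one_mul]
          exact hM (m y z)
        · simp [hxy]

lemma sum_CD [Group Q] {m : Q → Q → Q} (h : IsQuasigroup m) {B : Finset Q}
    (hB : ∀ x y, T m x y → x ∈ B) :
    ∑ x : Q, ∑ y : Q, ∑ z : Q, (if T m (m x y) z ∧ T m x (m y z) then 1 else 0)
      ≤ tt m * B.card := by
  calc ∑ x : Q, ∑ y : Q, ∑ z : Q, (if T m (m x y) z ∧ T m x (m y z) then 1 else 0)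
      ≤ ∑ x : Q, ∑ y : Q, ∑ z : Q, (if x ∈ B then 1 else 0) * (if T m (m x y) z then 1 else 0) := by
        refine Finset.sum_le_sum fun x _ => Finset.sum_le_sum fun y _ =>
          Finset.sum_le_sum fun z _ => ?_
        by_cases h1 : T m (m x y) z ∧ T m x (m y z)
        · have := hB _ _ h1.2
          simp [h1, this]
        · simp [h1]
    _ = ∑ x : Q, (if x ∈ B then 1 else 0) * tt m := by
        refine Finset.sum_congr rfl fun x _ => ?_
        simp only [← Finset.mul_sum]
        congr 1
        exact Equiv.sum_comp (Lp h x) (fun u => ∑ z : Q, (if T m u z then 1 else 0))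
    _ = tt m * B.card := by
        rw [← Finset.sum_mul, Finset.sum_boole, mul_comm]
        simp

/-- General lower bound. -/
theorem general_lower [Group Q] {m : Q → Q → Q} (h : IsQuasigroup m) {M : ℕ}
    (hM : ∀ x, rho m x ≤ M) (hM' : ∀ x, gam m x ≤ M) {B : Finset Q} (hBc : B.card ≤ M)
    (hB : ∀ x y, T m x y → x ∈ B) :
    4 * (tt m * Fintype.card Q) ≤ nonAssocTriples m + 2 * (4 * (tt m * M) +
      (∑ x, rho m x * rho m x + ∑ x, gam m x * gam m x)) := by
  have h0 := master h (fun x y z => 2 * ((if T m x y ∧ T m y z then 1 else 0) +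
      (if T m x y ∧ T m (m x y) z then 1 else 0) +
        (if T m x y ∧ T m x (m y z) then 1 else 0) +
        (if T m y z ∧ T m (m x y) z then 1 else 0) +
        (if T m y z ∧ T m x (m y z) then 1 else 0) +
        (if T m (m x y) z ∧ T m x (m y z) then 1 else 0))) (by
    intro x y z
    apply ptG
    · exact sA
    · exact sB
    · exact sC
    · exact sD)
  have h1 := sum_AB m hM
  have h2 := sum_AC m hM
  have h3 := sum_AD h
  have h4 := sum_BC h
  have h5 := sum_BD (m := m) hM'
  have h6 := sum_CD h hB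
  simp only [← Finset.mul_sum, Finset.sum_add_distrib] at h0
  rw [h3, h4] at h0
  have h7 : tt m * B.card ≤ tt m * M := Nat.mul_le_mul_left _ hBc
  linarith

end

end Pool.Agent.Helper60.Quas
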