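import Pool.Agent.Helper60.Quas.Struct

namespace Pool.Agent.Helper60.Quas

open Finset Equiv

variable {Q : Type*} [Fintype Q] [DecidableEq Q]

omit [Fintype Q] in
lemma mem_pair_of_card {B : Finset Q} (hB : B.card ≤ 2) {a b x : Q} (ha : a ∈ B) (hb : b ∈ B)
    (hab : a ≠ b) (hx : x ∈ B) : x = a ∨ x = b := by
  by_contra hc
  push Not at hc
  have h3 : ({a, b, x} : Finset Q) ⊆ B := by
    intro y hy
    simp only [mem_insert, mem_singleton] at hy
    rcases hy with rfl | rfl | rfl <;> assumption
  have h4 : ({a, b, x} : Finset Q).card = 3 := by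
    rw [Finset.card_eq_three]
    exact ⟨a, b, x, hab, hc.1.symm, hc.2.symm, rfl⟩
  have := Finset.card_le_card h3
  omega

omit [Fintype Q] in
lemma row_swap [Group Q] {m : Q → Q → Q} (h : IsQuasigroup m) {B B' : Finset Q}
    (hB' : B'.card ≤ 2)
    (hm : ∀ x y, (x ∉ B ∨ y ∉ B') → m x y = x * y) {a c : Q} (hac : m a c ≠ a * c) :
    ∃ d, d ≠ c ∧ d ∈ B' ∧ m a d = a * c ∧ m a c = a * d := by
  have haB : a ∈ B := by
    by_contra hh; exact hac (hm a c (Or.inl hh))
  have hcB : c ∈ B' := by
    by_contra hh; exact hac (hm a c (Or.inr hh))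
  obtain ⟨d, hd⟩ := (h.1 a).2 (a * c)
  have hdc : d ≠ c := by
    rintro rfl; exact hac hd
  have hdB : d ∈ B' := by
    by_contra hh
    rw [hm a d (Or.inr hh)] at hd
    exact hdc (mul_left_cancel hd)
  refine ⟨d, hdc, hdB, hd, ?_⟩
  obtain ⟨y, hy⟩ := (h.1 a).2 (a * d)
  have hyB : y ∈ B' := by
    by_contra hh
    rw [hm a y (Or.inr hh)] at hy
    have := mul_left_cancel hy
    rw [this] at hh
    exact hh hdB
  rcases (show y = c ∨ y = d by
    by_contra hc2
    push Not at hc2
    have h3 : ({c, d, y} : Finset Q) ⊆ B' := by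
      intro w hw
      simp only [mem_insert, mem_singleton] at hw
      rcases hw with rfl | rfl | rfl <;> assumption
    have h4 : ({c, d, y} : Finset Q).card = 3 := by
      rw [Finset.card_eq_three]
      exact ⟨c, d, y, hdc.symm, hc2.1.symm, hc2.2.symm, rfl⟩
    have := Finset.card_le_card h3
    omega) with rfl | rfl
  · exact hy
  · rw [hd] at hy
    exact absurd (mul_left_cancel hy).symm hdc

omit [Fintype Q] in
lemma col_swap [Group Q] {m : Q → Q → Q} (h : IsQuasigroup m) {B B' : Finset Q}
    (hB : B.card ≤ 2)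
    (hm : ∀ x y, (x ∉ B ∨ y ∉ B') → m x y = x * y) {a c : Q} (hac : m a c ≠ a * c) :
    ∃ b, b ≠ a ∧ b ∈ B ∧ m b c = a * c ∧ m a c = b * c := by
  have haB : a ∈ B := by
    by_contra hh; exact hac (hm a c (Or.inl hh))
  have hcB : c ∈ B' := by
    by_contra hh; exact hac (hm a c (Or.inr hh))
  obtain ⟨b, hb⟩ := (h.2 c).2 (a * c)
  simp only at hb
  have hba : b ≠ a := by
    rintro rfl; exact hac hb
  have hbB : b ∈ B := by
    by_contra hh
    rw [hm b c (Or.inl hh)] at hb
    exact hba (mul_right_cancel hb)
  refine ⟨b, hba, hbB, hb, ?_⟩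
  obtain ⟨x, hx⟩ := (h.2 c).2 (b * c)
  simp only at hx
  have hxB : x ∈ B := by
    by_contra hh
    rw [hm x c (Or.inl hh)] at hx
    have := mul_right_cancel hx
    rw [this] at hh
    exact hh hbB
  rcases (show x = a ∨ x = b by
    by_contra hc2
    push Not at hc2
    have h3 : ({a, b, x} : Finset Q) ⊆ B := by
      intro w hw
      simp only [mem_insert, mem_singleton] at hw
      rcases hw with rfl | rfl | rfl <;> assumption
    have h4 : ({a, b, x} : Finset Q).card = 3 := by
      rw [Finset.card_eq_three]
      exact ⟨a, b, x, hba.symm, hc2.1.symm, hc2.2.symm, rfl⟩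
    have := Finset.card_le_card h3
    omega) with rfl | rfl
  · exact hx
  · rw [hb] at hx
    exact absurd (mul_right_cancel hx).symm hba

omit [Fintype Q] [DecidableEq Q] in
lemma AC_D [Group Q] {m : Q → Q → Q} {a b c d : Q}
    (hm : ∀ x y, ¬ ((x = a ∨ x = b) ∧ (y = c ∨ y = d)) → m x y = x * y)
    (e1 : a * d = b * c) (e2 : a * c = b * d)
    (hac : m a c = a * d) (had : m a d = a * c) (hbc : m b c = b * d) (hbd : m b d = b * c)
    {x y z : Q} (hx : x = a ∨ x = b) (hy : y = c ∨ y = d) (hxy : m x y = a ∨ m x y = b)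
    (hz : z = c ∨ z = d) : m y z = c ∨ m y z = d := by
  have h1 : c = 1 ∨ d = 1 := by
    rcases hx with rfl | rfl <;> rcases hy with rfl | rfl <;> rcases hxy with hxy | hxy
    · right; rw [hac] at hxy; simpa using hxy
    · left; rw [hac, e1] at hxy; simpa using hxy
    · left; rw [had] at hxy; simpa using hxy
    · right; rw [had, e2] at hxy; simpa using hxy
    · left; rw [hbc, ← e2] at hxy; simpa using hxy
    · right; rw [hbc] at hxy; simpa using hxy
    · right; rw [hbd, ← e1] at hxy; simpa using hxy
    · left; rw [hbd] at hxy; simpa using hxy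
  have h2 : m y z = y * c ∨ m y z = y * d := by
    by_cases hya : y = a
    · subst hya
      rcases hz with rfl | rfl
      · right; exact hac
      · left; exact had
    · by_cases hyb : y = b
      · subst hyb
        rcases hz with rfl | rfl
        · right; exact hbc
        · left; exact hbd
      · have := hm y z (by tauto)
        rcases hz with rfl | rfl
        · left; exact this
        · right; exact this
  rcases h1 with h1 | h1
  · subst h1
    have h3 : d * d = 1 := by
      simp only [mul_one] at e1 e2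
      rw [← e1, mul_assoc] at e2
      simpa using e2.symm
    rcases hy with rfl | rfl <;> rcases h2 with h2 | h2 <;> rw [h2] <;> simp [h3]
  · subst h1
    have h3 : c * c = 1 := by
      simp only [mul_one] at e1 e2
      rw [← e2, mul_assoc] at e1
      simpa using e1.symm
    rcases hy with rfl | rfl <;> rcases h2 with h2 | h2 <;> rw [h2] <;> simp [h3]

omit [Fintype Q] [DecidableEq Q] in
lemma BD_C [Group Q] {m : Q → Q → Q} {a b c d : Q}
    (hm : ∀ x y, ¬ ((x = a ∨ x = b) ∧ (y = c ∨ y = d)) → m x y = x * y)
    (e1 : a * d = b * c) (e2 : a * c = b * d)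
    (hac : m a c = a * d) (had : m a d = a * c) (hbc : m b c = b * d) (hbd : m b d = b * c)
    {x y z : Q} (hy : y = a ∨ y = b) (hz : z = c ∨ z = d) (hyz : m y z = c ∨ m y z = d)
    (hx : x = a ∨ x = b) : m x y = a ∨ m x y = b := by
  have h1 : a = 1 ∨ b = 1 := by
    rcases hy with rfl | rfl <;> rcases hz with rfl | rfl <;> rcases hyz with hyz | hyz
    · right; rw [hac, e1] at hyz; simpa using hyz
    · left; rw [hac] at hyz; simpa using hyz
    · left; rw [had] at hyz; simpa using hyz
    · right; rw [had, e2] at hyz; simpa using hyz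
    · left; rw [hbc, ← e2] at hyz; simpa using hyz
    · right; rw [hbc] at hyz; simpa using hyz
    · right; rw [hbd] at hyz; simpa using hyz
    · left; rw [hbd, ← e1] at hyz; simpa using hyz
  have h2 : m x y = a * y ∨ m x y = b * y := by
    by_cases hya : y = c
    · subst hya
      rcases hx with rfl | rfl
      · right; rw [hac, e1]
      · left; rw [hbc, e2]
    · by_cases hyb : y = d
      · subst hyb
        rcases hx with rfl | rfl
        · right; rw [had, e2]
        · left; rw [hbd, e1]
      · have := hm x y (by tauto)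
        rcases hx with rfl | rfl
        · left; exact this
        · right; exact this
  rcases h1 with h1 | h1
  · subst h1
    have h3 : b * b = 1 := by
      simp only [one_mul] at e1 e2
      rw [e1, ← mul_assoc] at e2
      simpa using e2.symm
    rcases hy with rfl | rfl <;> rcases h2 with h2 | h2 <;> rw [h2] <;> simp [h3]
  · subst h1
    have h3 : a * a = 1 := by
      simp only [one_mul] at e1 e2
      rw [← e2, ← mul_assoc] at e1
      simpa using e1
    rcases hy with rfl | rfl <;> rcases h2 with h2 | h2 <;> rw [h2] <;> simp [h3]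

end Pool.Agent.Helper60.Quas
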