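import Pool.Agent.Helper60.Quas.Inter

namespace Pool.Agent.Helper60.Quas

open Finset Equiv

variable {Q : Type*} [Fintype Q] [DecidableEq Q]

lemma pointwise (px py ry rz pu rw N : Prop) [Decidable px] [Decidable py] [Decidable ry]
    [Decidable rz] [Decidable pu] [Decidable rw] [Decidable N]
    (hAC : px → ry → pu → rz → rw) (hBD : py → rz → rw → px → pu)
    (hA : px → ry → ¬ (py ∧ rz) → ¬ (pu ∧ rz) → ¬ (px ∧ rw) → N)
    (hB : py → rz → ¬ (px ∧ ry) → ¬ (pu ∧ rz) → ¬ (px ∧ rw) → N)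
    (hC : pu → rz → ¬ (px ∧ ry) → ¬ (py ∧ rz) → ¬ (px ∧ rw) → N)
    (hD : px → rw → ¬ (px ∧ ry) → ¬ (py ∧ rz) → ¬ (pu ∧ rz) → N) :
    (if px ∧ ry then 1 else 0) + (if py ∧ rz then 1 else 0) + (if pu ∧ rz then 1 else 0) +
      (if px ∧ rw then 1 else 0) ≤ (if N then 1 else 0) +
      2 * ((if px ∧ ry ∧ rz then 1 else 0) + (if px ∧ ry ∧ rw then 1 else 0) +
        (if pu ∧ py ∧ rz then 1 else 0) + (if px ∧ pu ∧ rz then 1 else 0)) := by
  by_cases h1 : px <;> by_cases h2 : py <;> by_cases h3 : ry <;> by_cases h4 : rz <;>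
    by_cases h5 : pu <;> by_cases h6 : rw <;> by_cases h7 : N <;>
    simp only [h1, h2, h3, h4, h5, h6, h7, true_and, false_and, and_true, and_false, if_true,
      if_false, true_implies, false_implies, not_true_eq_false, not_false_eq_true, imp_false,
      and_self] at * <;> norm_num

lemma sum_two {a b : Q} (hab : a ≠ b) : ∑ x : Q, (if x = a ∨ x = b then 1 else 0) = 2 := by
  rw [← Finset.card_filter]
  have : (univ.filter fun x => x = a ∨ x = b) = {a, b} := by ext; simp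
  rw [this, Finset.card_pair hab]

lemma sum_four {a b c d : Q} (hab : a ≠ b) (hcd : c ≠ d) :
    ∑ x : Q, ∑ y : Q, (if (x = a ∨ x = b) ∧ (y = c ∨ y = d) then 1 else 0) = 4 := by
  have : ∀ x : Q, ∑ y : Q, (if (x = a ∨ x = b) ∧ (y = c ∨ y = d) then 1 else 0)
      = (if x = a ∨ x = b then 1 else 0) * 2 := by
    intro x
    by_cases hx : x = a ∨ x = b
    · simp only [hx, true_and, if_true]
      rw [sum_two hcd]
    · simp only [hx, false_and, if_false]; simp
  simp only [this]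
  rw [← Finset.sum_mul, sum_two hab]
  norm_num

lemma sum_eight {a b c d e f : Q} (hab : a ≠ b) (hcd : c ≠ d) (hef : e ≠ f) :
    ∑ x : Q, ∑ y : Q, ∑ z : Q,
      (if (x = a ∨ x = b) ∧ (y = c ∨ y = d) ∧ (z = e ∨ z = f) then 1 else 0) = 8 := by
  have : ∀ x : Q, ∑ y : Q, ∑ z : Q,
      (if (x = a ∨ x = b) ∧ (y = c ∨ y = d) ∧ (z = e ∨ z = f) then 1 else 0)
      = (if x = a ∨ x = b then 1 else 0) * 4 := by
    intro x
    by_cases hx : x = a ∨ x = b
    · simp only [hx, true_and, if_true]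
      rw [sum_four hcd hef]
    · simp only [hx, false_and, if_false]; simp
  simp only [this]
  rw [← Finset.sum_mul, sum_two hab]
  norm_num

theorem inter_count [Group Q] {m : Q → Q → Q} (h : IsQuasigroup m) {a b c d : Q}
    (hab : a ≠ b) (hcd : c ≠ d)
    (hm : ∀ x y, ¬ ((x = a ∨ x = b) ∧ (y = c ∨ y = d)) → m x y = x * y)
    (e1 : a * d = b * c) (e2 : a * c = b * d)
    (hac : m a c = a * d) (had : m a d = a * c) (hbc : m b c = b * d) (hbd : m b d = b * c) :
    16 * Fintype.card Q ≤ nonAssocTriples m + 64 := by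
  have hT : ∀ x y, (x = a ∨ x = b) → (y = c ∨ y = d) → m x y ≠ x * y := by
    intro x y hx hy
    rcases hx with rfl | rfl <;> rcases hy with rfl | rfl
    · rw [hac]; intro hh; exact hcd (mul_left_cancel hh).symm
    · rw [had]; intro hh; exact hcd (mul_left_cancel hh)
    · rw [hbc]; intro hh; exact hcd (mul_left_cancel hh).symm
    · rw [hbd]; intro hh; exact hcd (mul_left_cancel hh)
  have hpt : ∀ x y z : Q,
      (if (x = a ∨ x = b) ∧ (y = c ∨ y = d) then 1 else 0) +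
      (if (y = a ∨ y = b) ∧ (z = c ∨ z = d) then 1 else 0) +
      (if (m x y = a ∨ m x y = b) ∧ (z = c ∨ z = d) then 1 else 0) +
      (if (x = a ∨ x = b) ∧ (m y z = c ∨ m y z = d) then 1 else 0) ≤
      (if m x (m y z) ≠ m (m x y) z then 1 else 0) +
      2 * ((if (x = a ∨ x = b) ∧ (y = c ∨ y = d) ∧ (z = c ∨ z = d) then 1 else 0) +
        (if (x = a ∨ x = b) ∧ (y = c ∨ y = d) ∧ (m y z = c ∨ m y z = d) then 1 else 0) +
        (if (m x y = a ∨ m x y = b) ∧ (y = a ∨ y = b) ∧ (z = c ∨ z = d) then 1 else 0) +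
        (if (x = a ∨ x = b) ∧ (m x y = a ∨ m x y = b) ∧ (z = c ∨ z = d) then 1 else 0)) := by
    intro x y z
    apply pointwise
    · intro p1 p2 p3 p4
      exact AC_D hm e1 e2 hac had hbc hbd p1 p2 p3 p4
    · intro p1 p2 p3 p4
      exact BD_C hm e1 e2 hac had hbc hbd p1 p2 p3 p4
    · intro p1 p2 nB nC nD hh
      rw [hm y z nB, hm (m x y) z nC] at hh
      rw [hm y z nB] at nD
      rw [hm x (y * z) nD, ← mul_assoc] at hh
      exact hT x y p1 p2 (mul_right_cancel hh).symm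
    · intro p1 p2 nA nC nD hh
      rw [hm x (m y z) nD, hm (m x y) z nC, hm x y nA, mul_assoc] at hh
      exact hT y z p1 p2 (mul_left_cancel hh)
    · intro p1 p2 nA nB nD hh
      rw [hm x (m y z) nD, hm y z nB, ← mul_assoc, ← hm x y nA] at hh
      exact hT (m x y) z p1 p2 hh.symm
    · intro p1 p2 nA nB nC hh
      rw [hm (m x y) z nC, hm x y nA, mul_assoc, ← hm y z nB] at hh
      exact hT x (m y z) p1 p2 hh
  have hsum := Finset.sum_le_sum (fun x (_ : x ∈ (univ : Finset Q)) =>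
    Finset.sum_le_sum (fun y (_ : y ∈ (univ : Finset Q)) =>
      Finset.sum_le_sum (fun z (_ : z ∈ (univ : Finset Q)) => hpt x y z)))
  simp only [Finset.sum_add_distrib, ← Finset.mul_sum] at hsum
  rw [← nonAssoc_eq] at hsum
  have sA : ∑ x : Q, ∑ y : Q, ∑ z : Q, (if (x = a ∨ x = b) ∧ (y = c ∨ y = d) then 1 else 0)
      = 4 * Fintype.card Q := by
    simp only [Finset.sum_const, Finset.card_univ, smul_eq_mul]
    simp only [← Finset.mul_sum]
    rw [sum_four hab hcd, mul_comm]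
  have sB : ∑ x : Q, ∑ y : Q, ∑ z : Q, (if (y = a ∨ y = b) ∧ (z = c ∨ z = d) then 1 else 0)
      = 4 * Fintype.card Q := by
    rw [Finset.sum_const, sum_four hab hcd, Finset.card_univ, smul_eq_mul, mul_comm]
  have sC : ∑ x : Q, ∑ y : Q, ∑ z : Q,
      (if (m x y = a ∨ m x y = b) ∧ (z = c ∨ z = d) then 1 else 0) = 4 * Fintype.card Q := by
    have : ∀ x : Q, ∑ y : Q, ∑ z : Q,
        (if (m x y = a ∨ m x y = b) ∧ (z = c ∨ z = d) then 1 else 0) = 4 := by
      intro x
      rw [← sum_four hab hcd]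
      exact Equiv.sum_comp (Lp h x)
        (fun u => ∑ z : Q, (if (u = a ∨ u = b) ∧ (z = c ∨ z = d) then 1 else 0))
    simp only [this]
    rw [Finset.sum_const, Finset.card_univ, smul_eq_mul, mul_comm]
  have sD : ∑ x : Q, ∑ y : Q, ∑ z : Q,
      (if (x = a ∨ x = b) ∧ (m y z = c ∨ m y z = d) then 1 else 0) = 4 * Fintype.card Q := by
    rw [Finset.sum_comm]
    have : ∀ y : Q, ∑ x : Q, ∑ z : Q,
        (if (x = a ∨ x = b) ∧ (m y z = c ∨ m y z = d) then 1 else 0) = 4 := by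
      intro y
      rw [← sum_four hab hcd]
      refine Finset.sum_congr rfl fun x _ => ?_
      exact Equiv.sum_comp (Lp h y)
        (fun u => (if (x = a ∨ x = b) ∧ (u = c ∨ u = d) then 1 else 0))
    simp only [this]
    rw [Finset.sum_const, Finset.card_univ, smul_eq_mul, mul_comm]
  have s1 := sum_eight hab hcd hcd
  have s2 : ∑ x : Q, ∑ y : Q, ∑ z : Q,
      (if (x = a ∨ x = b) ∧ (y = c ∨ y = d) ∧ (m y z = c ∨ m y z = d) then 1 else 0) = 8 := by
    rw [← sum_eight hab hcd hcd]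
    refine Finset.sum_congr rfl fun x _ => Finset.sum_congr rfl fun y _ => ?_
    exact Equiv.sum_comp (Lp h y)
      (fun u => (if (x = a ∨ x = b) ∧ (y = c ∨ y = d) ∧ (u = c ∨ u = d) then 1 else 0))
  have s3 : ∑ x : Q, ∑ y : Q, ∑ z : Q,
      (if (m x y = a ∨ m x y = b) ∧ (y = a ∨ y = b) ∧ (z = c ∨ z = d) then 1 else 0) = 8 := by
    rw [← sum_eight hab hab hcd, Finset.sum_comm]
    conv_rhs => rw [Finset.sum_comm]
    refine Finset.sum_congr rfl fun y _ => ?_
    exact Equiv.sum_comp (Rp h y)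
      (fun u => ∑ z : Q, (if (u = a ∨ u = b) ∧ (y = a ∨ y = b) ∧ (z = c ∨ z = d) then 1 else 0))
  have s4 : ∑ x : Q, ∑ y : Q, ∑ z : Q,
      (if (x = a ∨ x = b) ∧ (m x y = a ∨ m x y = b) ∧ (z = c ∨ z = d) then 1 else 0) = 8 := by
    rw [← sum_eight hab hab hcd]
    refine Finset.sum_congr rfl fun x _ => ?_
    exact Equiv.sum_comp (Lp h x)
      (fun u => ∑ z : Q, (if (x = a ∨ x = b) ∧ (u = a ∨ u = b) ∧ (z = c ∨ z = d) then 1 else 0))
  rw [sA, sB, sC, sD, s1, s2, s3, s4] at hsum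
  omega

end Pool.Agent.Helper60.Quas
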