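import Pool.Agent.Helper60.Quas.InterCount

namespace Pool.Agent.Helper60.Quas

open Finset Equiv

variable {Q : Type*} [Fintype Q] [DecidableEq Q]

lemma arith_gap {k d s : ℕ} (hk : 11 ≤ k) (hs : s + 65 ≤ 32 * k)
    (h : 6 * (d * (2 * k - 2 * d)) ≤ s) : d ≤ 2 ∨ k - 2 ≤ d := by
  by_contra hc
  push Not at hc
  obtain ⟨e, he⟩ : ∃ e, k = d + e := ⟨k - d, by omega⟩
  have he3 : 3 ≤ e := by omega
  have hd3 : 3 ≤ d := by omega
  have h1 : 2 * k - 2 * d = 2 * e := by omega
  rw [h1] at h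
  obtain ⟨d', rfl⟩ : ∃ d', d = d' + 3 := ⟨d - 3, by omega⟩
  obtain ⟨e', rfl⟩ : ∃ e', e = e' + 3 := ⟨e - 3, by omega⟩
  nlinarith [Nat.zero_le (d' * e')]

lemma arith_mix {k r s : ℕ} (hk : 11 ≤ k) (hs : s + 65 ≤ 32 * k) (hr : k - 2 ≤ r)
    (h : 3 * ((k - 2) * r) + 4 * (r * (2 * k - 2 * r)) ≤ s) : False := by
  obtain ⟨j, rfl⟩ : ∃ j, k = j + 11 := ⟨k - 11, by omega⟩
  have h0 : j + 11 - 2 = j + 9 := by omega
  rw [h0] at h hr
  rcases Nat.lt_or_ge r (j + 11) with h1 | h1
  · rcases (show r = j + 9 ∨ r = j + 10 by omega) with rfl | rfl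
    · have h2 : 2 * (j + 11) - 2 * (j + 9) = 4 := by omega
      rw [h2] at h
      nlinarith
    · have h2 : 2 * (j + 11) - 2 * (j + 10) = 2 := by omega
      rw [h2] at h
      nlinarith
  · have h2 : (j + 9) * (j + 11) ≤ (j + 9) * r := Nat.mul_le_mul_left _ h1
    nlinarith [Nat.zero_le (r * (2 * (j + 11) - 2 * r))]

lemma rows_bad_even {m : Q → Q → Q} (h : IsQuasigroup m) {k : ℕ} (hk : 11 ≤ k)
    (hcard : Fintype.card Q = 2 * k) (hs : nonAssocTriples m + 65 ≤ 32 * k)
    (hgap : ∀ g : Perm Q, dd h g ≤ 2 ∨ k - 2 ≤ dd h g) : ((good h 2)ᶜ).card ≤ 2 := by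
  have hgap' : ∀ g : Perm Q, dd h g ≤ 2 ∨ 2 * 2 < dd h g := by
    intro g
    rcases hgap g with h1 | h1
    · exact Or.inl h1
    · right; omega
  have h1 := rows_lower h (good h 2) (good_ex h 2 hgap')
  have h2 := mix_lower h (good h 2) (k - 2) (by
    intro x hx
    rw [mem_good] at hx
    rcases hgap (Lp h x) with h1 | h1
    · exact absurd h1 hx
    · exact h1) (good_ex h 2 hgap')
  rw [hcard] at h1 h2
  rcases arith_gap hk hs h1 with h3 | h3
  · exact h3
  · exact (arith_mix hk hs h3 h2).elim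

theorem lower_even {m : Q → Q → Q} (h : IsQuasigroup m) {k : ℕ} (hk : 11 ≤ k)
    (hcard : Fintype.card Q = 2 * k) (hpos : 0 < nonAssocTriples m) :
    32 * k ≤ nonAssocTriples m + 64 := by
  by_contra hcon
  have hs : nonAssocTriples m + 65 ≤ 32 * k := by omega
  have hgap : ∀ g : Perm Q, dd h g ≤ 2 ∨ k - 2 ≤ dd h g := by
    intro g
    have := gap h g
    rw [hcard] at this
    exact arith_gap hk hs this
  have hso : nonAssocTriples (opp m) + 65 ≤ 32 * k := by rw [nonAssoc_opp]; exact hs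
  have hgapo : ∀ g : Perm Q, dd h.opp g ≤ 2 ∨ k - 2 ≤ dd h.opp g := by
    intro g
    have := gap h.opp g
    rw [hcard] at this
    exact arith_gap hk hso this
  have hr := rows_bad_even h hk hcard hs hgap
  have hr' := rows_bad_even h.opp hk hcard hso hgapo
  obtain ⟨_, B, B', hB, hB', hm⟩ := structure_thm h 2 (by omega) (by
    intro g
    rcases hgap g with h1 | h1
    · exact Or.inl h1
    · right; omega) hr hr'
  have hne : ∃ a c, m a c ≠ a * c := by
    by_contra hall
    push Not at hall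
    have : nonAssocTriples m = 0 := by
      unfold nonAssocTriples
      rw [Finset.card_eq_zero, Finset.filter_eq_empty_iff]
      intro t _
      rw [hall, hall, hall, hall, mul_assoc, not_not]
    omega
  obtain ⟨a, c, hac⟩ := hne
  obtain ⟨d, hdc, hdB, h1, h2⟩ := row_swap h hB' hm hac
  obtain ⟨b, hba, hbB, h3, h4⟩ := col_swap h hB hm hac
  have haB : a ∈ B := by
    by_contra hh; exact hac (hm a c (Or.inl hh))
  have hcB : c ∈ B' := by
    by_contra hh; exact hac (hm a c (Or.inr hh))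
  have hbc : m b c ≠ b * c := by
    rw [h3]; intro hh; exact hba (mul_right_cancel hh).symm
  obtain ⟨d', hdc', hdB', h5, h6⟩ := row_swap h hB' hm hbc
  have hdd : d' = d := by
    rcases mem_pair_of_card hB' hcB hdB hdc.symm hdB' with hh | hh
    · exact absurd hh hdc'
    · exact hh
  subst hdd
  have hfin := inter_count h (a := a) (b := b) (c := c) (d := d') hba.symm hdc.symm (by
    intro x y hxy
    apply hm
    by_contra hcc
    push Not at hcc
    exact hxy ⟨mem_pair_of_card hB haB hbB hba.symm hcc.1,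
      mem_pair_of_card hB' hcB hdB hdc.symm hcc.2⟩)
    (by rw [← h2, h4]) (by rw [← h3, h6]) h2 h1 h6 h5
  rw [hcard] at hfin
  omega

end Pool.Agent.Helper60.Quas
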