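import Pool.Agent.Helper60.Quas.Core

namespace Pool.Agent.Helper60.Quas

open Finset Equiv

/-- transport of an operation along an equivalence -/
def transport {Q Q' : Type*} (e : Q ≃ Q') (m : Q → Q → Q) : Q' → Q' → Q' :=
  fun x y => e (m (e.symm x) (e.symm y))

lemma transport_isQuasigroup {Q Q' : Type*} (e : Q ≃ Q') {m : Q → Q → Q} (h : IsQuasigroup m) :
    IsQuasigroup (transport e m) :=
  ⟨fun _ => e.bijective.comp ((h.1 _).comp e.symm.bijective),
   fun _ => e.bijective.comp ((h.2 _).comp e.symm.bijective)⟩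

lemma transport_nonAssoc {Q Q' : Type*} [Fintype Q] [DecidableEq Q] [Fintype Q'] [DecidableEq Q']
    (e : Q ≃ Q') (m : Q → Q → Q) :
    nonAssocTriples (transport e m) = nonAssocTriples m := by
  rw [nonAssoc_eq, nonAssoc_eq, ← Equiv.sum_comp e]
  refine Finset.sum_congr rfl fun x _ => ?_
  rw [← Equiv.sum_comp e]
  refine Finset.sum_congr rfl fun y _ => ?_
  rw [← Equiv.sum_comp e]
  refine Finset.sum_congr rfl fun z _ => ?_
  simp [transport]

/-- The operation `(x₁, x₂) · (y₁, y₂) = (x₁ + y₁ + [x₂ = y₂ = 1], x₂ + y₂)`. -/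
def opE (m : ℕ) : ZMod 2 × ZMod m → ZMod 2 × ZMod m → ZMod 2 × ZMod m :=
  fun x y => (x.1 + y.1 + (if x.2 = 1 ∧ y.2 = 1 then 1 else 0), x.2 + y.2)

lemma opE_isQuasigroup (m : ℕ) : IsQuasigroup (opE m) := by
  constructor
  · intro a
    constructor
    · intro x y hxy
      simp only [opE, Prod.mk.injEq, add_right_inj] at hxy
      obtain ⟨h1, h2⟩ := hxy
      rw [h2] at h1
      exact Prod.ext (add_left_cancel (add_right_cancel h1)) h2
    · intro b
      refine ⟨(b.1 - a.1 - (if a.2 = 1 ∧ b.2 - a.2 = 1 then 1 else 0), b.2 - a.2), ?_⟩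
      simp only [opE]
      ext <;> ring
  · intro a
    constructor
    · intro x y hxy
      simp only [opE, Prod.mk.injEq, add_left_inj] at hxy
      obtain ⟨h1, h2⟩ := hxy
      rw [h2] at h1
      exact Prod.ext (add_right_cancel (add_right_cancel h1)) h2
    · intro b
      refine ⟨(b.1 - a.1 - (if b.2 - a.2 = 1 ∧ a.2 = 1 then 1 else 0), b.2 - a.2), ?_⟩
      simp only [opE]
      ext <;> ring

/-- the obstruction on the quotient -/
def obsE (m : ℕ) (x y z : ZMod m) : Prop :=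
  ((if x = 1 ∧ y = 1 then 1 else 0) + (if x + y = 1 ∧ z = 1 then 1 else 0) : ZMod 2) ≠
    (if y = 1 ∧ z = 1 then 1 else 0) + (if x = 1 ∧ y + z = 1 then 1 else 0)

instance (m : ℕ) (x y z : ZMod m) : Decidable (obsE m x y z) := by unfold obsE; infer_instance

lemma opE_assoc_iff (m : ℕ) (x y z : ZMod 2 × ZMod m) :
    opE m x (opE m y z) ≠ opE m (opE m x y) z ↔ obsE m x.2 y.2 z.2 := by
  unfold obsE opE
  rw [ne_eq, ne_eq, not_iff_not, Prod.mk.injEq]
  constructor
  · rintro ⟨h1, -⟩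
    linear_combination -h1
  · intro h1
    refine ⟨?_, by ring⟩
    linear_combination -h1

/-- indicator of the obstruction -/
def obsEi (m : ℕ) (x y z : ZMod m) : ℕ := if obsE m x y z then 1 else 0

lemma opE_count (m : ℕ) [NeZero m] :
    nonAssocTriples (opE m) = 8 * ∑ x, ∑ y, ∑ z, obsEi m x y z := by
  rw [nonAssoc_eq]
  have hF : ∀ x y z : ZMod 2 × ZMod m,
      (if opE m x (opE m y z) ≠ opE m (opE m x y) z then 1 else 0) = obsEi m x.2 y.2 z.2 := by
    intro x y z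
    unfold obsEi
    exact if_congr (opE_assoc_iff m x y z) rfl rfl
  simp only [hF]
  simp only [Fintype.sum_prod_type]
  simp only [Finset.sum_const, Finset.card_univ, ZMod.card, smul_eq_mul]
  simp only [← Finset.mul_sum]
  ring

lemma ptE (P1 P2 P3 P4 : Prop) [Decidable P1] [Decidable P2] [Decidable P3] [Decidable P4] :
    (if ((if P1 then 1 else 0) + (if P2 then 1 else 0) : ZMod 2) ≠
      (if P3 then 1 else 0) + (if P4 then 1 else 0) then 1 else 0) ≤
    (if P1 then 1 else 0) + (if P2 then 1 else 0) +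
      (if P3 then 1 else 0) + (if P4 then 1 else 0) := by
  by_cases h1 : P1 <;> by_cases h2 : P2 <;> by_cases h3 : P3 <;> by_cases h4 : P4 <;>
    simp only [h1, h2, h3, h4, if_true, if_false] <;> decide

lemma obsE_sum (m : ℕ) [NeZero m] (hm : (1 : ZMod m) ≠ 0) :
    (∑ x, ∑ y, ∑ z, obsEi m x y z) + 8 ≤ 4 * m := by
  have h2 : (1 : ZMod m) + 1 ≠ 1 := by
    intro h; exact hm (by simpa using h)
  have hpt : ∀ x y z : ZMod m, obsEi m x y z +
      2 * ((if x = 1 ∧ y = 1 ∧ z = 1 then 1 else 0) + (if x = 1 ∧ y = 1 ∧ z = 0 then 1 else 0) +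
        (if x = 0 ∧ y = 1 ∧ z = 1 then 1 else 0) + (if x = 1 ∧ y = 0 ∧ z = 1 then 1 else 0)) ≤
      (if x = 1 ∧ y = 1 then 1 else 0) + (if x + y = 1 ∧ z = 1 then 1 else 0) +
      (if y = 1 ∧ z = 1 then 1 else 0) + (if x = 1 ∧ y + z = 1 then 1 else 0) := by
    intro x y z
    unfold obsEi obsE
    by_cases c1 : x = 1 ∧ y = 1 ∧ z = 1
    · obtain ⟨rfl, rfl, rfl⟩ := c1
      simp [hm, h2]
    by_cases c2 : x = 1 ∧ y = 1 ∧ z = 0
    · obtain ⟨rfl, rfl, rfl⟩ := c2
      simp [hm, hm.symm, h2]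
    by_cases c3 : x = 0 ∧ y = 1 ∧ z = 1
    · obtain ⟨rfl, rfl, rfl⟩ := c3
      simp [hm, hm.symm, h2]
    by_cases c4 : x = 1 ∧ y = 0 ∧ z = 1
    · obtain ⟨rfl, rfl, rfl⟩ := c4
      simp [hm, hm.symm, h2]
    simp only [c1, c2, c3, c4, if_false, add_zero, mul_zero]
    exact ptE _ _ _ _
  have hsum := Finset.sum_le_sum (fun x (_ : x ∈ (univ : Finset (ZMod m))) =>
    Finset.sum_le_sum (fun y (_ : y ∈ (univ : Finset (ZMod m))) =>
      Finset.sum_le_sum (fun z (_ : z ∈ (univ : Finset (ZMod m))) => hpt x y z)))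
  simp only [Finset.sum_add_distrib, ← Finset.mul_sum] at hsum
  have t1 : ∀ a b c : ZMod m, ∑ x : ZMod m, ∑ y : ZMod m, ∑ z : ZMod m,
      (if x = a ∧ y = b ∧ z = c then 1 else 0) = 1 := by
    intro a b c
    simp [ite_and]
  have s1 : ∑ x : ZMod m, ∑ y : ZMod m, ∑ z : ZMod m, (if x = 1 ∧ y = 1 then 1 else 0) = m := by
    simp [ite_and]
  have s2 : ∑ x : ZMod m, ∑ y : ZMod m, ∑ z : ZMod m, (if x + y = 1 ∧ z = 1 then 1 else 0) = m := by
    have : ∀ x y : ZMod m, x + y = 1 ↔ y = 1 - x := by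
      intro x y; constructor
      · intro h; rw [← h]; ring
      · intro h; rw [h]; ring
    simp [ite_and, this]
  have s3 : ∑ x : ZMod m, ∑ y : ZMod m, ∑ z : ZMod m, (if y = 1 ∧ z = 1 then 1 else 0) = m := by
    simp [ite_and]
  have s4 : ∑ x : ZMod m, ∑ y : ZMod m, ∑ z : ZMod m, (if x = 1 ∧ y + z = 1 then 1 else 0) = m := by
    have : ∀ x y : ZMod m, x + y = 1 ↔ y = 1 - x := by
      intro x y; constructor
      · intro h; rw [← h]; ring
      · intro h; rw [h]; ring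
    simp [ite_and, this]
  rw [t1, t1, t1, t1, s1, s2, s3, s4] at hsum
  omega

lemma opE_pos (m : ℕ) [NeZero m] (hm : (1 : ZMod m) ≠ 0) (hm2 : (1 : ZMod m) + 1 ≠ 0) :
    0 < nonAssocTriples (opE m) := by
  unfold nonAssocTriples
  apply Finset.card_pos.2
  refine ⟨((0, 1), (0, 1), (0, -1)), ?_⟩
  rw [mem_filter]
  refine ⟨mem_univ _, ?_⟩
  rw [opE_assoc_iff]
  unfold obsE
  have h2 : (1 : ZMod m) + 1 ≠ 1 := by
    intro h; exact hm (by simpa using h)
  have h3 : (-1 : ZMod m) ≠ 1 := by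
    intro h; apply hm2
    calc (1 : ZMod m) + 1 = 1 + -1 := by rw [h]
      _ = 0 := by ring
  simp [h2, h3, hm.symm]

end Pool.Agent.Helper60.Quas
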