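import Pool.Agent.Helper60.Quas.Classify3
import Pool.Agent.Helper60.Quas.Upper

namespace Pool.Agent.Helper60.Quas

open Finset Equiv

section group
variable {Q : Type*} [Fintype Q] [DecidableEq Q] [Group Q] {m : Q → Q → Q}

local instance mopFintype : Fintype Qᵐᵒᵖ := Fintype.ofEquiv Q MulOpposite.opEquiv

/-- the opposite operation on the opposite group -/
def mop (m : Q → Q → Q) : Qᵐᵒᵖ → Qᵐᵒᵖ → Qᵐᵒᵖ :=
  transport MulOpposite.opEquiv (opp m)

omit [Fintype Q] [DecidableEq Q] [Group Q] in
lemma mop_isQuasigroup (h : IsQuasigroup m) : IsQuasigroup (mop m) :=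
  transport_isQuasigroup _ h.opp

omit [Group Q] in
lemma mop_nonAssoc : nonAssocTriples (mop m) = nonAssocTriples m := by
  unfold mop
  rw [transport_nonAssoc, nonAssoc_opp]

omit [Fintype Q] [DecidableEq Q] in
lemma T_mop (x y : Qᵐᵒᵖ) : T (mop m) x y ↔ T m y.unop x.unop := by
  unfold T mop transport opp
  simp only [MulOpposite.opEquiv_apply, MulOpposite.opEquiv_symm_apply, ne_eq]
  rw [not_iff_not]
  constructor
  · intro hh
    have := congrArg MulOpposite.unop hh
    simpa using this
  · intro hh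
    apply MulOpposite.unop_injective
    simpa using hh

lemma card_B0_mop : (B0 (mop m)).card = (C0 m).card := by
  apply Finset.card_bij (fun x _ => MulOpposite.unop x)
  · intro x hx
    rw [mem_B0] at hx
    obtain ⟨y, hy⟩ := hx
    rw [T_mop] at hy
    exact mem_C0.2 ⟨_, hy⟩
  · intro x _ y _ hxy
    exact MulOpposite.unop_injective hxy
  · intro y hy
    rw [mem_C0] at hy
    obtain ⟨x, hx⟩ := hy
    exact ⟨MulOpposite.op y, mem_B0.2 ⟨MulOpposite.op x, (T_mop _ _).2 hx⟩, rfl⟩

lemma card_C0_mop : (C0 (mop m)).card = (B0 m).card := by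
  apply Finset.card_bij (fun x _ => MulOpposite.unop x)
  · intro x hx
    rw [mem_C0] at hx
    obtain ⟨y, hy⟩ := hx
    rw [T_mop] at hy
    exact mem_B0.2 ⟨_, hy⟩
  · intro x _ y _ hxy
    exact MulOpposite.unop_injective hxy
  · intro y hy
    rw [mem_B0] at hy
    obtain ⟨x, hx⟩ := hy
    exact ⟨MulOpposite.op y, mem_C0.2 ⟨MulOpposite.op x, (T_mop _ _).2 hx⟩, rfl⟩

/-- two changed rows and at most three changed columns -/
lemma bound_two_rows (h : IsQuasigroup m) (hodd : Odd (Fintype.card Q))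
    (hB : (B0 m).card = 2) (hC : (C0 m).card ≤ 3) :
    24 * Fintype.card Q ≤ nonAssocTriples m + 90 := by
  obtain ⟨a, b, hab, hBe⟩ := Finset.card_eq_two.1 hB
  obtain ⟨c, v, cf⟩ := two_rows_conf h hodd hab hBe hC
  exact type1 h hodd cf

lemma bound_two_cols (h : IsQuasigroup m) (hodd : Odd (Fintype.card Q))
    (hC : (C0 m).card = 2) (hB : (B0 m).card ≤ 3) :
    24 * Fintype.card Q ≤ nonAssocTriples m + 90 := by
  have hcard : Fintype.card Qᵐᵒᵖ = Fintype.card Q :=
    Fintype.card_congr MulOpposite.opEquiv.symm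
  have := bound_two_rows (mop_isQuasigroup h) (by rw [hcard]; exact hodd)
    (by rw [card_B0_mop]; exact hC) (by rw [card_C0_mop]; exact hB)
  rw [mop_nonAssoc, hcard] at this
  exact this

lemma sumsq_le (f : Q → ℕ) (M : ℕ) (hf : ∀ x, f x ≤ M) : ∑ x, f x * f x ≤ M * ∑ x, f x := by
  rw [Finset.mul_sum]
  exact Finset.sum_le_sum fun x _ => Nat.mul_le_mul_right _ (hf x)

lemma tt_eq_rho : ∑ x, rho m x = tt m := rfl

lemma tt_eq_gam : ∑ x, gam m x = tt m := by
  unfold tt gam
  rw [Finset.sum_comm]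

/-- the bound for any quasigroup which differs from a group of odd order `≥ 37` inside a
`4 × 4` subgrid -/
theorem near_group_odd (h : IsQuasigroup m) (hodd : Odd (Fintype.card Q))
    (hn : 37 ≤ Fintype.card Q) (hB4 : (B0 m).card ≤ 4) (hC4 : (C0 m).card ≤ 4)
    (hpos : 0 < nonAssocTriples m) : 24 * Fintype.card Q ≤ nonAssocTriples m + 90 := by
  have hne : ∃ x y, T m x y := by
    by_contra hall
    push Not at hall
    have : nonAssocTriples m = 0 := by
      unfold nonAssocTriples
      rw [Finset.card_eq_zero, Finset.filter_eq_empty_iff]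
      intro t _
      rw [not_T (hall _ _), not_T (hall _ _), not_T (hall _ _), not_T (hall _ _), mul_assoc,
        not_not]
    omega
  obtain ⟨x, y, hT⟩ := hne
  have b2 := B0_ge_two h hT
  have c2 := C0_ge_two h hT
  have tb := two_B0 (m := m) h
  have tc := two_C0 (m := m) h
  have hBmem : ∀ x y, T m x y → x ∈ B0 m := fun x y hh => mem_B0.2 ⟨y, hh⟩
  rcases Nat.lt_or_ge (tt m) 8 with h8 | h8
  · -- t ≤ 7
    have b3 : (B0 m).card ≤ 3 := by omega
    have c3 : (C0 m).card ≤ 3 := by omega
    by_cases hb : (B0 m).card = 2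
    · exact bound_two_rows h hodd hb c3
    by_cases hc : (C0 m).card = 2
    · exact bound_two_cols h hodd hc b3
    have hb3 : (B0 m).card = 3 := by omega
    have hc3 : (C0 m).card = 3 := by omega
    rcases Nat.lt_or_ge (tt m) 7 with h7 | h7
    · have h6 : tt m = 6 := by omega
      obtain ⟨a, p, v, cf⟩ := three_three h hb3 hc3 h6
      exact type3 h cf
    · -- t = 7
      have h7' : tt m = 7 := by omega
      have hr : ∑ x, rho m x * rho m x ≤ 17 := by
        have e1 : ∑ x, rho m x * rho m x = ∑ x ∈ B0 m, rho m x * rho m x := by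
          symm
          apply Finset.sum_subset (subset_univ _)
          intro x _ hx
          rw [rho_zero hx, mul_zero]
        rw [e1]
        have e2 : ∑ x ∈ B0 m, (rho m x * rho m x + 6) ≤ ∑ x ∈ B0 m, 5 * rho m x := by
          apply Finset.sum_le_sum
          intro x hx
          have h1 := two_le_rho h hx
          have h2 := rho_le (m := m) x
          rw [hc3] at h2
          interval_cases (rho m x) <;> norm_num
        rw [Finset.sum_add_distrib, Finset.sum_const, hb3, ← Finset.mul_sum, ← tt_rho, h7'] at e2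
        simp only [smul_eq_mul] at e2
        omega
      have hg : ∑ x, gam m x * gam m x ≤ 17 := by
        have e1 : ∑ x, gam m x * gam m x = ∑ x ∈ C0 m, gam m x * gam m x := by
          symm
          apply Finset.sum_subset (subset_univ _)
          intro x _ hx
          rw [gam_zero hx, mul_zero]
        rw [e1]
        have e2 : ∑ x ∈ C0 m, (gam m x * gam m x + 6) ≤ ∑ x ∈ C0 m, 5 * gam m x := by
          apply Finset.sum_le_sum
          intro x hx
          have h1 := two_le_gam h hx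
          have h2 := gam_le (m := m) x
          rw [hb3] at h2
          interval_cases (gam m x) <;> norm_num
        rw [Finset.sum_add_distrib, Finset.sum_const, hc3, ← Finset.mul_sum, ← tt_gam, h7'] at e2
        simp only [smul_eq_mul] at e2
        omega
      have hgen := general_lower h (M := 3) (fun x => (rho_le x).trans c3)
        (fun x => (gam_le x).trans b3) b3 hBmem
      rw [h7'] at hgen
      omega
  · -- t ≥ 8
    have hgen := general_lower h (M := 4) (fun x => (rho_le x).trans hC4)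
      (fun x => (gam_le x).trans hB4) hB4 hBmem
    have hr := sumsq_le (rho m) 4 (fun x => (rho_le x).trans hC4)
    have hg := sumsq_le (gam m) 4 (fun x => (gam_le x).trans hB4)
    rw [tt_eq_rho] at hr
    rw [tt_eq_gam] at hg
    obtain ⟨j, hj⟩ : ∃ j, Fintype.card Q = j + 37 := ⟨Fintype.card Q - 37, by omega⟩
    obtain ⟨i, hi⟩ : ∃ i, tt m = i + 8 := ⟨tt m - 8, by omega⟩
    rw [hj, hi] at hgen
    rw [hi] at hr hg
    rw [hj]
    nlinarith [Nat.zero_le (i * j)]

end group

section final
variable {Q : Type*} [Fintype Q] [DecidableEq Q]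

lemma arith_gap_odd {k d s : ℕ} (hk : 18 ≤ k) (hs : s + 67 ≤ 48 * k)
    (h : 6 * (d * (2 * k + 1 - 2 * d)) ≤ s) : d ≤ 4 ∨ k - 4 ≤ d := by
  by_contra hc
  push Not at hc
  obtain ⟨e, he⟩ : ∃ e, k = d + e := ⟨k - d, by omega⟩
  have h1 : 2 * k + 1 - 2 * d = 2 * e + 1 := by omega
  rw [h1] at h
  obtain ⟨d', rfl⟩ : ∃ d', d = d' + 5 := ⟨d - 5, by omega⟩
  obtain ⟨e', rfl⟩ : ∃ e', e = e' + 5 := ⟨e - 5, by omega⟩
  nlinarith [Nat.zero_le (d' * e')]

lemma arith_mix_odd {k r s : ℕ} (hk : 18 ≤ k) (hs : s + 67 ≤ 48 * k) (hr : k - 4 ≤ r)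
    (h : 3 * ((k - 4) * r) + 4 * (r * (2 * k + 1 - 2 * r)) ≤ s) : False := by
  obtain ⟨j, rfl⟩ : ∃ j, k = j + 18 := ⟨k - 18, by omega⟩
  have h0 : j + 18 - 4 = j + 14 := by omega
  rw [h0] at h hr
  rcases Nat.lt_or_ge r (j + 19) with h1 | h1
  · rcases (show r = j + 14 ∨ r = j + 15 ∨ r = j + 16 ∨ r = j + 17 ∨ r = j + 18 by omega) with
      rfl | rfl | rfl | rfl | rfl
    · have h2 : 2 * (j + 18) + 1 - 2 * (j + 14) = 9 := by omega
      rw [h2] at h
      nlinarith
    · have h2 : 2 * (j + 18) + 1 - 2 * (j + 15) = 7 := by omega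
      rw [h2] at h
      nlinarith
    · have h2 : 2 * (j + 18) + 1 - 2 * (j + 16) = 5 := by omega
      rw [h2] at h
      nlinarith
    · have h2 : 2 * (j + 18) + 1 - 2 * (j + 17) = 3 := by omega
      rw [h2] at h
      nlinarith
    · have h2 : 2 * (j + 18) + 1 - 2 * (j + 18) = 1 := by omega
      rw [h2] at h
      nlinarith
  · have h2 : (j + 14) * (j + 19) ≤ (j + 14) * r := Nat.mul_le_mul_left _ h1
    nlinarith [Nat.zero_le (r * (2 * (j + 18) + 1 - 2 * r))]

lemma rows_bad_odd {m : Q → Q → Q} (h : IsQuasigroup m) {k : ℕ} (hk : 18 ≤ k)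
    (hcard : Fintype.card Q = 2 * k + 1) (hs : nonAssocTriples m + 67 ≤ 48 * k)
    (hgap : ∀ g : Perm Q, dd h g ≤ 4 ∨ k - 4 ≤ dd h g) : ((good h 4)ᶜ).card ≤ 4 := by
  have hgap' : ∀ g : Perm Q, dd h g ≤ 4 ∨ 2 * 4 < dd h g := by
    intro g
    rcases hgap g with h1 | h1
    · exact Or.inl h1
    · right; omega
  have h1 := rows_lower h (good h 4) (good_ex h 4 hgap')
  have h2 := mix_lower h (good h 4) (k - 4) (by
    intro x hx
    rw [mem_good] at hx
    rcases hgap (Lp h x) with h1 | h1
    · exact absurd h1 hx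
    · exact h1) (good_ex h 4 hgap')
  rw [hcard] at h1 h2
  rcases arith_gap_odd hk hs h1 with h3 | h3
  · exact h3
  · exact (arith_mix_odd hk hs h3 h2).elim

theorem lower_odd {m : Q → Q → Q} (h : IsQuasigroup m) {k : ℕ} (hk : 18 ≤ k)
    (hcard : Fintype.card Q = 2 * k + 1) (hpos : 0 < nonAssocTriples m) :
    24 * (2 * k + 1) ≤ nonAssocTriples m + 90 := by
  by_contra hcon
  have hs : nonAssocTriples m + 67 ≤ 48 * k := by omega
  have hgap : ∀ g : Perm Q, dd h g ≤ 4 ∨ k - 4 ≤ dd h g := by
    intro g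
    have := gap h g
    rw [hcard] at this
    exact arith_gap_odd hk hs this
  have hso : nonAssocTriples (opp m) + 67 ≤ 48 * k := by rw [nonAssoc_opp]; exact hs
  have hgapo : ∀ g : Perm Q, dd h.opp g ≤ 4 ∨ k - 4 ≤ dd h.opp g := by
    intro g
    have := gap h.opp g
    rw [hcard] at this
    exact arith_gap_odd hk hso this
  have hr := rows_bad_odd h hk hcard hs hgap
  have hr' := rows_bad_odd h.opp hk hcard hso hgapo
  obtain ⟨_, B, B', hB, hB', hm⟩ := structure_thm h 4 (by omega) (by
    intro g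
    rcases hgap g with h1 | h1
    · exact Or.inl h1
    · right; omega) hr hr'
  have hBs : B0 m ⊆ B := by
    intro x hx
    obtain ⟨y, hy⟩ := mem_B0.1 hx
    by_contra hn
    exact hy (hm x y (Or.inl hn))
  have hCs : C0 m ⊆ B' := by
    intro y hy
    obtain ⟨x, hx⟩ := mem_C0.1 hy
    by_contra hn
    exact hx (hm x y (Or.inr hn))
  have := near_group_odd h (by rw [hcard]; exact ⟨k, rfl⟩) (by omega)
    ((Finset.card_le_card hBs).trans hB) ((Finset.card_le_card hCs).trans hB') hpos
  rw [hcard] at this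
  omega

end final

end Pool.Agent.Helper60.Quas
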