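import Pool.Agent.Helper60.Quas.Count

namespace Pool.Agent.Helper60.Quas

open Finset Equiv

variable {Q : Type*} [Fintype Q] [DecidableEq Q]

lemma dd_mul {m : Q → Q → Q} (h : IsQuasigroup m) (g g' : Perm Q) :
    dd h (g * g') ≤ dd h g + dd h g' := by
  unfold dd
  refine le_trans (Finset.card_le_card ?_) (Finset.card_union_le _ _)
  intro z hz
  rw [mem_union, mem_compl, mem_compl]
  rw [mem_compl, mem_comm] at hz
  by_contra hc
  push Not at hc
  rw [mem_comm, mem_comm] at hc
  exact hz (hc.1.mul_left hc.2)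

lemma dd_one {m : Q → Q → Q} (h : IsQuasigroup m) : dd h 1 = 0 := by
  unfold dd
  rw [Finset.card_eq_zero]
  ext z
  rw [mem_compl, mem_comm]
  simp [Commute.one_left]

lemma dd_inv {m : Q → Q → Q} (h : IsQuasigroup m) (g : Perm Q) : dd h g⁻¹ = dd h g := by
  unfold dd
  congr 2
  ext z
  rw [mem_comm, mem_comm]
  exact ⟨fun hh => by simpa using hh.inv_left, fun hh => hh.inv_left⟩

/-- The subgroup of permutations commuting with all but at most `δ` right translations. -/
def HH {m : Q → Q → Q} (h : IsQuasigroup m) (δ : ℕ)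
    (hgap : ∀ g : Perm Q, dd h g ≤ δ ∨ 2 * δ < dd h g) : Subgroup (Perm Q) where
  carrier := {g | dd h g ≤ δ}
  mul_mem' := by
    intro a b ha hb
    simp only [Set.mem_ofPred_eq] at *
    have := dd_mul h a b
    rcases hgap (a * b) with h1 | h1
    · exact h1
    · omega
  one_mem' := by
    simp only [Set.mem_ofPred_eq, dd_one]
    exact Nat.zero_le _
  inv_mem' := by
    intro a ha
    simp only [Set.mem_ofPred_eq, dd_inv] at *
    exact ha

lemma mem_HH {m : Q → Q → Q} (h : IsQuasigroup m) (δ : ℕ)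
    (hgap : ∀ g : Perm Q, dd h g ≤ δ ∨ 2 * δ < dd h g) (g : Perm Q) :
    g ∈ HH h δ hgap ↔ dd h g ≤ δ := Iff.rfl

/-- good rows -/
noncomputable def good {m : Q → Q → Q} (h : IsQuasigroup m) (δ : ℕ) : Finset Q :=
  univ.filter fun x => dd h (Lp h x) ≤ δ

lemma mem_good {m : Q → Q → Q} (h : IsQuasigroup m) (δ : ℕ) (x : Q) :
    x ∈ good h δ ↔ dd h (Lp h x) ≤ δ := by simp [good]

lemma good_ex {m : Q → Q → Q} (h : IsQuasigroup m) (δ : ℕ)
    (hgap : ∀ g : Perm Q, dd h g ≤ δ ∨ 2 * δ < dd h g) (x y : Q)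
    (hex : Ex m (good h δ) x y) : Lp h x * Lp h y ≠ Lp h (m x y) := by
  intro heq
  unfold Ex at hex
  simp only [mem_good, ← mem_HH h δ hgap] at hex
  rcases hex with ⟨h1, h2, h3⟩ | ⟨h1, h2, h3⟩ | ⟨h1, h2, h3⟩
  · rw [← heq] at h3
    exact h1 ((Subgroup.mul_mem_cancel_right _ h2).1 h3)
  · rw [← heq] at h3
    exact h2 ((Subgroup.mul_mem_cancel_left _ h1).1 h3)
  · rw [← heq] at h3
    exact h3 (Subgroup.mul_mem _ h1 h2)

lemma inter_of_card {A B : Finset Q} (h : Fintype.card Q < A.card + B.card) :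
    ∃ x, x ∈ A ∧ x ∈ B := by
  by_contra hc
  push Not at hc
  have hd : Disjoint A B := Finset.disjoint_left.2 hc
  have := Finset.card_union_of_disjoint hd
  have h2 := Finset.card_le_univ (A ∪ B)
  omega

lemma semireg {m : Q → Q → Q} (h : IsQuasigroup m) (δ : ℕ) (hn : 2 * δ < Fintype.card Q)
    (g : Perm Q) (hg : dd h g ≤ δ) (p : Q) (hp : g p = p) : g = 1 := by
  ext q
  have hc : (comm h g).card + dd h g = Fintype.card Q := by
    unfold dd
    exact Finset.card_add_card_compl _
  have c1 : ((comm h g).image fun z => m p z).card = (comm h g).card :=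
    Finset.card_image_of_injective _ (h.1 p).1
  have hinj : Function.Injective fun z => (Rp h z).symm q := by
    intro z z' hzz
    simp only at hzz
    have h1 : m ((Rp h z).symm q) z = q := (Rp h z).apply_symm_apply q
    have h2 : m ((Rp h z').symm q) z' = q := (Rp h z').apply_symm_apply q
    rw [← hzz] at h2
    exact (h.1 _).1 (h1.trans h2.symm)
  have c2 : ((comm h g).image fun z => (Rp h z).symm q).card = (comm h g).card :=
    Finset.card_image_of_injective _ hinj
  obtain ⟨w, hw1, hw2⟩ := inter_of_card (A := (comm h g).image fun z => m p z)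
    (B := (comm h g).image fun z => (Rp h z).symm q) (by omega)
  rw [mem_image] at hw1 hw2
  obtain ⟨z1, hz1, rfl⟩ := hw1
  obtain ⟨z2, hz2, hz3⟩ := hw2
  rw [mem_comm] at hz1 hz2
  have h3 : q = (Rp h z2) ((Rp h z1) p) := by
    rw [Rp_apply h z1, ← hz3, Equiv.apply_symm_apply]
  have h4 : g ((Rp h z2) ((Rp h z1) p)) = (Rp h z2) ((Rp h z1) (g p)) := by
    have e1 : g * Rp h z2 = Rp h z2 * g := hz2
    have e2 : g * Rp h z1 = Rp h z1 * g := hz1
    calc g ((Rp h z2) ((Rp h z1) p)) = (g * Rp h z2) ((Rp h z1) p) := rfl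
      _ = (Rp h z2) ((g * Rp h z1) p) := by rw [e1]; rfl
      _ = _ := by rw [e2]; rfl
  rw [Perm.one_apply, h3, h4, hp]

theorem structure_thm {m : Q → Q → Q} (h : IsQuasigroup m) (δ : ℕ)
    (hn : 4 * δ < Fintype.card Q)
    (hgap : ∀ g : Perm Q, dd h g ≤ δ ∨ 2 * δ < dd h g)
    (hr : ((good h δ)ᶜ).card ≤ δ) (hr' : ((good h.opp δ)ᶜ).card ≤ δ) :
    ∃ (_ : Group Q) (B B' : Finset Q), B.card ≤ δ ∧ B'.card ≤ δ ∧
      ∀ x y, (x ∉ B ∨ y ∉ B') → m x y = x * y := by
  classical
  set H := HH h δ hgap with hH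
  have hGc : (good h δ).card + ((good h δ)ᶜ).card = Fintype.card Q :=
    Finset.card_add_card_compl _
  have hGc' : (good h.opp δ).card + ((good h.opp δ)ᶜ).card = Fintype.card Q :=
    Finset.card_add_card_compl _
  have hsemi : ∀ g g' : Perm Q, g ∈ H → g' ∈ H → ∀ p, g p = g' p → g = g' := by
    intro g g' hg hg' p hp
    have h1 : g'⁻¹ * g ∈ H := H.mul_mem (H.inv_mem hg') hg
    have h2 := semireg h δ (by omega) (g'⁻¹ * g) h1 p (by simp [hp])
    rw [inv_mul_eq_one] at h2
    exact h2.symm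
  have hLmem : ∀ x, x ∈ good h δ → Lp h x ∈ H := fun x hx => (mem_good h δ x).1 hx
  -- nonempty
  have hpos : 0 < (good h δ).card := by omega
  obtain ⟨x0, hx0⟩ := Finset.card_pos.1 hpos
  have hpos' : 0 < (good h.opp δ).card := by omega
  obtain ⟨z0, hz0⟩ := Finset.card_pos.1 hpos'
  -- transitivity
  have htrans : ∀ p q : Q, ∃ g ∈ H, g p = q := by
    intro p q
    have c1 : ((good h δ).image fun x => m x p).card = (good h δ).card :=
      Finset.card_image_of_injective _ (h.2 p).1
    have c2 : ((good h δ).image fun x => m x q).card = (good h δ).card :=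
      Finset.card_image_of_injective _ (h.2 q).1
    obtain ⟨w, hw1, hw2⟩ := inter_of_card (A := (good h δ).image fun x => m x p)
      (B := (good h δ).image fun x => m x q) (by omega)
    rw [mem_image] at hw1 hw2
    obtain ⟨x, hx, rfl⟩ := hw1
    obtain ⟨y, hy, hxy⟩ := hw2
    refine ⟨(Lp h y)⁻¹ * Lp h x, H.mul_mem (H.inv_mem (hLmem y hy)) (hLmem x hx), ?_⟩
    rw [Perm.mul_apply, Perm.inv_eq_iff_eq, Lp_apply, Lp_apply, hxy]
  -- good columns centralise H
  have hcent : ∀ z, z ∈ good h.opp δ → ∀ g ∈ H, Commute g (Rp h z) := by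
    intro z hz g hg
    rw [mem_good] at hz
    have hcz : (comm h.opp (Lp h.opp z)).card + dd h.opp (Lp h.opp z) = Fintype.card Q := by
      unfold dd
      exact Finset.card_add_card_compl _
    set Gz := good h δ ∩ comm h.opp (Lp h.opp z) with hGz
    have hGzc : (good h δ).card + (comm h.opp (Lp h.opp z)).card ≤ Gz.card + Fintype.card Q := by
      have := Finset.card_union_add_card_inter (good h δ) (comm h.opp (Lp h.opp z))
      have h2 := Finset.card_le_univ (good h δ ∪ comm h.opp (Lp h.opp z))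
      rw [← hGz] at this
      omega
    have hLz : Lp h.opp z = Rp h z := by ext; rfl
    have hRx : ∀ x, Rp h.opp x = Lp h x := fun x => by ext; rfl
    have c1 : (Gz.image fun x => g (m x z)).card = Gz.card :=
      Finset.card_image_of_injective _ (g.injective.comp (h.2 z).1)
    have c2 : (Gz.image fun x => m x z).card = Gz.card :=
      Finset.card_image_of_injective _ (h.2 z).1
    obtain ⟨w, hw1, hw2⟩ := inter_of_card (A := Gz.image fun x => g (m x z))
      (B := Gz.image fun x => m x z) (by omega)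
    rw [mem_image] at hw1 hw2
    obtain ⟨x, hx, rfl⟩ := hw1
    obtain ⟨y, hy, hxy⟩ := hw2
    rw [hGz, mem_inter, mem_comm, hLz, hRx] at hx hy
    have h5 : g * Lp h x = Lp h y := by
      apply hsemi _ _ (H.mul_mem hg (hLmem x hx.1)) (hLmem y hy.1) z
      rw [Perm.mul_apply, Lp_apply, Lp_apply, hxy]
    have h6 : g = Lp h y * (Lp h x)⁻¹ := by rw [← h5]; group
    rw [h6]
    exact (hy.2.mul_right (Commute.inv_right hx.2)).symm
  -- base point and parametrisation
  let e : Q := x0
  choose hf hfH hfe using htrans e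
  set c : Perm Q := (hf x0)⁻¹ * Lp h x0 with hc
  have hcH : c ∈ H := H.mul_mem (H.inv_mem (hfH x0)) (hLmem x0 hx0)
  have hcol : ∀ x z, z ∈ good h.opp δ → m x z = hf x (m e z) := by
    intro x z hz
    have h1 : hf x * Rp h z = Rp h z * hf x := hcent z hz (hf x) (hfH x)
    have h2 : (hf x * Rp h z) e = (Rp h z * hf x) e := by rw [h1]
    rw [Perm.mul_apply, Perm.mul_apply, Rp_apply, Rp_apply, hfe x] at h2
    exact h2.symm
  have hcz : ∀ z, z ∈ good h.opp δ → c z = m e z := by
    intro z hz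
    rw [hc, Perm.mul_apply, Perm.inv_eq_iff_eq, Lp_apply]
    exact hcol x0 z hz
  have hrow : ∀ x, x ∈ good h δ → Lp h x = hf x * c := by
    intro x hx
    have h1 : (hf x)⁻¹ * Lp h x = c := by
      apply hsemi _ _ (H.mul_mem (H.inv_mem (hfH x)) (hLmem x hx)) hcH z0
      rw [Perm.mul_apply, Perm.inv_eq_iff_eq, Lp_apply, hcz z0 hz0]
      exact hcol x z0 hz0
    rw [← h1]; group
  have hcc : c (c⁻¹ e) = e := by rw [← Perm.mul_apply, mul_inv_cancel, Perm.one_apply]
  let ψ : Q ≃ H :=
    { toFun := fun x => ⟨hf x * c, H.mul_mem (hfH x) hcH⟩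
      invFun := fun g => (g : Perm Q) (c⁻¹ e)
      left_inv := by
        intro x
        simp only [Perm.mul_apply]
        rw [hcc]
        exact hfe x
      right_inv := by
        intro g
        apply Subtype.ext
        show hf ((g : Perm Q) (c⁻¹ e)) * c = (g : Perm Q)
        have h1 : hf ((g : Perm Q) (c⁻¹ e)) = (g : Perm Q) * c⁻¹ := by
          apply hsemi _ _ (hfH _) (H.mul_mem g.2 (H.inv_mem hcH)) e
          rw [hfe, Perm.mul_apply]
        rw [h1]; group }
  let G : Group Q := Equiv.group ψ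
  have hmul : ∀ x y : Q, x * y = hf x (c y) := by
    intro x y
    show ψ.symm (ψ x * ψ y) = _
    show ((hf x * c) * (hf y * c)) (c⁻¹ e) = _
    simp only [Perm.mul_apply]
    rw [hcc, hfe y]
  refine ⟨G, (good h δ)ᶜ, (good h.opp δ)ᶜ, hr, hr', ?_⟩
  intro x y hxy
  rw [hmul]
  rcases hxy with h1 | h1
  · rw [mem_compl, not_not] at h1
    have := hrow x h1
    rw [← Lp_apply h x y, this, Perm.mul_apply]
  · rw [mem_compl, not_not] at h1
    rw [hcol x y h1, hcz y h1]

end Pool.Agent.Helper60.Quas
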