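import Pool.Agent.Helper60.Quas.General

namespace Pool.Agent.Helper60.Quas

open Finset Equiv

/-- number of elements satisfying a predicate -/
noncomputable def cnt {Q : Type*} [Fintype Q] (P : Q → Prop) : ℕ := by
  classical exact ∑ x, if P x then 1 else 0

/-- indicator -/
noncomputable def ind (P : Prop) : ℕ := by
  classical exact if P then 1 else 0

lemma ind_true {P : Prop} (h : P) : ind P = 1 := by simp [ind, h]
lemma ind_false {P : Prop} (h : ¬ P) : ind P = 0 := by simp [ind, h]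
lemma ind_le {P : Prop} : ind P ≤ 1 := by
  by_cases h : P
  · rw [ind_true h]
  · rw [ind_false h]; exact Nat.zero_le _
lemma ind_mono {P R : Prop} (h : P → R) : ind P ≤ ind R := by
  by_cases hP : P
  · rw [ind_true hP, ind_true (h hP)]
  · rw [ind_false hP]; exact Nat.zero_le _
lemma ite_eq_ind {P : Prop} [Decidable P] : (if P then 1 else 0) = ind P := by
  by_cases h : P
  · rw [ind_true h, if_pos h]
  · rw [ind_false h, if_neg h]
lemma ind_and {P R : Prop} : ind (P ∧ R) = ind P * ind R := by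
  by_cases h : P <;> by_cases h' : R <;> simp [ind, h, h']

section
variable {Q : Type*} [Fintype Q]

lemma cnt_eq (P : Q → Prop) : cnt P = ∑ x, ind (P x) := rfl

lemma cnt_mono {P R : Q → Prop} (h : ∀ x, P x → R x) : cnt P ≤ cnt R := by
  rw [cnt_eq, cnt_eq]
  exact Finset.sum_le_sum fun x _ => ind_mono (h x)

lemma cnt_comp (e : Perm Q) (P : Q → Prop) : ∑ x, ind (P (e x)) = cnt P :=
  Equiv.sum_comp e (fun x => ind (P x))

lemma prod3 (P R S : Q → Prop) :
    ∑ x, ∑ y, ∑ z, ind (P x ∧ R y ∧ S z) = cnt P * cnt R * cnt S := by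
  simp only [ind_and]
  simp only [← Finset.mul_sum]
  simp only [← Finset.sum_mul, cnt_eq]
  ring

lemma cnt_card (P : Q → Prop) : cnt P = Nat.card {x // P x} := by
  classical
  rw [Nat.card_eq_fintype_card, Fintype.card_subtype, Finset.card_filter]
  unfold cnt
  rfl

lemma cnt_zpowers [Group Q] (v : Q) : cnt (fun x => x ∈ Subgroup.zpowers v) = orderOf v := by
  rw [cnt_card, ← Nat.card_zpowers]

lemma cnt_mul_right [Group Q] (P : Q → Prop) (g : Q) : cnt (fun x => P (x * g)) = cnt P := by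
  rw [cnt_eq, cnt_eq]
  exact Equiv.sum_comp (Equiv.mulRight g) (fun x => ind (P x))

lemma cnt_pair [DecidableEq Q] {a b : Q} (hab : a ≠ b) : cnt (fun x => x = a ∨ x = b) = 2 := by
  rw [cnt_card]
  have : Nat.card {x // x = a ∨ x = b} = ({a, b} : Finset Q).card := by
    rw [Nat.card_eq_fintype_card, Fintype.card_subtype]
    congr 1
    ext; simp
  rw [this, Finset.card_pair hab]

variable {m : Q → Q → Q}

lemma sumD (h : IsQuasigroup m) (P R S : Q → Prop) :
    ∑ x, ∑ y, ∑ z, ind (P x ∧ R y ∧ S (m y z)) = cnt P * cnt R * cnt S := by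
  rw [← prod3]
  refine Finset.sum_congr rfl fun x _ => Finset.sum_congr rfl fun y _ => ?_
  exact Equiv.sum_comp (Lp h y) (fun z => ind (P x ∧ R y ∧ S z))

lemma sumC (h : IsQuasigroup m) (P R S : Q → Prop) :
    ∑ x, ∑ y, ∑ z, ind (P x ∧ R (m x y) ∧ S z) = cnt P * cnt R * cnt S := by
  rw [← prod3]
  refine Finset.sum_congr rfl fun x _ => ?_
  exact Equiv.sum_comp (Lp h x) (fun y => ∑ z, ind (P x ∧ R y ∧ S z))

lemma sumC' (h : IsQuasigroup m) (P R S : Q → Prop) :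
    ∑ x, ∑ y, ∑ z, ind (P (m x y) ∧ R y ∧ S z) = cnt P * cnt R * cnt S := by
  rw [← prod3, Finset.sum_comm]
  conv_rhs => rw [Finset.sum_comm]
  refine Finset.sum_congr rfl fun y _ => ?_
  exact Equiv.sum_comp (Rp h y) (fun x => ∑ z, ind (P x ∧ R y ∧ S z))

lemma sum_eq_xy (P S : Q → Prop) :
    ∑ x : Q, ∑ y : Q, ∑ z : Q, ind (x = y ∧ P y ∧ S z) = cnt P * cnt S := by
  rw [Finset.sum_comm]
  have : ∀ y : Q, ∑ x : Q, ∑ z : Q, ind (x = y ∧ P y ∧ S z) = ind (P y) * cnt S := by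
    intro y
    simp only [ind_and]
    simp only [← Finset.mul_sum, ← Finset.sum_mul]
    rw [← cnt_eq]
    have h1 : cnt (fun x : Q => x = y) = 1 := by
      rw [cnt_card]
      simp
    rw [h1, one_mul, ← cnt_eq]
  simp only [this]
  rw [← Finset.sum_mul, ← cnt_eq]

lemma sum_eq_uy (h : IsQuasigroup m) (P S : Q → Prop) :
    ∑ x : Q, ∑ y : Q, ∑ z : Q, ind (m x y = y ∧ P y ∧ S z) = cnt P * cnt S := by
  rw [← sum_eq_xy, Finset.sum_comm]
  conv_rhs => rw [Finset.sum_comm]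
  refine Finset.sum_congr rfl fun y _ => ?_
  exact Equiv.sum_comp (Rp h y) (fun x => ∑ z, ind (x = y ∧ P y ∧ S z))

lemma sum_eq_ux (h : IsQuasigroup m) (P S : Q → Prop) :
    ∑ x : Q, ∑ y : Q, ∑ z : Q, ind (m x y = x ∧ P x ∧ S z) = cnt P * cnt S := by
  rw [← sum_eq_xy]
  refine Finset.sum_congr rfl fun x _ => ?_
  have : ∀ y z : Q, ind (x = y ∧ P y ∧ S z) = ind (y = x ∧ P x ∧ S z) := by
    intro y z
    by_cases hxy : x = y
    · subst hxy; rfl
    · rw [ind_false (fun hh => hxy hh.1), ind_false (fun hh => hxy hh.1.symm)]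
  simp only [this]
  exact Equiv.sum_comp (Lp h x) (fun y => ∑ z, ind (y = x ∧ P x ∧ S z))

end

lemma ptI (A B C D N : Prop) (wAB wAD wBC wCD : ℕ)
    (nBD : B → ¬ D) (hAC : A → C → D) (hAD : A → D → 2 ≤ wAD)
    (hAB : A → B → 1 ≤ wAB ∧ (¬ C → ¬ D → ¬ N → 2 ≤ wAB))
    (hBC : B → C → 1 ≤ wBC ∧ (¬ A → ¬ D → ¬ N → 2 ≤ wBC))
    (hCD : C → D → 1 ≤ wCD ∧ (¬ A → ¬ B → ¬ N → 2 ≤ wCD))
    (hA : A → ¬ B → ¬ C → ¬ D → N) (hB : ¬ A → B → ¬ C → ¬ D → N)
    (hC : ¬ A → ¬ B → C → ¬ D → N) (hD : ¬ A → ¬ B → ¬ C → D → N) :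
    ind A + ind B + ind C + ind D ≤ ind N + (wAD + wAB + wBC + wCD) := by
  classical
  unfold ind
  by_cases h1 : A <;> by_cases h2 : B <;> by_cases h3 : C <;> by_cases h4 : D <;>
    by_cases h5 : N <;>
    simp only [h1, h2, h3, h4, h5, if_true, if_false, true_implies, false_implies,
      not_true_eq_false, not_false_eq_true] at * <;> omega

lemma ptII (A B C D N : Prop) (wAD wB wC wD : ℕ)
    (nAB : A → ¬ B) (nAC : A → ¬ C) (hAD : A → D → 2 ≤ wAD)
    (hBC : B → C → 1 ≤ wB ∧ 1 ≤ wC) (hBD : B → D → 1 ≤ wB ∧ 1 ≤ wD)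
    (hCD : C → D → 1 ≤ wC ∧ 1 ≤ wD)
    (hA : A → ¬ B → ¬ C → ¬ D → N) (hB : ¬ A → B → ¬ C → ¬ D → N)
    (hC : ¬ A → ¬ B → C → ¬ D → N) (hD : ¬ A → ¬ B → ¬ C → D → N) :
    ind A + ind B + ind C + ind D ≤ ind N + (wAD + wB + wC + wD) := by
  classical
  unfold ind
  by_cases h1 : A <;> by_cases h2 : B <;> by_cases h3 : C <;> by_cases h4 : D <;>
    by_cases h5 : N <;>
    simp only [h1, h2, h3, h4, h5, if_true, if_false, true_implies, false_implies,
      not_true_eq_false, not_false_eq_true] at * <;> omega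

lemma ptIII (A B C D N : Prop) (wA wB wC wD : ℕ)
    (hAB : A → B → 1 ≤ wA ∧ 1 ≤ wB) (hAC : A → C → 1 ≤ wA ∧ 1 ≤ wC)
    (hAD : A → D → 1 ≤ wA ∧ 1 ≤ wD)
    (hBC : B → C → 1 ≤ wB ∧ 1 ≤ wC) (hBD : B → D → 1 ≤ wB ∧ 1 ≤ wD)
    (hCD : C → D → 1 ≤ wC ∧ 1 ≤ wD)
    (hA : A → ¬ B → ¬ C → ¬ D → N) (hB : ¬ A → B → ¬ C → ¬ D → N)
    (hC : ¬ A → ¬ B → C → ¬ D → N) (hD : ¬ A → ¬ B → ¬ C → D → N) :
    ind A + ind B + ind C + ind D ≤ ind N + (wA + wB + wC + wD) := by
  classical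
  unfold ind
  by_cases h1 : A <;> by_cases h2 : B <;> by_cases h3 : C <;> by_cases h4 : D <;>
    by_cases h5 : N <;>
    simp only [h1, h2, h3, h4, h5, if_true, if_false, true_implies, false_implies,
      not_true_eq_false, not_false_eq_true] at * <;> omega

lemma master' {Q : Type*} [Fintype Q] [DecidableEq Q] [Group Q] {m : Q → Q → Q}
    (h : IsQuasigroup m) (w : Q → Q → Q → ℕ)
    (hw : ∀ x y z : Q, ind (T m x y) + ind (T m y z) + ind (T m (m x y) z) + ind (T m x (m y z)) ≤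
      ind (m x (m y z) ≠ m (m x y) z) + w x y z) :
    4 * (tt m * Fintype.card Q) ≤ nonAssocTriples m + ∑ x, ∑ y, ∑ z, w x y z := by
  apply master h w
  intro x y z
  have := hw x y z
  simp only [ite_eq_ind]
  exact this

lemma odd_comm {Q : Type*} [Fintype Q] [Group Q] (hodd : Odd (Fintype.card Q)) {a v : Q}
    (h : v * a * v = a) : v * v = 1 := by
  obtain ⟨k, hk⟩ := hodd
  have h1 : a⁻¹ * v * a = v⁻¹ := by
    have : v * a = a * v⁻¹ := by
      calc v * a = v * a * v * v⁻¹ := by group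
        _ = a * v⁻¹ := by rw [h]
    calc a⁻¹ * v * a = a⁻¹ * (v * a) := by group
      _ = v⁻¹ := by rw [this]; group
  have h2 : Commute (a * a) v := by
    have h3 : (a * a)⁻¹ * v * (a * a) = v := by
      calc (a * a)⁻¹ * v * (a * a) = a⁻¹ * (a⁻¹ * v * a) * a := by group
        _ = a⁻¹ * v⁻¹ * a := by rw [h1]
        _ = (a⁻¹ * v * a)⁻¹ := by group
        _ = v := by rw [h1]; group
    have h4 : v * (a * a) = (a * a) * v := by
      calc v * (a * a) = (a * a) * ((a * a)⁻¹ * v * (a * a)) := by group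
        _ = _ := by rw [h3]
    exact h4.symm
  have h5 : a = (a * a) ^ (k + 1) := by
    have h6 : a ^ (2 * k + 1) = 1 := by rw [← hk]; exact pow_card_eq_one
    calc a = a ^ (2 * k + 1) * a := by rw [h6, one_mul]
      _ = a ^ (2 * (k + 1)) := by rw [← pow_succ]; congr 1
      _ = (a * a) ^ (k + 1) := by rw [pow_mul, pow_two]
  have h7 : Commute a v := by
    rw [h5]
    exact h2.pow_left (k + 1)
  have h8 : v * a = a * v := h7.symm
  rw [h8, mul_assoc] at h
  simpa using h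

end Pool.Agent.Helper60.Quas
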