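import Pool.Agent.Helper60.Quas.Type1

namespace Pool.Agent.Helper60.Quas

open Finset Equiv

variable {Q : Type*} [Fintype Q] [DecidableEq Q] [Group Q] {m : Q → Q → Q}

/-- A `2 × 3` trade in a group. -/
structure Conf1 (m : Q → Q → Q) (a c v : Q) : Prop where
  v3 : v * v * v = 1
  vne : v * v ≠ 1
  hT : ∀ x y, T m x y ↔ (x = a ∨ x = a * v) ∧ y * c⁻¹ ∈ Subgroup.zpowers v
  ha : ∀ y, y * c⁻¹ ∈ Subgroup.zpowers v → m a y = a * v * y
  hav : ∀ y, y * c⁻¹ ∈ Subgroup.zpowers v → m (a * v) y = a * y

omit [Fintype Q] [DecidableEq Q] in
lemma Conf1.ne_one {a c v : Q} (cf : Conf1 m a c v) : v ≠ 1 := by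
  intro hv
  exact cf.vne (by rw [hv, mul_one])

omit [Fintype Q] [DecidableEq Q] in
lemma Conf1.order {a c v : Q} (cf : Conf1 m a c v) : orderOf v = 3 := by
  have : Fact (Nat.Prime 3) := ⟨Nat.prime_three⟩
  apply orderOf_eq_prime
  · rw [pow_succ, pow_two]; exact cf.v3
  · exact cf.ne_one

theorem type1 (h : IsQuasigroup m) (hodd : Odd (Fintype.card Q)) {a c v : Q}
    (cf : Conf1 m a c v) : 24 * Fintype.card Q ≤ nonAssocTriples m + 90 := by
  classical
  set V := Subgroup.zpowers v with hV
  have hvV : v ∈ V := Subgroup.mem_zpowers v
  set P : Q → Prop := fun x => x = a ∨ x = a * v with hP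
  set R : Q → Prop := fun y => y * c⁻¹ ∈ V with hR
  have hne : a ≠ a * v := by
    intro hh
    exact cf.ne_one (by simpa using hh.symm)
  have cP : cnt P = 2 := cnt_pair hne
  have cV : cnt (fun x => x ∈ V) = 3 := by rw [hV, cnt_zpowers, cf.order]
  have cR : cnt R = 3 := by
    rw [hR, cnt_mul_right (fun x => x ∈ V) c⁻¹, cV]
  have hT : ∀ x y, T m x y ↔ P x ∧ R y := cf.hT
  have htt : tt m = 6 := by
    have e1 : tt m = ∑ x, ∑ y, ind (P x ∧ R y) := by
      unfold tt
      refine Finset.sum_congr rfl fun x _ => Finset.sum_congr rfl fun y _ => ?_
      rw [ite_eq_ind]
      congr 1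
      exact propext (hT x y)
    rw [e1]
    simp only [ind_and]
    simp only [← Finset.mul_sum, ← Finset.sum_mul]
    rw [← cnt_eq, ← cnt_eq, cP, cR]
    norm_num
  have nT : ∀ x y, ¬ (P x ∧ R y) → m x y = x * y := by
    intro x y hh
    by_contra hc
    exact hh ((hT x y).1 hc)
  have ha := cf.ha
  have hav := cf.hav
  have hvv : v * v ≠ 1 := cf.vne
  have hv3 : v * v * v = 1 := cf.v3
  -- membership of products
  have hmR : ∀ y z, R z → y ∈ V → R (m y z) := by
    intro y z hz hy
    by_cases hc : P y ∧ R z
    · rcases hc.1 with rfl | rfl
      · show m _ z * c⁻¹ ∈ V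
        rw [ha z hz, mul_assoc]
        exact V.mul_mem (V.mul_mem hy hvV) hz
      · show m _ z * c⁻¹ ∈ V
        rw [hav z hz, mul_assoc]
        exact V.mul_mem ((Subgroup.mul_mem_cancel_right V hvV).1 hy) hz
    · show m y z * c⁻¹ ∈ V
      rw [nT y z hc, mul_assoc]
      exact V.mul_mem hy hz
  by_cases haV : a ∈ V
  · have hPV : ∀ x, P x → x ∈ V := by
      rintro x (rfl | rfl)
      · exact haV
      · exact V.mul_mem haV hvV
    by_cases hcV : c ∈ V
    · -- Case III
      have hRV : ∀ y, R y ↔ y ∈ V := by
        intro y
        show y * c⁻¹ ∈ V ↔ y ∈ V
        exact Subgroup.mul_mem_cancel_right V (V.inv_mem hcV)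
      -- m x y ∈ V and one factor in V
      have k1 : ∀ x y, y ∈ V → m x y ∈ V → x ∈ V := by
        intro x y hy hu
        by_cases hc : P x ∧ R y
        · exact hPV x hc.1
        · rw [nT x y hc] at hu
          exact (Subgroup.mul_mem_cancel_right V hy).1 hu
      have k2 : ∀ x y, x ∈ V → m x y ∈ V → y ∈ V := by
        intro x y hx hu
        by_cases hc : P x ∧ R y
        · exact (hRV y).1 hc.2
        · rw [nT x y hc] at hu
          exact (Subgroup.mul_mem_cancel_left V hx).1 hu
      have h0 := master' h (fun x y z => ind (P x ∧ y ∈ V ∧ z ∈ V) + ind (x ∈ V ∧ P y ∧ z ∈ V) +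
        ind (x ∈ V ∧ P (m x y) ∧ z ∈ V) + ind (P x ∧ y ∈ V ∧ z ∈ V)) (by
          intro x y z
          apply ptIII
          · intro hA hB
            rw [hT] at hA hB
            have a1 := (hRV y).1 hA.2
            have a2 := (hRV z).1 hB.2
            exact ⟨by rw [ind_true ⟨hA.1, a1, a2⟩], by rw [ind_true ⟨hPV x hA.1, hB.1, a2⟩]⟩
          · intro hA hC
            rw [hT] at hA hC
            have a1 := (hRV y).1 hA.2
            have a2 := (hRV z).1 hC.2
            exact ⟨by rw [ind_true ⟨hA.1, a1, a2⟩], by rw [ind_true ⟨hPV x hA.1, hC.1, a2⟩]⟩
          · intro hA hD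
            rw [hT] at hA hD
            have a1 := (hRV y).1 hA.2
            have a2 := k2 y z a1 ((hRV _).1 hD.2)
            exact ⟨by rw [ind_true ⟨hA.1, a1, a2⟩], by rw [ind_true ⟨hD.1, a1, a2⟩]⟩
          · intro hB hC
            rw [hT] at hB hC
            have a2 := (hRV z).1 hB.2
            have a1 := k1 x y (hPV y hB.1) (hPV _ hC.1)
            exact ⟨by rw [ind_true ⟨a1, hB.1, a2⟩], by rw [ind_true ⟨a1, hC.1, a2⟩]⟩
          · intro hB hD
            rw [hT] at hB hD
            have a2 := (hRV z).1 hB.2
            exact ⟨by rw [ind_true ⟨hPV x hD.1, hB.1, a2⟩], by rw [ind_true ⟨hD.1, hPV y hB.1, a2⟩]⟩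
          · intro hC hD
            rw [hT] at hC hD
            have a2 := (hRV z).1 hC.2
            have a1 := k2 x y (hPV x hD.1) (hPV _ hC.1)
            exact ⟨by rw [ind_true ⟨hPV x hD.1, hC.1, a2⟩], by rw [ind_true ⟨hD.1, a1, a2⟩]⟩
          · exact sA
          · exact sB
          · exact sC
          · exact sD)
      simp only [Finset.sum_add_distrib] at h0
      rw [prod3, prod3 (fun x => x ∈ V) P, sumC h (fun x => x ∈ V) P (fun x => x ∈ V),
        cP, cV, htt] at h0
      omega
    · -- Case II
      have hRnV : ∀ y, R y → y ∉ V := by
        intro y hy hyV
        apply hcV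
        have : y * c⁻¹ ∈ V := hy
        have := (Subgroup.mul_mem_cancel_left V hyV).1 this
        simpa using this
      have h0 := master' h (fun x y z => 2 * ind (P x ∧ R y ∧ R (m y z)) +
        ind (x ∈ V ∧ P y ∧ R z) +
        ind (x ∈ V ∧ P (m x y) ∧ R z) + ind (P x ∧ y ∈ V ∧ R z)) (by
          intro x y z
          apply ptII
          · intro hA hB
            rw [hT] at hA hB
            exact hRnV y hA.2 (hPV y hB.1)
          · intro hA hC
            rw [hT] at hA hC
            have := hmR x y hA.2 (hPV x hA.1)
            exact hRnV _ this (hPV _ hC.1)
          · intro hA hD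
            rw [hT] at hA hD
            rw [ind_true ⟨hA.1, hA.2, hD.2⟩]
          · intro hB hC
            rw [hT] at hB hC
            have hx : x ∈ V := by
              have hc : ¬ (P x ∧ R y) := fun hh => hRnV y hh.2 (hPV y hB.1)
              have hu := hPV _ hC.1
              rw [nT x y hc] at hu
              exact (Subgroup.mul_mem_cancel_right V (hPV y hB.1)).1 hu
            exact ⟨by rw [ind_true ⟨hx, hB.1, hB.2⟩], by rw [ind_true ⟨hx, hC.1, hC.2⟩]⟩
          · intro hB hD
            rw [hT] at hB hD
            exact ⟨by rw [ind_true ⟨hPV x hD.1, hB.1, hB.2⟩],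
              by rw [ind_true ⟨hD.1, hPV y hB.1, hB.2⟩]⟩
          · intro hC hD
            rw [hT] at hC hD
            have hy : y ∈ V := by
              have hc : ¬ (P x ∧ R y) := by
                intro hh
                have := hmR x y hh.2 (hPV x hh.1)
                exact hRnV _ this (hPV _ hC.1)
              have hu := hPV _ hC.1
              rw [nT x y hc] at hu
              exact (Subgroup.mul_mem_cancel_left V (hPV x hD.1)).1 hu
            exact ⟨by rw [ind_true ⟨hPV x hD.1, hC.1, hC.2⟩], by rw [ind_true ⟨hD.1, hy, hC.2⟩]⟩
          · exact sA
          · exact sB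
          · exact sC
          · exact sD)
      simp only [Finset.sum_add_distrib, ← Finset.mul_sum] at h0
      rw [sumD h, prod3, sumC h (fun x => x ∈ V), prod3, cP, cV, cR, htt] at h0
      omega
  · -- Case I
    have hPnV : ∀ x, P x → x ∉ V := by
      rintro x (rfl | rfl)
      · exact haV
      · intro hh
        exact haV ((Subgroup.mul_mem_cancel_right V hvV).1 hh)
    have oddc : ∀ z, a * (a * z) ≠ a * v * (a * v) * z := by
      intro z hh
      have h1 : v * a * v = a := by
        have h2 : a * (a * z) = a * (v * a * v * z) := by rw [hh]; group
        have h3 := mul_left_cancel h2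
        exact (mul_right_cancel h3).symm
      exact hvv (odd_comm hodd h1)
    have h0 := master' h (fun x y z => 2 * ind (P x ∧ R y ∧ R (m y z)) +
        (ind (P x ∧ (P y ∧ R y) ∧ R z) + ind (x = y ∧ P y ∧ R z)) +
        (ind (P (m x y) ∧ P y ∧ R z) + ind (m x y = y ∧ P y ∧ R z)) +
        (ind (P x ∧ P (m x y) ∧ R z) + ind (m x y = x ∧ P x ∧ R z))) (by
          intro x y z
          apply ptI
          · intro hB hD
            rw [hT] at hB hD
            have hz : z * c⁻¹ ∈ V := hB.2
            have hw : m y z * c⁻¹ ∈ V := hD.2
            rcases hB.1 with rfl | rfl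
            · rw [ha z hB.2, mul_assoc] at hw
              have := (Subgroup.mul_mem_cancel_right V hz).1 hw
              exact haV ((Subgroup.mul_mem_cancel_right V hvV).1 this)
            · rw [hav z hB.2, mul_assoc] at hw
              exact haV ((Subgroup.mul_mem_cancel_right V hz).1 hw)
          · intro hA hC
            rw [hT] at hA hC ⊢
            refine ⟨hA.1, ?_⟩
            have hyV : y ∈ V := by
              rcases hA.1 with rfl | rfl
              · have hu := hC.1
                rw [ha y hA.2] at hu
                rcases hu with hu | hu
                · have : v * y = 1 := by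
                    rw [mul_assoc] at hu
                    simpa using hu
                  have h2 : y = v⁻¹ := (inv_eq_of_mul_eq_one_right this).symm
                  rw [h2]; exact V.inv_mem hvV
                · have : y = 1 := by simpa using hu
                  rw [this]; exact V.one_mem
              · have hu := hC.1
                rw [hav y hA.2] at hu
                rcases hu with hu | hu
                · have : y = 1 := by simpa using hu
                  rw [this]; exact V.one_mem
                · have : y = v := mul_left_cancel hu
                  rw [this]; exact hvV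
            exact hmR y z hC.2 hyV
          · intro hA hD
            rw [hT] at hA hD
            rw [ind_true ⟨hA.1, hA.2, hD.2⟩]
          · intro hA hB
            have hA' := (hT _ _).1 hA
            have hB' := (hT _ _).1 hB
            rw [ind_true (show P x ∧ (P y ∧ R y) ∧ R z from ⟨hA'.1, ⟨hB'.1, hA'.2⟩, hB'.2⟩)]
            refine ⟨Nat.le_add_right _ _, ?_⟩
            intro nC nD nN
            have hxy : x = y := by
              by_contra hxy
              apply nN
              unfold T at nC nD
              push Not at nC nD
              rw [nC, nD]
              rcases hA'.1 with rfl | rfl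
              · rcases hB'.1 with rfl | rfl
                · exact absurd rfl hxy
                · rw [ha _ hA'.2, hav _ hB'.2]
                  exact oddc z
              · rcases hB'.1 with rfl | rfl
                · rw [hav _ hA'.2, ha _ hB'.2]
                  intro hh
                  apply oddc z
                  rw [← mul_assoc, ← hh]; group
                · exact absurd rfl hxy
            rw [ind_true (show x = y ∧ P y ∧ R z from ⟨hxy, hB'.1, hB'.2⟩)]
          · intro hB hC
            have hB' := (hT _ _).1 hB
            have hC' := (hT _ _).1 hC
            rw [ind_true (show P (m x y) ∧ P y ∧ R z from ⟨hC'.1, hB'.1, hB'.2⟩)]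
            refine ⟨Nat.le_add_right _ _, ?_⟩
            intro nA nD nN
            have huy : m x y = y := by
              by_contra huy
              apply nN
              unfold T at nA nD
              push Not at nA nD
              rw [nD]
              rcases hB'.1 with hy | hy
              · rcases hC'.1 with hu | hu
                · exact absurd (hu.trans hy.symm) huy
                · rw [hu, hav z hB'.2, hy, ha z hB'.2]
                  intro hh
                  have e1 : x * a = a * v := by rw [← hu, nA, hy]
                  have e2 : a * v * v * z = a * z := by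
                    rw [← e1, ← hh]; group
                  have e3 : v * v = 1 := by
                    have := mul_right_cancel e2
                    rw [mul_assoc] at this
                    simpa using this
                  exact hvv e3
              · rcases hC'.1 with hu | hu
                · rw [hu, ha z hB'.2, hy, hav z hB'.2]
                  intro hh
                  have e1 : x * (a * v) = a := by
                    calc x * (a * v) = x * y := by rw [hy]
                      _ = m x y := nA.symm
                      _ = a := hu
                  have e2 : x * a = a * v := by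
                    rw [← mul_assoc] at hh
                    exact mul_right_cancel hh
                  rw [← mul_assoc, e2, mul_assoc] at e1
                  exact hvv (by simpa using e1)
                · exact absurd (hu.trans hy.symm) huy
            rw [ind_true (show m x y = y ∧ P y ∧ R z from ⟨huy, hB'.1, hB'.2⟩)]
          · intro hC hD
            have hC' := (hT _ _).1 hC
            have hD' := (hT _ _).1 hD
            rw [ind_true (show P x ∧ P (m x y) ∧ R z from ⟨hD'.1, hC'.1, hC'.2⟩)]
            refine ⟨Nat.le_add_right _ _, ?_⟩
            intro nA nB nN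
            have hux : m x y = x := by
              by_contra hux
              apply nN
              unfold T at nA nB
              push Not at nA nB
              rcases hD'.1 with hx | hx
              · rcases hC'.1 with hu | hu
                · exact absurd (hu.trans hx.symm) hux
                · rw [hu, hav z hC'.2, hx, ha _ hD'.2, nB]
                  intro hh
                  have e1 : a * y = a * v := by rw [← hu, nA, hx]
                  have e2 : y = v := mul_left_cancel e1
                  rw [e2] at hh
                  have e3 : v * v = 1 := by
                    have e4 : a * (v * v * z) = a * z := by rw [← hh]; group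
                    have e5 := mul_left_cancel e4
                    simpa using e5
                  exact hvv e3
              · rcases hC'.1 with hu | hu
                · rw [hu, ha z hC'.2, hx, hav _ hD'.2, nB]
                  intro hh
                  have e1 : a * v * y = a := by
                    calc a * v * y = x * y := by rw [hx]
                      _ = m x y := nA.symm
                      _ = a := hu
                  have e2 : y = v := by
                    have e4 : a * (y * z) = a * (v * z) := by rw [hh]; group
                    exact mul_right_cancel (mul_left_cancel e4)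
                  rw [e2, mul_assoc] at e1
                  exact hvv (by simpa using e1)
                · exact absurd (hu.trans hx.symm) hux
            rw [ind_true (show m x y = x ∧ P x ∧ R z from ⟨hux, hD'.1, hC'.2⟩)]
          · exact sA
          · exact sB
          · exact sC
          · exact sD)
    simp only [Finset.sum_add_distrib, ← Finset.mul_sum] at h0
    rw [sumD h, prod3, sum_eq_xy, sumC' h, sum_eq_uy h, sumC h P P R, sum_eq_ux h, cP, cR,
      htt] at h0
    have hPR : cnt (fun y => P y ∧ R y) ≤ 2 := by
      rw [← cP]
      exact cnt_mono fun x hx => hx.1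
    nlinarith

end Pool.Agent.Helper60.Quas
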