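import Pool.Agent.Helper60.Quas.Type1Thm

namespace Pool.Agent.Helper60.Quas

open Finset Equiv

variable {Q : Type*} [Fintype Q] [DecidableEq Q] [Group Q] {m : Q → Q → Q}

/-- A `3 × 3` trade on two symbols in a group. -/
structure Conf3 (m : Q → Q → Q) (a p v : Q) : Prop where
  v3 : v * v * v = 1
  vne : v * v ≠ 1
  hT : ∀ x y, T m x y ↔ x * a⁻¹ ∈ Subgroup.zpowers v ∧ (x * y = p ∨ x * y = v * p)
  hp : ∀ x y, x * a⁻¹ ∈ Subgroup.zpowers v → x * y = p → m x y = v * p
  hq : ∀ x y, x * a⁻¹ ∈ Subgroup.zpowers v → x * y = v * p → m x y = p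

omit [Fintype Q] [DecidableEq Q] in
lemma Conf3.ne_one {a p v : Q} (cf : Conf3 m a p v) : v ≠ 1 := by
  intro hv
  exact cf.vne (by rw [hv, mul_one])

omit [Fintype Q] [DecidableEq Q] in
lemma Conf3.order {a p v : Q} (cf : Conf3 m a p v) : orderOf v = 3 := by
  have : Fact (Nat.Prime 3) := ⟨Nat.prime_three⟩
  apply orderOf_eq_prime
  · rw [pow_succ, pow_two]; exact cf.v3
  · exact cf.ne_one

lemma ptI3 (A B C D N : Prop) (wAB wAD wBC wCD : ℕ)
    (nAC : A → ¬ C) (nBD : B → ¬ D)
    (hAD : A → D → 1 ≤ wAD ∧ (¬ B → ¬ C → ¬ N → 2 ≤ wAD))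
    (hAB : A → B → 1 ≤ wAB ∧ (¬ C → ¬ D → ¬ N → 2 ≤ wAB))
    (hBC : B → C → 1 ≤ wBC ∧ (¬ A → ¬ D → ¬ N → 2 ≤ wBC))
    (hCD : C → D → 2 ≤ wCD)
    (hA : A → ¬ B → ¬ C → ¬ D → N) (hB : ¬ A → B → ¬ C → ¬ D → N)
    (hC : ¬ A → ¬ B → C → ¬ D → N) (hD : ¬ A → ¬ B → ¬ C → D → N) :
    ind A + ind B + ind C + ind D ≤ ind N + (wAD + wAB + wBC + wCD) := by
  classical
  unfold ind
  by_cases h1 : A <;> by_cases h2 : B <;> by_cases h3 : C <;> by_cases h4 : D <;>
    by_cases h5 : N <;>
    simp only [h1, h2, h3, h4, h5, if_true, if_false, true_implies, false_implies,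
      not_true_eq_false, not_false_eq_true] at * <;> omega

lemma tt_ind (m : Q → Q → Q) : ∑ x, ∑ y, ind (T m x y) = tt m := by
  unfold tt
  refine Finset.sum_congr rfl fun x _ => Finset.sum_congr rfl fun y _ => ?_
  rw [ite_eq_ind]

lemma s1 (h : IsQuasigroup m) (P : Q → Prop) :
    ∑ x, ∑ y, ∑ z, ind (P x ∧ T m (m x y) z) = cnt P * tt m := by
  simp only [ind_and, ← Finset.mul_sum]
  have : ∀ x, ∑ y, ∑ z, ind (T m (m x y) z) = tt m := by
    intro x
    rw [← tt_ind]
    exact Equiv.sum_comp (Lp h x) (fun u => ∑ z, ind (T m u z))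
  simp only [this]
  rw [← Finset.sum_mul, ← cnt_eq]

lemma s2 (m : Q → Q → Q) (P : Q → Prop) :
    ∑ x, ∑ y, ∑ z, ind (T m x y ∧ P z) = tt m * cnt P := by
  simp only [ind_and, ← Finset.mul_sum, ← Finset.sum_mul]
  rw [tt_ind, ← cnt_eq]

lemma s3 (m : Q → Q → Q) (P : Q → Prop) :
    ∑ x, ∑ y, ∑ z, ind (P x ∧ T m y z) = cnt P * tt m := by
  simp only [ind_and, ← Finset.mul_sum, ← Finset.sum_mul]
  rw [tt_ind, ← cnt_eq]

lemma s4 (h : IsQuasigroup m) (P : Q → Prop) :
    ∑ x, ∑ y, ∑ z, ind (P y ∧ T m x (m y z)) = cnt P * tt m := by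
  rw [Finset.sum_comm]
  have : ∀ y, ∑ x, ∑ z, ind (P y ∧ T m x (m y z)) = ind (P y) * tt m := by
    intro y
    simp only [ind_and, ← Finset.mul_sum]
    congr 1
    rw [← tt_ind]
    refine Finset.sum_congr rfl fun x _ => ?_
    exact Equiv.sum_comp (Lp h y) (fun u => ind (T m x u))
  simp only [this]
  rw [← Finset.sum_mul, ← cnt_eq]

lemma s5 (h : IsQuasigroup m) (P : Q → Prop) :
    ∑ x, ∑ y, ∑ z, ind (P y ∧ T m (m x y) z) = cnt P * tt m := by
  rw [Finset.sum_comm]
  have : ∀ y, ∑ x, ∑ z, ind (P y ∧ T m (m x y) z) = ind (P y) * tt m := by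
    intro y
    simp only [ind_and, ← Finset.mul_sum]
    congr 1
    rw [← tt_ind]
    exact Equiv.sum_comp (Rp h y) (fun u => ∑ z, ind (T m u z))
  simp only [this]
  rw [← Finset.sum_mul, ← cnt_eq]

lemma s6 (h : IsQuasigroup m) (P : Q → Prop) :
    ∑ x, ∑ y, ∑ z, ind (P z ∧ T m x (m y z)) = cnt P * tt m := by
  have e1 : ∑ x, ∑ y, ∑ z, ind (P z ∧ T m x (m y z)) =
      ∑ z, ∑ x, ∑ y, ind (P z ∧ T m x (m y z)) := by
    calc ∑ x, ∑ y, ∑ z, ind (P z ∧ T m x (m y z))
        = ∑ x, ∑ z, ∑ y, ind (P z ∧ T m x (m y z)) :=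
          Finset.sum_congr rfl fun x _ => Finset.sum_comm
      _ = _ := Finset.sum_comm
  rw [e1]
  have : ∀ z, ∑ x, ∑ y, ind (P z ∧ T m x (m y z)) = ind (P z) * tt m := by
    intro z
    simp only [ind_and, ← Finset.mul_sum]
    congr 1
    rw [← tt_ind]
    refine Finset.sum_congr rfl fun x _ => ?_
    exact Equiv.sum_comp (Rp h z) (fun u => ind (T m x u))
  simp only [this]
  rw [← Finset.sum_mul, ← cnt_eq]

omit [DecidableEq Q] [Group Q] in
lemma cnt_eq_one (y : Q) : cnt (fun x : Q => x = y) = 1 := by
  rw [cnt_card]; simp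

lemma s8 (h : IsQuasigroup m) :
    ∑ x, ∑ y, ∑ z, ind (T m x y ∧ m y z = y) = tt m := by
  rw [← tt_ind]
  refine Finset.sum_congr rfl fun x _ => Finset.sum_congr rfl fun y _ => ?_
  simp only [ind_and, ← Finset.mul_sum]
  have : ∑ z, ind (m y z = y) = 1 := by
    rw [← cnt_eq_one y]
    exact Equiv.sum_comp (Lp h y) (fun z => ind (z = y))
  rw [this, mul_one]

lemma s9 (h : IsQuasigroup m) :
    ∑ x, ∑ y, ∑ z, ind (T m y z ∧ m x y = y) = tt m := by
  rw [← tt_ind, Finset.sum_comm]
  refine Finset.sum_congr rfl fun y _ => ?_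
  rw [Finset.sum_comm]
  refine Finset.sum_congr rfl fun z _ => ?_
  simp only [ind_and, ← Finset.mul_sum]
  have : ∑ x, ind (m x y = y) = 1 := by
    rw [← cnt_eq_one y]
    exact Equiv.sum_comp (Rp h y) (fun z => ind (z = y))
  rw [this, mul_one]

theorem type3 (h : IsQuasigroup m) {a p v : Q}
    (cf : Conf3 m a p v) : 24 * Fintype.card Q ≤ nonAssocTriples m + 90 := by
  classical
  set V := Subgroup.zpowers v with hV
  have hvV : v ∈ V := Subgroup.mem_zpowers v
  set P : Q → Prop := fun x => x * a⁻¹ ∈ V with hP
  set S : Q → Prop := fun y => y = p ∨ y = v * p with hS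
  have hne : p ≠ v * p := by
    intro hh
    exact cf.ne_one (by simpa using hh.symm)
  have cS : cnt S = 2 := cnt_pair hne
  have cV : cnt (fun x => x ∈ V) = 3 := by rw [hV, cnt_zpowers, cf.order]
  have cP : cnt P = 3 := by
    rw [hP, cnt_mul_right (fun x => x ∈ V) a⁻¹, cV]
  have hT : ∀ x y, T m x y ↔ P x ∧ S (x * y) := cf.hT
  have hp := cf.hp
  have hq := cf.hq
  have hvv : v * v ≠ 1 := cf.vne
  have nT : ∀ x y, ¬ T m x y → m x y = x * y := by
    intro x y hh
    unfold T at hh
    push Not at hh
    exact hh
  have hTS : ∀ x y, T m x y → S (m x y) := by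
    intro x y hh
    rw [hT] at hh
    rcases hh.2 with h1 | h1
    · right; exact hp x y hh.1 h1
    · left; exact hq x y hh.1 h1
  have hTP : ∀ x y, T m x y → P x := fun x y hh => ((hT x y).1 hh).1
  have rowS : ∀ x : Q, ∑ y : Q, ind (S (x * y)) = 2 := by
    intro x
    rw [← cS]
    exact Equiv.sum_comp (Equiv.mulLeft x) (fun y => ind (S y))
  have htt : tt m = 6 := by
    rw [← tt_ind]
    have : ∀ x, ∑ y, ind (T m x y) = ind (P x) * 2 := by
      intro x
      rw [← rowS x, Finset.mul_sum]
      refine Finset.sum_congr rfl fun y _ => ?_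
      rw [← ind_and]
      congr 1
      exact propext (hT x y)
    simp only [this]
    rw [← Finset.sum_mul, ← cnt_eq, cP]
    norm_num
  have hrho : ∀ x, rho m x = ind (P x) * 2 := by
    intro x
    rw [← rowS x, Finset.mul_sum]
    unfold rho
    refine Finset.sum_congr rfl fun y _ => ?_
    rw [← ind_and, ite_eq_ind]
    congr 1
    exact propext (hT x y)
  have hgam : ∀ y, gam m y ≤ 2 := by
    intro y
    unfold gam
    calc ∑ x, (if T m x y then 1 else 0) ≤ ∑ x, ind (S (x * y)) := by
          refine Finset.sum_le_sum fun x _ => ?_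
          rw [ite_eq_ind]
          exact ind_mono fun hh => ((hT x y).1 hh).2
      _ = 2 := by
          rw [← cS]
          exact Equiv.sum_comp (Equiv.mulRight y) (fun y => ind (S y))
  have hsumgam : ∑ y, gam m y = 6 := by
    rw [← htt]
    unfold gam tt
    rw [Finset.sum_comm]
  have sAD : ∑ x, ∑ y, ∑ z, ind (T m x y ∧ T m x (m y z)) = 12 := by
    have := sum_AD (m := m) h
    simp only [ite_eq_ind] at this
    rw [this]
    simp only [hrho]
    have e2 : ∀ x, ind (P x) * 2 * (ind (P x) * 2) = 4 * ind (P x) := by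
      intro x
      by_cases hx : P x
      · rw [ind_true hx]
      · rw [ind_false hx]
    simp only [e2]
    rw [← Finset.mul_sum, ← cnt_eq, cP]
    norm_num
  have sBC : ∑ x, ∑ y, ∑ z, ind (T m y z ∧ T m (m x y) z) ≤ 12 := by
    have := sum_BC (m := m) h
    simp only [ite_eq_ind] at this
    rw [this]
    calc ∑ z, gam m z * gam m z ≤ ∑ z, 2 * gam m z :=
          Finset.sum_le_sum fun z _ => Nat.mul_le_mul_right _ (hgam z)
      _ = 12 := by rw [← Finset.mul_sum, hsumgam]; norm_num
  -- closure
  have hSS : ∀ x s, S s → S (x * s) → x ∈ V := by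
    intro x s hs hxs
    rcases hs with rfl | rfl <;> rcases hxs with h1 | h1
    · have : x = 1 := by simpa using h1
      rw [this]; exact V.one_mem
    · have : x = v := mul_right_cancel h1
      rw [this]; exact hvV
    · have : x * v = 1 := by
        rw [← mul_assoc] at h1
        simpa using h1
      rw [← (Subgroup.mul_mem_cancel_right V hvV), this]; exact V.one_mem
    · have : x = 1 := by simpa using h1
      rw [this]; exact V.one_mem
  by_cases haV : a ∈ V
  · have hPV : ∀ x, P x ↔ x ∈ V := by
      intro x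
      show x * a⁻¹ ∈ V ↔ x ∈ V
      exact Subgroup.mul_mem_cancel_right V (V.inv_mem haV)
    by_cases hpV : p ∈ V
    · -- Case IV
      have hSV : ∀ x, S x → x ∈ V := by
        rintro x (rfl | rfl)
        · exact hpV
        · exact V.mul_mem hvV hpV
      have hTV : ∀ x y, T m x y → x ∈ V ∧ y ∈ V ∧ m x y ∈ V := by
        intro x y hh
        have hh' := (hT x y).1 hh
        have hx := (hPV x).1 hh'.1
        exact ⟨hx, (Subgroup.mul_mem_cancel_left V hx).1 (hSV _ hh'.2), hSV _ (hTS x y hh)⟩
      have k1 : ∀ x y, y ∈ V → m x y ∈ V → x ∈ V := by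
        intro x y hy hu
        by_cases hc : T m x y
        · exact (hTV x y hc).1
        · rw [nT x y hc] at hu
          exact (Subgroup.mul_mem_cancel_right V hy).1 hu
      have k2 : ∀ x y, x ∈ V → m x y ∈ V → y ∈ V := by
        intro x y hx hu
        by_cases hc : T m x y
        · exact (hTV x y hc).2.1
        · rw [nT x y hc] at hu
          exact (Subgroup.mul_mem_cancel_left V hx).1 hu
      have h0 := master' h (fun x y z => ind (T m x y ∧ z ∈ V) + ind (x ∈ V ∧ T m y z) +
        ind (x ∈ V ∧ T m (m x y) z) + ind (y ∈ V ∧ T m x (m y z))) (by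
          intro x y z
          apply ptIII
          · intro hA hB
            obtain ⟨a1, a2, a3⟩ := hTV _ _ hA
            obtain ⟨b1, b2, b3⟩ := hTV _ _ hB
            exact ⟨by rw [ind_true ⟨hA, b2⟩], by rw [ind_true ⟨a1, hB⟩]⟩
          · intro hA hC
            obtain ⟨a1, a2, a3⟩ := hTV _ _ hA
            obtain ⟨b1, b2, b3⟩ := hTV _ _ hC
            exact ⟨by rw [ind_true ⟨hA, b2⟩], by rw [ind_true ⟨a1, hC⟩]⟩
          · intro hA hD
            obtain ⟨a1, a2, a3⟩ := hTV _ _ hA
            obtain ⟨b1, b2, b3⟩ := hTV _ _ hD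
            exact ⟨by rw [ind_true ⟨hA, k2 y z a2 b2⟩], by rw [ind_true ⟨a2, hD⟩]⟩
          · intro hB hC
            obtain ⟨a1, a2, a3⟩ := hTV _ _ hB
            obtain ⟨b1, b2, b3⟩ := hTV _ _ hC
            have hx := k1 x y a1 b1
            exact ⟨by rw [ind_true ⟨hx, hB⟩], by rw [ind_true ⟨hx, hC⟩]⟩
          · intro hB hD
            obtain ⟨a1, a2, a3⟩ := hTV _ _ hB
            obtain ⟨b1, b2, b3⟩ := hTV _ _ hD
            exact ⟨by rw [ind_true ⟨b1, hB⟩], by rw [ind_true ⟨a1, hD⟩]⟩
          · intro hC hD
            obtain ⟨a1, a2, a3⟩ := hTV _ _ hC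
            obtain ⟨b1, b2, b3⟩ := hTV _ _ hD
            have hy := k2 x y b1 a1
            exact ⟨by rw [ind_true ⟨b1, hC⟩], by rw [ind_true ⟨hy, hD⟩]⟩
          · exact sA
          · exact sB
          · exact sC
          · exact sD)
      simp only [Finset.sum_add_distrib] at h0
      rw [s2, s3, s1 h, s4 h, cV, htt] at h0
      omega
    · -- Case II
      have hSnV : ∀ x, S x → x ∉ V := by
        rintro x (rfl | rfl) hh
        · exact hpV hh
        · exact hpV ((Subgroup.mul_mem_cancel_left V hvV).1 hh)
      have hTy : ∀ x y, T m x y → y ∉ V := by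
        intro x y hh hy
        have hh' := (hT x y).1 hh
        exact hSnV _ hh'.2 (V.mul_mem ((hPV x).1 hh'.1) hy)
      have h0 := master' h (fun x y z => 2 * ind (T m x y ∧ T m x (m y z)) +
        ind (x ∈ V ∧ T m y z) +
        ind (x ∈ V ∧ T m (m x y) z) + ind (y ∈ V ∧ T m x (m y z))) (by
          intro x y z
          have nAC : T m x y → ¬ T m (m x y) z := by
            intro hA hC
            exact hSnV _ (hTS x y hA) ((hPV _).1 (hTP _ _ hC))
          apply ptII
          · intro hA hB
            exact hTy x y hA ((hPV y).1 (hTP _ _ hB))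
          · exact nAC
          · intro hA hD
            rw [ind_true ⟨hA, hD⟩]
          · intro hB hC
            have hy := (hPV y).1 (hTP _ _ hB)
            have hu := (hPV _).1 (hTP _ _ hC)
            have hx : x ∈ V := by
              have hc : ¬ T m x y := fun hh => hTy x y hh hy
              rw [nT x y hc] at hu
              exact (Subgroup.mul_mem_cancel_right V hy).1 hu
            exact ⟨by rw [ind_true ⟨hx, hB⟩], by rw [ind_true ⟨hx, hC⟩]⟩
          · intro hB hD
            exact ⟨by rw [ind_true ⟨(hPV x).1 (hTP _ _ hD), hB⟩],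
              by rw [ind_true ⟨(hPV y).1 (hTP _ _ hB), hD⟩]⟩
          · intro hC hD
            have hx := (hPV x).1 (hTP _ _ hD)
            have hu := (hPV _).1 (hTP _ _ hC)
            have hy : y ∈ V := by
              have hc : ¬ T m x y := fun hh => nAC hh hC
              rw [nT x y hc] at hu
              exact (Subgroup.mul_mem_cancel_left V hx).1 hu
            exact ⟨by rw [ind_true ⟨hx, hC⟩], by rw [ind_true ⟨hy, hD⟩]⟩
          · exact sA
          · exact sB
          · exact sC
          · exact sD)
      simp only [Finset.sum_add_distrib, ← Finset.mul_sum] at h0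
      rw [sAD, s3, s1 h, s4 h, cV, htt] at h0
      omega
  · by_cases hpa : p * a⁻¹ ∈ V
    · -- Case III
      set W : Q → Prop := fun y => a * y * a⁻¹ ∈ V with hW
      have cW : cnt W = 3 := by
        rw [← cV]
        exact Equiv.sum_comp ((Equiv.mulLeft a).trans (Equiv.mulRight a⁻¹)) (fun y => ind (y ∈ V))
      have hSP : ∀ x, S x → P x := by
        rintro x (rfl | rfl)
        · exact hpa
        · show v * p * a⁻¹ ∈ V
          rw [mul_assoc]; exact V.mul_mem hvV hpa
      have hTW : ∀ x y, T m x y → W y := by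
        intro x y hh
        have hh' := (hT x y).1 hh
        have h1 : x * a⁻¹ ∈ V := hh'.1
        have h2 : x * y * a⁻¹ ∈ V := hSP _ hh'.2
        show a * y * a⁻¹ ∈ V
        have : a * y * a⁻¹ = (x * a⁻¹)⁻¹ * (x * y * a⁻¹) := by group
        rw [this]; exact V.mul_mem (V.inv_mem h1) h2
      have hWmul : ∀ y z, W y → W z → W (y * z) := by
        intro y z hy hz
        show a * (y * z) * a⁻¹ ∈ V
        have : a * (y * z) * a⁻¹ = (a * y * a⁻¹) * (a * z * a⁻¹) := by group
        rw [this]; exact V.mul_mem hy hz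
      have hWl : ∀ y z, W y → W (y * z) → W z := by
        intro y z hy hz
        show a * z * a⁻¹ ∈ V
        have : a * z * a⁻¹ = (a * y * a⁻¹)⁻¹ * (a * (y * z) * a⁻¹) := by group
        rw [this]; exact V.mul_mem (V.inv_mem hy) hz
      have hWr : ∀ y z, W z → W (y * z) → W y := by
        intro y z hz hy
        show a * y * a⁻¹ ∈ V
        have : a * y * a⁻¹ = (a * (y * z) * a⁻¹) * (a * z * a⁻¹)⁻¹ := by group
        rw [this]; exact V.mul_mem hy (V.inv_mem hz)
      have hPW : ∀ y, P y → ¬ W y := by
        intro y hy hw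
        have h1 : y * a⁻¹ ∈ V := hy
        have h2 : a * y * a⁻¹ ∈ V := hw
        apply haV
        have : a = (a * y * a⁻¹) * (y * a⁻¹)⁻¹ := by group
        rw [this]; exact V.mul_mem h2 (V.inv_mem h1)
      have h0 := master' h (fun x y z => 2 * ind (T m y z ∧ T m (m x y) z) +
        ind (T m x y ∧ W z) +
        ind (W z ∧ T m x (m y z)) + ind (W y ∧ T m (m x y) z)) (by
          intro x y z
          have nBD : T m y z → ¬ T m x (m y z) := by
            intro hB hD
            exact hPW _ (hSP _ (hTS y z hB)) (hTW _ _ hD)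
          have nAB : T m x y → ¬ T m y z := by
            intro hA hB
            exact hPW y (hTP _ _ hB) (hTW _ _ hA)
          have := ptII (T m y z) (T m x y) (T m x (m y z)) (T m (m x y) z)
            (m x (m y z) ≠ m (m x y) z) (2 * ind (T m y z ∧ T m (m x y) z))
            (ind (T m x y ∧ W z)) (ind (W z ∧ T m x (m y z))) (ind (W y ∧ T m (m x y) z))
            (fun hB hA => nAB hA hB) nBD
            (fun hB hC => by rw [ind_true ⟨hB, hC⟩])
            (by
              intro hA hD
              have hy := hTW _ _ hA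
              have hw := hTW _ _ hD
              have hz : W z := by
                rw [nT y z (nAB hA)] at hw
                exact hWl y z hy hw
              exact ⟨by rw [ind_true ⟨hA, hz⟩], by rw [ind_true ⟨hz, hD⟩]⟩)
            (by
              intro hA hC
              exact ⟨by rw [ind_true ⟨hA, hTW _ _ hC⟩], by rw [ind_true ⟨hTW _ _ hA, hC⟩]⟩)
            (by
              intro hD hC
              have hz := hTW _ _ hC
              have hw := hTW _ _ hD
              have hy : W y := by
                have hc : ¬ T m y z := fun hh => nBD hh hD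
                rw [nT y z hc] at hw
                exact hWr y z hz hw
              exact ⟨by rw [ind_true ⟨hz, hD⟩], by rw [ind_true ⟨hy, hC⟩]⟩)
            (fun hB nA nD nC => sB nA hB nC nD) (fun nB hA nD nC => sA hA nB nC nD)
            (fun nB nA hD nC => sD nA nB nC hD) (fun nB nA nD hC => sC nA nB hC nD)
          omega)
      simp only [Finset.sum_add_distrib, ← Finset.mul_sum] at h0
      rw [s2, s6 h, s5 h, cW, htt] at h0
      omega
    · -- Case I
      have hSnP : ∀ x, S x → ¬ P x := by
        rintro x (rfl | rfl) hh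
        · exact hpa hh
        · apply hpa
          have h1 : v * p * a⁻¹ ∈ V := hh
          rw [mul_assoc] at h1
          exact (Subgroup.mul_mem_cancel_left V hvV).1 h1
      have hPnV : ∀ x, P x → x ∉ V := by
        intro x hx hxV
        have h1 : x * a⁻¹ ∈ V := hx
        have h2 := (Subgroup.mul_mem_cancel_left V hxV).1 h1
        exact haV (by simpa using V.inv_mem h2)
      have vp : v * (v * p) ≠ p := by
        intro hh
        rw [← mul_assoc] at hh
        exact hvv (by simpa using hh)
      have h0 := master' h (fun x y z =>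
        (ind (T m x y ∧ T m x (m y z)) + ind (T m x y ∧ m y z = y)) +
        (ind (T m x y ∧ T m y z) + ind ((T m x y ∧ P y) ∧ (T m y z ∧ ¬ T m (m x y) z ∧
          ¬ T m x (m y z) ∧ ¬ (m x (m y z) ≠ m (m x y) z)))) +
        (ind (T m y z ∧ T m (m x y) z) + ind (T m y z ∧ m x y = y)) +
        2 * ind (P x ∧ T m (m x y) z)) (by
          intro x y z
          apply ptI3
          · intro hA hC
            exact hSnP _ (hTS x y hA) (hTP _ _ hC)
          · intro hB hD
            have hD' := (hT _ _).1 hD
            exact hPnV x hD'.1 (hSS x _ (hTS y z hB) hD'.2)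
          · intro hA hD
            rw [ind_true (show T m x y ∧ T m x (m y z) from ⟨hA, hD⟩)]
            refine ⟨Nat.le_add_right _ _, ?_⟩
            intro nB nC nN
            have hyy : m y z = y := by
              by_contra hyy
              apply nN
              have hA' := (hT _ _).1 hA
              have hD' := (hT _ _).1 hD
              have hyz := nT y z nB
              rw [nT _ _ nC]
              rcases hA'.2 with e1 | e1
              · rcases hD'.2 with e2 | e2
                · exact absurd (mul_left_cancel (e2.trans e1.symm)) hyy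
                · rw [hq _ _ hD'.1 e2, hp _ _ hA'.1 e1]
                  intro hh
                  rw [hyz, ← mul_assoc, e1] at e2
                  apply vp
                  rw [← e2, ← mul_assoc]; exact hh.symm
              · rcases hD'.2 with e2 | e2
                · rw [hp _ _ hD'.1 e2, hq _ _ hA'.1 e1]
                  intro hh
                  rw [hyz, ← mul_assoc, e1] at e2
                  apply vp
                  rw [hh, ← mul_assoc]; exact e2
                · exact absurd (mul_left_cancel (e2.trans e1.symm)) hyy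
            rw [ind_true (show T m x y ∧ m y z = y from ⟨hA, hyy⟩)]
          · intro hA hB
            rw [ind_true (show T m x y ∧ T m y z from ⟨hA, hB⟩)]
            refine ⟨Nat.le_add_right _ _, ?_⟩
            intro nC nD nN
            rw [ind_true (show (T m x y ∧ P y) ∧ (T m y z ∧ ¬ T m (m x y) z ∧
              ¬ T m x (m y z) ∧ ¬ (m x (m y z) ≠ m (m x y) z)) from
              ⟨⟨hA, hTP _ _ hB⟩, hB, nC, nD, nN⟩)]
          · intro hB hC
            rw [ind_true (show T m y z ∧ T m (m x y) z from ⟨hB, hC⟩)]
            refine ⟨Nat.le_add_right _ _, ?_⟩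
            intro nA nD nN
            have huy : m x y = y := by
              by_contra huy
              apply nN
              have hB' := (hT _ _).1 hB
              have hC' := (hT _ _).1 hC
              have hxy := nT x y nA
              rw [nT _ _ nD]
              rcases hB'.2 with e1 | e1
              · rcases hC'.2 with e2 | e2
                · exact absurd (mul_right_cancel (e2.trans e1.symm)) huy
                · rw [hq _ _ hC'.1 e2, hp _ _ hB'.1 e1]
                  intro hh
                  rw [hxy, mul_assoc, e1] at e2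
                  have e3 : x = v := mul_right_cancel e2
                  rw [e3] at hh
                  exact vp hh
              · rcases hC'.2 with e2 | e2
                · rw [hp _ _ hC'.1 e2, hq _ _ hB'.1 e1]
                  intro hh
                  have e3 : x = v := mul_right_cancel hh
                  rw [hxy, mul_assoc, e1, e3] at e2
                  exact vp e2
                · exact absurd (mul_right_cancel (e2.trans e1.symm)) huy
            rw [ind_true (show T m y z ∧ m x y = y from ⟨hB, huy⟩)]
          · intro hC hD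
            rw [ind_true (show P x ∧ T m (m x y) z from ⟨hTP _ _ hD, hC⟩)]
          · exact sA
          · exact sB
          · exact sC
          · exact sD)
      simp only [Finset.sum_add_distrib, ← Finset.mul_sum] at h0
      rw [sAD, s8 h, s9 h, s1 h, cP, htt] at h0
      have hTPy : ∑ x, ∑ y, ind (T m x y ∧ P y) ≤ 6 := by
        rw [Finset.sum_comm]
        calc ∑ y, ∑ x, ind (T m x y ∧ P y) = ∑ y, gam m y * ind (P y) := by
              refine Finset.sum_congr rfl fun y _ => ?_
              simp only [ind_and, ← Finset.sum_mul]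
              unfold gam
              simp only [ite_eq_ind]
          _ ≤ ∑ y, 2 * ind (P y) :=
              Finset.sum_le_sum fun y _ => Nat.mul_le_mul_right _ (hgam y)
          _ = 6 := by rw [← Finset.mul_sum, ← cnt_eq, cP]; norm_num
      have sABle : ∑ x, ∑ y, ∑ z, ind (T m x y ∧ T m y z) ≤ 12 := by
        calc ∑ x, ∑ y, ∑ z, ind (T m x y ∧ T m y z) = ∑ x, ∑ y, 2 * ind (T m x y ∧ P y) := by
              refine Finset.sum_congr rfl fun x _ => Finset.sum_congr rfl fun y _ => ?_
              simp only [ind_and, ← Finset.mul_sum]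
              have := hrho y
              unfold rho at this
              simp only [ite_eq_ind] at this
              rw [this]; ring
          _ = 2 * ∑ x, ∑ y, ind (T m x y ∧ P y) := by
              simp only [← Finset.mul_sum]
          _ ≤ 12 := by omega
      have sABN : ∑ x, ∑ y, ∑ z, ind ((T m x y ∧ P y) ∧ (T m y z ∧ ¬ T m (m x y) z ∧
          ¬ T m x (m y z) ∧ ¬ (m x (m y z) ≠ m (m x y) z))) ≤ 6 := by
        refine le_trans ?_ hTPy
        refine Finset.sum_le_sum fun x _ => Finset.sum_le_sum fun y _ => ?_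
        rw [show (∑ z, ind ((T m x y ∧ P y) ∧ (T m y z ∧ ¬ T m (m x y) z ∧
          ¬ T m x (m y z) ∧ ¬ (m x (m y z) ≠ m (m x y) z)))) = ind (T m x y ∧ P y) *
          cnt (fun z => (T m y z ∧ ¬ T m (m x y) z ∧
          ¬ T m x (m y z) ∧ ¬ (m x (m y z) ≠ m (m x y) z))) by
            rw [cnt_eq, Finset.mul_sum]
            refine Finset.sum_congr rfl fun z _ => ?_
            rw [ind_and]]
        have hle : cnt (fun z => (T m y z ∧ ¬ T m (m x y) z ∧
          ¬ T m x (m y z) ∧ ¬ (m x (m y z) ≠ m (m x y) z))) ≤ 1 := by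
          rw [cnt_card]
          have : Subsingleton {z // (T m y z ∧ ¬ T m (m x y) z ∧
            ¬ T m x (m y z) ∧ ¬ (m x (m y z) ≠ m (m x y) z))} := by
            have key : ∀ z1 z2, y * z1 = p → y * z2 = v * p →
                (T m y z1 ∧ ¬ T m (m x y) z1 ∧
                  ¬ T m x (m y z1) ∧ ¬ (m x (m y z1) ≠ m (m x y) z1)) →
                (T m y z2 ∧ ¬ T m (m x y) z2 ∧
                  ¬ T m x (m y z2) ∧ ¬ (m x (m y z2) ≠ m (m x y) z2)) → False := by
              rintro z1 z2 e1 e2 ⟨b1, c1, d1, n1⟩ ⟨b2, c2, d2, n2⟩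
              push Not at n1 n2
              rw [nT _ _ d1, nT _ _ c1, hp _ _ (hTP _ _ b1) e1] at n1
              rw [nT _ _ d2, nT _ _ c2, hq _ _ (hTP _ _ b2) e2] at n2
              -- n1 : x * (v * p) = m x y * z1, n2 : x * p = m x y * z2
              have f1 : m x y = x * v * y := by
                have : x * (v * (y * z1)) = m x y * z1 := by rw [e1]; exact n1
                have : x * v * y * z1 = m x y * z1 := by rw [← this]; group
                exact (mul_right_cancel this).symm
              have f2 : m x y = x * v⁻¹ * y := by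
                have g1 : p = v⁻¹ * (y * z2) := by rw [e2]; group
                have : x * (v⁻¹ * (y * z2)) = m x y * z2 := by rw [← g1]; exact n2
                have : x * v⁻¹ * y * z2 = m x y * z2 := by rw [← this]; group
                exact (mul_right_cancel this).symm
              rw [f1] at f2
              have g2 : x * v = x * v⁻¹ := mul_right_cancel f2
              have g3 : v = v⁻¹ := mul_left_cancel g2
              apply hvv
              nth_rewrite 2 [g3]
              simp
            constructor
            rintro ⟨z1, hz1⟩ ⟨z2, hz2⟩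
            apply Subtype.ext
            show z1 = z2
            rcases ((hT _ _).1 hz1.1).2 with e1 | e1 <;> rcases ((hT _ _).1 hz2.1).2 with e2 | e2
            · exact mul_left_cancel (e1.trans e2.symm)
            · exact (key z1 z2 e1 e2 hz1 hz2).elim
            · exact (key z2 z1 e2 e1 hz2 hz1).elim
            · exact mul_left_cancel (e1.trans e2.symm)
          rw [Finite.card_le_one_iff_subsingleton]
          exact this
        calc ind (T m x y ∧ P y) * _ ≤ ind (T m x y ∧ P y) * 1 := Nat.mul_le_mul_left _ hle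
          _ = _ := mul_one _
      omega

end Pool.Agent.Helper60.Quas
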