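import Pool.Agent.Helper60.Quas.Upper

namespace Pool.Agent.Helper60.Quas

open Finset Equiv

/-- `(x₁, x₂) · (y₁, y₂) = (x₁ + y₁ + [x₂ = 0, y₂ = 1] x₁, x₂ + y₂)` on `ℤ/3 × ℤ/m`. -/
def opO (m : ℕ) : ZMod 3 × ZMod m → ZMod 3 × ZMod m → ZMod 3 × ZMod m :=
  fun x y => (x.1 + y.1 + (if x.2 = 0 ∧ y.2 = 1 then x.1 else 0), x.2 + y.2)

lemma opO_isQuasigroup (m : ℕ) [NeZero m] : IsQuasigroup (opO m) := by
  constructor
  · intro a
    rw [← Finite.injective_iff_bijective]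
    intro x y hxy
    simp only [opO, Prod.mk.injEq, add_right_inj] at hxy
    obtain ⟨h1, h2⟩ := hxy
    rw [h2] at h1
    exact Prod.ext (add_left_cancel (add_right_cancel h1)) h2
  · intro a
    rw [← Finite.injective_iff_bijective]
    intro x y hxy
    simp only [opO, Prod.mk.injEq, add_left_inj] at hxy
    obtain ⟨h1, h2⟩ := hxy
    rw [h2] at h1
    refine Prod.ext ?_ h2
    by_cases hc : y.2 = 0 ∧ a.2 = 1
    · simp only [hc, and_self, if_true] at h1
      have key : ∀ u v w : ZMod 3, u + w + u = v + w + v → u = v := by decide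
      exact key _ _ _ h1
    · simp only [hc, if_false] at h1
      exact add_right_cancel (add_right_cancel h1)

/-- number of non-associative triples over given second coordinates -/
def G (α β γ δ : Prop) [Decidable α] [Decidable β] [Decidable γ] [Decidable δ] : ℕ :=
  ∑ x : ZMod 3, ∑ y : ZMod 3, ∑ z : ZMod 3,
    if x + (y + z + (if γ then y else 0)) + (if δ then x else 0) ≠
      x + y + (if α then x else 0) + z + (if β then x + y + (if α then x else 0) else 0)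
    then 1 else 0

lemma G_le (α β γ δ : Prop) [Decidable α] [Decidable β] [Decidable γ] [Decidable δ] :
    G α β γ δ ≤ 18 * ((if α then 1 else 0) + (if β then 1 else 0) + (if γ then 1 else 0) +
      (if δ then 1 else 0)) := by
  by_cases h1 : α <;> by_cases h2 : β <;> by_cases h3 : γ <;> by_cases h4 : δ <;>
    simp only [G, h1, h2, h3, h4, if_true, if_false] <;> decide

lemma sum_reorder {A B : Type*} [Fintype A] [Fintype B] (F : A → B → A → B → A → B → ℕ) :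
    ∑ x : A × B, ∑ y : A × B, ∑ z : A × B, F x.1 x.2 y.1 y.2 z.1 z.2 =
      ∑ x2, ∑ y2, ∑ z2, ∑ x1, ∑ y1, ∑ z1, F x1 x2 y1 y2 z1 z2 := by
  simp only [Fintype.sum_prod_type_right]
  refine Finset.sum_congr rfl fun x2 _ => ?_
  rw [Finset.sum_comm]
  refine Finset.sum_congr rfl fun y2 _ => ?_
  calc ∑ x1, ∑ y1, ∑ z2, ∑ z1, F x1 x2 y1 y2 z1 z2
      = ∑ x1, ∑ z2, ∑ y1, ∑ z1, F x1 x2 y1 y2 z1 z2 :=
        Finset.sum_congr rfl fun x1 _ => Finset.sum_comm
    _ = _ := Finset.sum_comm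

lemma opO_count (m : ℕ) [NeZero m] :
    nonAssocTriples (opO m) = ∑ x : ZMod m, ∑ y : ZMod m, ∑ z : ZMod m,
      G (x = 0 ∧ y = 1) (x + y = 0 ∧ z = 1) (y = 0 ∧ z = 1) (x = 0 ∧ y + z = 1) := by
  rw [nonAssoc_eq]
  have hF : ∀ x y z : ZMod 3 × ZMod m,
      (if opO m x (opO m y z) ≠ opO m (opO m x y) z then 1 else 0) =
      (fun (x1 : ZMod 3) (x2 : ZMod m) (y1 : ZMod 3) (y2 : ZMod m) (z1 : ZMod 3) (z2 : ZMod m) =>
        if x1 + (y1 + z1 + (if y2 = 0 ∧ z2 = 1 then y1 else 0)) +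
            (if x2 = 0 ∧ y2 + z2 = 1 then x1 else 0) ≠
          x1 + y1 + (if x2 = 0 ∧ y2 = 1 then x1 else 0) + z1 +
            (if x2 + y2 = 0 ∧ z2 = 1 then x1 + y1 + (if x2 = 0 ∧ y2 = 1 then x1 else 0) else 0)
        then 1 else 0) x.1 x.2 y.1 y.2 z.1 z.2 := by
    intro x y z
    refine if_congr ?_ rfl rfl
    unfold opO
    rw [ne_eq, ne_eq, not_iff_not, Prod.mk.injEq]
    constructor
    · rintro ⟨h1, -⟩
      exact h1
    · intro h1
      exact ⟨h1, by ring⟩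
  simp only [hF]
  rw [sum_reorder (fun (x1 : ZMod 3) (x2 : ZMod m) (y1 : ZMod 3) (y2 : ZMod m) (z1 : ZMod 3)
    (z2 : ZMod m) =>
        if x1 + (y1 + z1 + (if y2 = 0 ∧ z2 = 1 then y1 else 0)) +
            (if x2 = 0 ∧ y2 + z2 = 1 then x1 else 0) ≠
          x1 + y1 + (if x2 = 0 ∧ y2 = 1 then x1 else 0) + z1 +
            (if x2 + y2 = 0 ∧ z2 = 1 then x1 + y1 + (if x2 = 0 ∧ y2 = 1 then x1 else 0) else 0)
        then 1 else 0)]
  rfl

lemma opO_upper (m : ℕ) [NeZero m] (hm : (1 : ZMod m) ≠ 0) :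
    nonAssocTriples (opO m) + 90 ≤ 72 * m := by
  have hpt : ∀ x y z : ZMod m,
      G (x = 0 ∧ y = 1) (x + y = 0 ∧ z = 1) (y = 0 ∧ z = 1) (x = 0 ∧ y + z = 1) +
      (36 * (if x = 0 ∧ y = 1 ∧ z = 0 then 1 else 0) +
        54 * (if x = 0 ∧ y = 0 ∧ z = 1 then 1 else 0)) ≤
      18 * ((if x = 0 ∧ y = 1 then 1 else 0) + (if x + y = 0 ∧ z = 1 then 1 else 0) +
      (if y = 0 ∧ z = 1 then 1 else 0) + (if x = 0 ∧ y + z = 1 then 1 else 0)) := by
    intro x y z
    by_cases c1 : x = 0 ∧ y = 1 ∧ z = 0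
    · obtain ⟨rfl, rfl, rfl⟩ := c1
      have g0 : G ((0 : ZMod m) = 0 ∧ (1 : ZMod m) = 1) ((0 : ZMod m) + 1 = 0 ∧ (0 : ZMod m) = 1)
          ((1 : ZMod m) = 0 ∧ (0 : ZMod m) = 1) ((0 : ZMod m) = 0 ∧ (1 : ZMod m) + 0 = 1) = 0 := by
        simp only [G, hm, hm.symm, add_zero, zero_add, and_true, and_self, and_false, if_true,
          if_false]
        decide
      rw [g0]
      simp [hm, hm.symm]
    by_cases c2 : x = 0 ∧ y = 0 ∧ z = 1
    · obtain ⟨rfl, rfl, rfl⟩ := c2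
      have g0 : G ((0 : ZMod m) = 0 ∧ (0 : ZMod m) = 1) ((0 : ZMod m) + 0 = 0 ∧ (1 : ZMod m) = 1)
          ((0 : ZMod m) = 0 ∧ (1 : ZMod m) = 1) ((0 : ZMod m) = 0 ∧ (0 : ZMod m) + 1 = 1) = 0 := by
        simp only [G, hm.symm, add_zero, zero_add, and_true, and_self, and_false, if_true,
          if_false]
        decide
      rw [g0]
      simp [hm, hm.symm]
    simp only [c1, c2, if_false, add_zero, mul_zero]
    exact G_le _ _ _ _
  have hsum := Finset.sum_le_sum (fun x (_ : x ∈ (univ : Finset (ZMod m))) =>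
    Finset.sum_le_sum (fun y (_ : y ∈ (univ : Finset (ZMod m))) =>
      Finset.sum_le_sum (fun z (_ : z ∈ (univ : Finset (ZMod m))) => hpt x y z)))
  simp only [Finset.sum_add_distrib, ← Finset.mul_sum] at hsum
  rw [← opO_count] at hsum
  have t1 : ∀ a b c : ZMod m, ∑ x : ZMod m, ∑ y : ZMod m, ∑ z : ZMod m,
      (if x = a ∧ y = b ∧ z = c then 1 else 0) = 1 := by
    intro a b c
    simp [ite_and]
  have s1 : ∑ x : ZMod m, ∑ y : ZMod m, ∑ z : ZMod m, (if x = 0 ∧ y = 1 then 1 else 0) = m := by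
    simp [ite_and]
  have s2 : ∑ x : ZMod m, ∑ y : ZMod m, ∑ z : ZMod m, (if x + y = 0 ∧ z = 1 then 1 else 0) = m := by
    have : ∀ x y : ZMod m, x + y = 0 ↔ y = 0 - x := by
      intro x y; constructor
      · intro h; rw [← h]; ring
      · intro h; rw [h]; ring
    simp [ite_and, this]
  have s3 : ∑ x : ZMod m, ∑ y : ZMod m, ∑ z : ZMod m, (if y = 0 ∧ z = 1 then 1 else 0) = m := by
    simp [ite_and]
  have s4 : ∑ x : ZMod m, ∑ y : ZMod m, ∑ z : ZMod m, (if x = 0 ∧ y + z = 1 then 1 else 0) = m := by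
    have : ∀ x y : ZMod m, x + y = 1 ↔ y = 1 - x := by
      intro x y; constructor
      · intro h; rw [← h]; ring
      · intro h; rw [h]; ring
    simp [ite_and, this]
  rw [t1, t1, s1, s2, s3, s4] at hsum
  omega

lemma opO_pos (m : ℕ) [NeZero m] (hm : (1 : ZMod m) ≠ 0) :
    0 < nonAssocTriples (opO m) := by
  unfold nonAssocTriples
  apply Finset.card_pos.2
  refine ⟨((1, 0), (0, 1), (0, 1)), ?_⟩
  rw [mem_filter]
  refine ⟨mem_univ _, ?_⟩
  have h2 : (1 : ZMod m) + 1 ≠ 1 := by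
    intro h; exact hm (by simpa using h)
  simp only [opO, h2, hm, hm.symm, and_true, and_false, and_self, if_true, if_false, add_zero,
    zero_add, ne_eq, Prod.mk.injEq]
  decide

end Pool.Agent.Helper60.Quas
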